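import Mathlib

/-!
# The curve with a real exponent: the meaning of the cell values (council 2, helper62, helper79)

`PosCell q φ a b v`: `Re (e^{iφ} q) ≥ exp A` on `[a, b]` and `v ≤ (b - a) exp (mean A)`.
`NegCell q φ a b v₁ v₂`: `-Re (e^{iφ} q) ≤ c` on `[a, b]`, `c ≥ 0`, with the two moments of `c`.
-/

set_option autoImplicit false

namespace Pool.Agent.Lib.MP_af3a4a_an.P1.CHK.CurveK

open MeasureTheory intervalIntegral

/-- a cell with positive real part -/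
def PosCell (q : ℝ → ℂ) (φ a b v : ℝ) : Prop :=
  ∃ A : ℝ → ℝ, ContinuousOn A (Set.Icc a b) ∧
    (∀ x ∈ Set.Icc a b, Real.exp (A x) ≤ (Complex.exp ((φ : ℂ) * Complex.I) * q x).re) ∧
    v ≤ (b - a) * Real.exp ((∫ x in a..b, A x) / (b - a))

/-- a cell with an upper bound of `-Re (e^{iφ} q)` and its two moments -/
def NegCell (q : ℝ → ℂ) (φ a b v₁ v₂ : ℝ) : Prop :=
  ∃ c : ℝ → ℝ, ContinuousOn c (Set.Icc a b) ∧
    (∀ x ∈ Set.Icc a b, 0 ≤ c x ∧ -(Complex.exp ((φ : ℂ) * Complex.I) * q x).re ≤ c x) ∧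
    (∫ x in a..b, c x * ((b - x) / (b - a))) ≤ v₁ ∧
    (∫ x in a..b, c x * ((x - a) / (b - a))) ≤ v₂

end Pool.Agent.Lib.MP_af3a4a_an.P1.CHK.CurveK
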