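import Pool.Agent.Lib.MP_af3a4a_an.P1.CHK.CurveK.Pow

/-!
# The curve with a real exponent: the column (council 2, helper62)
-/

set_option autoImplicit false

namespace Pool.Agent.Lib.MP_af3a4a_an.P1.CHK.CurveK

open MeasureTheory intervalIntegral
open Pool.Agent.Lib.MP_af3a4a_an.P1.CHK.Arith
open Pool.Agent.Lib.MP_af3a4a_an.P1.CHK.H80 (gg JJ Th gg_pos gg_cont)
open Pool.Agent.Lib.MP_af3a4a_an.P1.CHK.Curve (mr c40 gg_anti nd nd_nonneg nd_lt nd_succ
  nd_lt_succ nd_mid ch ch_mono ch_mul Inv JJ_zero Th_zero JJ_mono JJ_step Th_mono Th_mono_x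
  Th_step_up Th_step_dn Th_chord_up Th_chord_dn kN gN dN wN tinc mN kN_ge gN_eq dN_eq wN_le
  tinc_le mN_le kk dd dd_pos log_gg_mean bi bi_and bi_true bi_false)

/-! ### the meaning of a column -/

/-- the meaning of one cell -/
structure CellOK (K m : ℝ) (Q j tla tua pj tl tu dp dn pm ee : ℕ) : Prop where
  lt : j + 1 < Q
  J : K * JJ m (nd Q (j + 1)) ≤ (pj : ℝ) / 1099511627776
  lo : ∀ x ∈ Set.Icc (nd Q j) (nd Q (j + 1)),
    ch (nd Q j) (nd Q (j + 1)) ((tla : ℝ) / 1099511627776) ((tl : ℝ) / 1099511627776) x -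
      (dn : ℝ) / 1099511627776 ≤ K * Th m x
  hi : ∀ x ∈ Set.Icc (nd Q j) (nd Q (j + 1)), K * Th m x ≤
    ch (nd Q j) (nd Q (j + 1)) ((tua : ℝ) / 1099511627776) ((tu : ℝ) / 1099511627776) x +
      (dp : ℝ) / 1099511627776
  pm : (pm : ℝ) / 1099511627776 ≤ Real.exp (K / 2 *
    ((∫ x in nd Q j..nd Q (j + 1), Real.log (gg m x)) / (nd Q (j + 1) - nd Q j)))
  ee : EK K m (nd Q (j + 1)) ≤ (ee : ℝ) / 1099511627776

/-- the meaning of a column, from the node `j` on -/
def ColOK (K m : ℝ) (Q : ℕ) : Col → ℕ → ℕ → ℕ → Prop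
  | .nil, _, _, _ => True
  | .cell pj tl tu dp dn pm ee rest, j, tla, tua =>
    CellOK K m Q j tla tua pj tl tu dp dn pm ee ∧ ColOK K m Q rest (j + 1) tl tu

/-! ### the integer functions -/

section nat

variable {K Q mp mn lp ln j : ℕ}

theorem gN_pos (hQ : 0 < Q) (hm : |mr mp mn| ≤ 1) (hj : j < Q) : 0 < gN Q mp mn j := by
  have hQ' : (0 : ℝ) < Q := Nat.cast_pos.2 hQ
  have hg := gg_pos hm (by linarith [nd_nonneg Q j] : -1 < nd Q j) (nd_lt hQ hj)
  have hgN := gN_eq (mp := mp) (mn := mn) (j := j) hQ hg.le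
  have : (0 : ℝ) < (gN Q mp mn j : ℝ) := by
    rw [hgN]
    unfold nd at hg
    positivity
  exact_mod_cast this

theorem dN_pos (hQ : 0 < Q) (hm : |mr lp ln| ≤ 1) (hj : j + 1 < Q) : 0 < dN Q lp ln j := by
  have hQ' : (0 : ℝ) < Q := Nat.cast_pos.2 hQ
  have hd := dd_pos hm (nd_nonneg Q j) (nd_lt_succ hQ).le (nd_lt hQ hj)
  have hdN := dN_eq (mp := lp) (mn := ln) (j := j) hQ hd.le
  have : (0 : ℝ) < (dN Q lp ln j : ℝ) := by
    rw [hdN]
    unfold nd at hd
    positivity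
  exact_mod_cast this

theorem dpK_ge (hQ : 0 < Q) (hm : |mr mp mn| ≤ 1) (hj : j < Q) :
    (K : ℝ) / 16 * ((nd Q (j + 1) - nd Q j) ^ 2 / 4 *
        max (nd Q j - mr mp mn) 0 / gg (mr mp mn) (nd Q j) ^ 2) ≤
      (dpK K Q mp mn j : ℝ) / 1099511627776 := by
  have hQ' : (0 : ℝ) < Q := Nat.cast_pos.2 hQ
  have hg := gg_pos hm (by linarith [nd_nonneg Q j] : -1 < nd Q j) (nd_lt hQ hj)
  have hgN := gN_eq (mp := mp) (mn := mn) (j := j) hQ hg.le
  have hgp := gN_pos hQ hm hj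
  have hdef : dpK K Q mp mn j = ((K * ((j * 1099511627776 + Q * mn) - Q * mp)) *
    (1208925819614629174706176 * Q)) / (64 * (gN Q mp mn j * gN Q mp mn j)) + 1 := rfl
  rw [hdef]
  set X := j * 1099511627776 + Q * mn - Q * mp with hX
  have hX' : max (nd Q j - mr mp mn) 0 ≤ (X : ℝ) / (Q * 1099511627776) := by
    rw [max_le_iff]
    refine ⟨?_, by positivity⟩
    have := sub_le_cast (j * 1099511627776 + Q * mn) (Q * mp)
    rw [le_div_iff₀ (by positivity)]
    refine le_trans (le_of_eq ?_) this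
    unfold nd mr
    push_cast
    field_simp
    ring
  have h1 := real_le_div ((K * X) * (1208925819614629174706176 * Q))
    (64 * ((gN Q mp mn j) * (gN Q mp mn j))) (by positivity)
  refine le_trans ?_ (div_le_div_of_nonneg_right h1
    (show (0 : ℝ) ≤ 1099511627776 by norm_num))
  have f : (nd Q (j + 1) - nd Q j) ^ 2 / 4 * max (nd Q j - mr mp mn) 0 /
      gg (mr mp mn) (nd Q j) ^ 2 ≤
      (nd Q (j + 1) - nd Q j) ^ 2 / 4 * ((X : ℝ) / (Q * 1099511627776)) /
      gg (mr mp mn) (nd Q j) ^ 2 := by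
    apply div_le_div_of_nonneg_right _ (by positivity)
    exact mul_le_mul_of_nonneg_left hX' (by positivity)
  refine (mul_le_mul_of_nonneg_left f (by positivity)).trans (le_of_eq ?_)
  rw [nd_succ hQ]
  push_cast
  rw [hgN]
  unfold nd at hg ⊢
  field_simp
  ring

theorem dnK_ge (hQ : 0 < Q) (hm : |mr lp ln| ≤ 1) (hj : j + 1 < Q) :
    (K : ℝ) / 16 * ((nd Q (j + 1) - nd Q j) ^ 2 / 4 *
        max (mr lp ln - nd Q j) 0 / dd (mr lp ln) (nd Q j) (nd Q (j + 1)) ^ 2) ≤
      (dnK K Q lp ln j : ℝ) / 1099511627776 := by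
  have hQ' : (0 : ℝ) < Q := Nat.cast_pos.2 hQ
  have hd := dd_pos hm (nd_nonneg Q j) (nd_lt_succ hQ).le (nd_lt hQ hj)
  have hdN := dN_eq (mp := lp) (mn := ln) (j := j) hQ hd.le
  have hdp := dN_pos hQ hm hj
  have hdef : dnK K Q lp ln j = ((K * (Q * lp - (j * 1099511627776 + Q * ln))) *
    (1208925819614629174706176 * Q)) / (64 * (dN Q lp ln j * dN Q lp ln j)) + 1 := rfl
  rw [hdef]
  set Y := Q * lp - (j * 1099511627776 + Q * ln) with hY
  have hY' : max (mr lp ln - nd Q j) 0 ≤ (Y : ℝ) / (Q * 1099511627776) := by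
    rw [max_le_iff]
    refine ⟨?_, by positivity⟩
    have := sub_le_cast (Q * lp) (j * 1099511627776 + Q * ln)
    rw [le_div_iff₀ (by positivity)]
    refine le_trans (le_of_eq ?_) this
    unfold nd mr
    push_cast
    field_simp
    ring
  have h1 := real_le_div ((K * Y) * (1208925819614629174706176 * Q))
    (64 * ((dN Q lp ln j) * (dN Q lp ln j))) (by positivity)
  refine le_trans ?_ (div_le_div_of_nonneg_right h1
    (show (0 : ℝ) ≤ 1099511627776 by norm_num))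
  have f : (nd Q (j + 1) - nd Q j) ^ 2 / 4 * max (mr lp ln - nd Q j) 0 /
      dd (mr lp ln) (nd Q j) (nd Q (j + 1)) ^ 2 ≤
      (nd Q (j + 1) - nd Q j) ^ 2 / 4 * ((Y : ℝ) / (Q * 1099511627776)) /
      dd (mr lp ln) (nd Q j) (nd Q (j + 1)) ^ 2 := by
    apply div_le_div_of_nonneg_right _ (by positivity)
    exact mul_le_mul_of_nonneg_left hY' (by positivity)
  refine (mul_le_mul_of_nonneg_left f (by positivity)).trans (le_of_eq ?_)
  rw [nd_succ hQ]
  push_cast
  rw [hdN]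
  unfold nd at hd ⊢
  field_simp
  ring

theorem pmK_le (hK : 1 ≤ K) (hQ : 0 < Q) (hm : |mr mp mn| ≤ 1) (hj : j + 1 < Q) {m : ℝ}
    (hm1 : |m| ≤ 1) (hle : m ≤ mr mp mn) :
    (pmK K Q (mN Q mp mn j) : ℝ) / 1099511627776 ≤ Real.exp ((K : ℝ) / 16 / 2 *
      ((∫ x in nd Q j..nd Q (j + 1), Real.log (gg m x)) / (nd Q (j + 1) - nd Q j))) := by
  have hQ' : (0 : ℝ) < Q := Nat.cast_pos.2 hQ
  set g := mN Q mp mn j with hgdef
  by_cases hc : 17592186044416 ≤ g * (Q * Q)
  · have hdef : pmK K Q g = (pwL K g (rtU g) * emL ((K * 1208925819614629174706176) /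
        ((96 * (Q * Q)) * g) + 1)) >>> 40 := by
      unfold pmK
      have hb : Nat.ble 17592186044416 (Nat.mul g (Nat.mul Q Q)) = true := by
        rw [Nat.ble_eq]
        exact hc
      rw [hb, bi_true]
      simp only [ev_eq]
      rfl
    rw [hdef]
    have hg0 : 0 < g := by
      rcases Nat.eq_zero_or_pos g with h | h
      · rw [h, Nat.zero_mul] at hc
        omega
      · exact h
    have hg' : (0 : ℝ) < g := Nat.cast_pos.2 hg0
    set γ := (g : ℝ) / 1099511627776 with hγ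
    have hγ0 : 0 < γ := by positivity
    have h0 := nd_nonneg Q j
    have hlt := nd_lt_succ (j := j) hQ
    have h1 := nd_lt hQ hj
    have hba : 0 < nd Q (j + 1) - nd Q j := by linarith
    have hmid := nd_mid (j := j) hQ
    have hγM : γ ≤ gg m ((nd Q j + nd Q (j + 1)) / 2) := by
      rw [hmid]
      have hggm : 0 < gg (mr mp mn) ((2 * j + 1 : ℕ) / (2 * Q)) := by
        rw [← hmid]
        exact gg_pos hm (by linarith) (by linarith)
      exact (mN_le hQ hggm.le).trans (gg_anti hle (by positivity))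
    have hD' : 16 * (nd Q (j + 1) - nd Q j) ^ 2 ≤ γ := by
      rw [nd_succ hQ, hγ]
      have : ((17592186044416 : ℕ) : ℝ) ≤ ((g * (Q * Q) : ℕ) : ℝ) := by exact_mod_cast hc
      push_cast at this
      rw [le_div_iff₀ (by norm_num), one_div, inv_pow]
      have e : 16 * ((Q : ℝ) ^ 2)⁻¹ * 1099511627776 = (16 * 1099511627776) / (Q : ℝ) ^ 2 := by
        ring
      rw [e, div_le_iff₀ (by positivity)]
      nlinarith
    have e2 := log_gg_mean hm1 h0 hlt h1 (hD'.trans hγM)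
    set M := (nd Q j + nd Q (j + 1)) / 2 with hM
    have e4 : Real.log γ - (nd Q (j + 1) - nd Q j) ^ 2 / (3 * γ) ≤
        Real.log (gg m M) - (nd Q (j + 1) - nd Q j) ^ 2 / (3 * gg m M) := by
      have f1 := Real.log_le_log hγ0 hγM
      have f2 : (nd Q (j + 1) - nd Q j) ^ 2 / (3 * gg m M) ≤
          (nd Q (j + 1) - nd Q j) ^ 2 / (3 * γ) := by
        apply div_le_div_of_nonneg_left (by positivity) (by positivity)
        linarith
      linarith
    have e5 : Real.log γ - (nd Q (j + 1) - nd Q j) ^ 2 / (3 * γ) ≤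
        (∫ x in nd Q j..nd Q (j + 1), Real.log (gg m x)) / (nd Q (j + 1) - nd Q j) := by
      rw [le_div_iff₀ hba, mul_comm]
      exact (mul_le_mul_of_nonneg_left e4 hba.le).trans e2
    have e6 : Real.exp ((K : ℝ) / 16 / 2 *
        (Real.log γ - (nd Q (j + 1) - nd Q j) ^ 2 / (3 * γ))) ≤
        Real.exp ((K : ℝ) / 16 / 2 *
      ((∫ x in nd Q j..nd Q (j + 1), Real.log (gg m x)) / (nd Q (j + 1) - nd Q j))) := by
      apply Real.exp_le_exp.2
      exact mul_le_mul_of_nonneg_left e5 (by positivity)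
    refine le_trans ?_ e6
    have e7 : (K : ℝ) / 16 / 2 * (Real.log γ - (nd Q (j + 1) - nd Q j) ^ 2 / (3 * γ)) =
        (K : ℝ) / 16 * (Real.log γ / 2) + -((K : ℝ) / 16 * (1 / (Q : ℝ)) ^ 2 / (6 * γ)) := by
      rw [nd_succ hQ]
      field_simp
      ring
    rw [e7, Real.exp_add]
    have e8 : Real.exp ((K : ℝ) / 16 * (Real.log γ / 2)) = Real.sqrt γ ^ ((K : ℝ) / 16) := by
      rw [Real.rpow_def_of_pos (Real.sqrt_pos.2 hγ0), Real.log_sqrt hγ0.le]
      congr 1
      ring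
    rw [e8]
    have p1 := pwL_le K g hK
    rw [← hγ] at p1
    have p2 := emL_spec ((K * 1208925819614629174706176) / ((96 * (Q * Q)) * g) + 1)
    rw [c40] at p2
    have p3 : Real.exp (-((((K * 1208925819614629174706176) / ((96 * (Q * Q)) * g) + 1 : ℕ) : ℝ) /
        1099511627776)) ≤ Real.exp (-((K : ℝ) / 16 * (1 / (Q : ℝ)) ^ 2 / (6 * γ))) := by
      apply Real.exp_le_exp.2
      rw [neg_le_neg_iff]
      have f2 := real_le_div (K * 1208925819614629174706176) ((96 * (Q * Q)) * g)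
        (by positivity)
      refine le_trans (le_of_eq ?_) (div_le_div_of_nonneg_right f2
        (show (0 : ℝ) ≤ 1099511627776 by norm_num))
      rw [hγ]
      push_cast
      field_simp
      ring
    have p4 := shr_le (pwL K g (rtU g) * emL ((K * 1208925819614629174706176) /
        ((96 * (Q * Q)) * g) + 1)) 40
    rw [c40] at p4
    calc _ ≤ (((pwL K g (rtU g) * emL ((K * 1208925819614629174706176) /
        ((96 * (Q * Q)) * g) + 1) : ℕ) : ℝ) / 1099511627776) / 1099511627776 :=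
          div_le_div_of_nonneg_right p4 (by norm_num)
      _ = (pwL K g (rtU g) : ℝ) / 1099511627776 *
          ((emL ((K * 1208925819614629174706176) /
        ((96 * (Q * Q)) * g) + 1) : ℝ) / 1099511627776) := by
          rw [Nat.cast_mul]
          ring
      _ ≤ _ := mul_le_mul p1 (p2.trans p3) (by positivity) (by positivity)
  · have hdef : pmK K Q g = 0 := by
      unfold pmK
      have hb : Nat.ble 17592186044416 (Nat.mul g (Nat.mul Q Q)) = false := by
        rw [Bool.eq_false_iff, ne_eq, Nat.ble_eq]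
        exact hc
      rw [hb, bi_false]
    rw [hdef]
    simp only [Nat.cast_zero, zero_div]
    positivity

/-! ### the invariants -/

theorem inv_zero (hQ : 0 < Q) (hm : |mr mp mn| ≤ 1) :
    Inv Q mp mn lp ln 0 0 0 0 (kN Q (gN Q mp mn 0) 0) := by
  have e : nd Q 0 = 0 := by unfold nd; simp
  refine ⟨?_, ?_, ?_, kN_ge hQ hm hQ⟩
  · rw [e, JJ_zero]; simp
  · rw [e, Th_zero]; simp
  · rw [e, Th_zero]; simp

theorem inv_succ (hQ : 0 < Q) (hm : |mr mp mn| ≤ 1) (hl : |mr lp ln| ≤ 1) {J Tl Tu ka : ℕ}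
    (hj : j + 1 < Q) (I : Inv Q mp mn lp ln j J Tl Tu ka) :
    Inv Q mp mn lp ln (j + 1)
      (J + (ka * (3 * j + 1) + kN Q (gN Q mp mn (j + 1)) (j + 1) * (3 * j + 2)))
      (Tl + tinc Q (dN Q lp ln j)) (Tu + (wN Q (dN Q mp mn j) + 1))
      (kN Q (gN Q mp mn (j + 1)) (j + 1)) := by
  have hQ' : (0 : ℝ) < Q := Nat.cast_pos.2 hQ
  have hk := kN_ge (mp := mp) (mn := mn) hQ hm hj
  have h0 := nd_nonneg Q j
  have hlt := nd_lt_succ (j := j) hQ
  have h1 := nd_lt hQ hj
  refine ⟨?_, ?_, ?_, hk⟩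
  · refine (JJ_step hm h0 hlt h1 I.ka hk).trans ?_
    have hJ := I.J
    rw [Nat.cast_add, add_div]
    refine add_le_add hJ (le_of_eq ?_)
    rw [nd_succ hQ]
    unfold nd
    push_cast
    field_simp
    ring
  · have hT := I.Tl
    rw [Nat.cast_add, add_div]
    rcases tinc_le (mp := lp) (mn := ln) hQ hl hj with h | h
    · have := Th_mono_x hl h0 hlt.le h1
      linarith
    · have := Th_step_dn hl h0 hlt.le h1
      unfold nd at this hT ⊢
      linarith
  · have hT := I.Tu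
    rw [Nat.cast_add, add_div]
    have h := (wN_le (mp := mp) (mn := mn) hQ hm hj).2
    have := Th_step_up hm h0 hlt.le h1
    unfold nd at this hT ⊢
    linarith

/-- one cell of the column -/
theorem cellOK_of (hK : 16 ≤ K) (hQ : 0 < Q) (hm : |mr mp mn| ≤ 1) (hl : |mr lp ln| ≤ 1)
    {J Tl Tu ka tla tua : ℕ} (hj : j + 1 < Q) (I : Inv Q mp mn lp ln j J Tl Tu ka)
    (htl : (tla : ℝ) ≤ K * Tl / 16) (htu : (K : ℝ) * Tu / 16 ≤ tua) {m : ℝ} (hm1 : |m| ≤ 1)
    (hle : m ≤ mr mp mn) (hge : mr lp ln ≤ m) :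
    CellOK ((K : ℝ) / 16) m Q j tla tua
      (K * (J + (ka * (3 * j + 1) + kN Q (gN Q mp mn (j + 1)) (j + 1) * (3 * j + 2))) /
        (96 * (Q * Q)) + 1)
      (K * (Tl + tinc Q (dN Q lp ln j)) / 16)
      (K * (Tu + (wN Q (dN Q mp mn j) + 1)) / 16 + 1)
      (dpK K Q mp mn j) (dnK K Q lp ln j) (pmK K Q (mN Q mp mn j)) (nodeE K lp ln (j + 1) Q) := by
  have hQ' : (0 : ℝ) < Q := Nat.cast_pos.2 hQ
  have hK' : (16 : ℝ) ≤ K := by exact_mod_cast hK
  have hK0 : (0 : ℝ) ≤ (K : ℝ) / 16 := by positivity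
  have I' := inv_succ hQ hm hl hj I
  have h0 := nd_nonneg Q j
  have hlt := nd_lt_succ (j := j) hQ
  have hb := nd_lt hQ hj
  have hba : 0 < nd Q (j + 1) - nd Q j := by linarith
  refine ⟨hj, ?_, ?_, ?_, pmK_le (by omega) hQ hm hj hm1 hle, ?_⟩
  · -- `JJ`
    have e1 := JJ_mono hm1 hm hle (nd_nonneg Q (j + 1)) hb
    have e2 := mul_le_mul_of_nonneg_left (e1.trans I'.J) hK0
    refine e2.trans ?_
    set JJb := J + (ka * (3 * j + 1) + kN Q (gN Q mp mn (j + 1)) (j + 1) * (3 * j + 2)) with hJJb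
    have e3 := real_le_div (K * JJb) (96 * (Q * Q)) (by positivity)
    refine le_trans (le_of_eq ?_) (div_le_div_of_nonneg_right e3
      (show (0 : ℝ) ≤ 1099511627776 by norm_num))
    push_cast
    field_simp
    ring
  · -- lower bound of `Th`
    intro x hx
    have hx0 : 0 ≤ x := h0.trans hx.1
    have hx1 : x < 1 := hx.2.trans_lt hb
    have ht0 : 0 ≤ (x - nd Q j) / (nd Q (j + 1) - nd Q j) :=
      div_nonneg (by linarith [hx.1]) hba.le
    have dn := Th_chord_dn (τ := (tinc Q (dN Q lp ln j) : ℝ) / 1099511627776) hl h0 hlt hb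
      hx.1 hx.2 (tinc_le (mp := lp) (mn := ln) hQ hl hj)
    have hTh := Th_mono hl hm1 hge hx0 hx1
    have hdn := dnK_ge (K := K) (lp := lp) (ln := ln) hQ hl hj
    set El := (nd Q (j + 1) - nd Q j) ^ 2 / 4 * max (mr lp ln - nd Q j) 0 /
      dd (mr lp ln) (nd Q j) (nd Q (j + 1)) ^ 2 with hEl
    have hTl := I.Tl
    have g1 : (Tl : ℝ) / 1099511627776 + (x - nd Q j) / (nd Q (j + 1) - nd Q j) *
        ((tinc Q (dN Q lp ln j) : ℝ) / 1099511627776) - El ≤ Th m x := by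
      refine le_trans ?_ (dn.trans hTh)
      linarith
    have g2 := mul_le_mul_of_nonneg_left g1 hK0
    have g3 : ch (nd Q j) (nd Q (j + 1)) ((tla : ℝ) / 1099511627776)
        (((K * (Tl + tinc Q (dN Q lp ln j)) / 16 : ℕ) : ℝ) / 1099511627776) x ≤
        ch (nd Q j) (nd Q (j + 1)) ((K : ℝ) / 16 * (Tl / 1099511627776))
          ((K : ℝ) / 16 * ((Tl : ℝ) / 1099511627776 +
            (tinc Q (dN Q lp ln j) : ℝ) / 1099511627776)) x := by
      apply ch_mono hlt hx.1 hx.2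
      · rw [div_le_iff₀ (by norm_num)]
        refine htl.trans (le_of_eq ?_)
        ring
      · rw [div_le_iff₀ (by norm_num)]
        refine (div_le_real _ _).trans (le_of_eq ?_)
        push_cast
        ring
    have g4 : ch (nd Q j) (nd Q (j + 1)) ((K : ℝ) / 16 * (Tl / 1099511627776))
          ((K : ℝ) / 16 * ((Tl : ℝ) / 1099511627776 +
            (tinc Q (dN Q lp ln j) : ℝ) / 1099511627776)) x =
        (K : ℝ) / 16 * ((Tl : ℝ) / 1099511627776 + (x - nd Q j) / (nd Q (j + 1) - nd Q j) *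
        ((tinc Q (dN Q lp ln j) : ℝ) / 1099511627776)) := by
      rw [ch_mul]
      congr 1
      unfold ch
      field_simp
      ring
    rw [g4] at g3
    linarith
  · -- upper bound of `Th`
    intro x hx
    have hx0 : 0 ≤ x := h0.trans hx.1
    have hx1 : x < 1 := hx.2.trans_lt hb
    have ht0 : 0 ≤ (x - nd Q j) / (nd Q (j + 1) - nd Q j) :=
      div_nonneg (by linarith [hx.1]) hba.le
    have up := Th_chord_up hm h0 hlt hb hx.1 hx.2
    have hw := (wN_le (mp := mp) (mn := mn) hQ hm hj).2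
    have hTh := Th_mono hm1 hm hle hx0 hx1
    have hdp := dpK_ge (K := K) (mp := mp) (mn := mn) hQ hm (show j < Q by omega)
    set Eu := (nd Q (j + 1) - nd Q j) ^ 2 / 4 * max (nd Q j - mr mp mn) 0 /
      gg (mr mp mn) (nd Q j) ^ 2 with hEu
    have hTu := I.Tu
    have g1 : Th m x ≤ (Tu : ℝ) / 1099511627776 + (x - nd Q j) / (nd Q (j + 1) - nd Q j) *
        (((wN Q (dN Q mp mn j) + 1 : ℕ) : ℝ) / 1099511627776) + Eu := by
      have := mul_le_mul_of_nonneg_left hw ht0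
      change (x - nd Q j) / (nd Q (j + 1) - nd Q j) *
        ((nd Q (j + 1) - nd Q j) / dd (mr mp mn) (nd Q j) (nd Q (j + 1))) ≤ _ at this
      linarith
    have g2 := mul_le_mul_of_nonneg_left g1 hK0
    have g3 : ch (nd Q j) (nd Q (j + 1)) ((K : ℝ) / 16 * (Tu / 1099511627776))
          ((K : ℝ) / 16 * ((Tu : ℝ) / 1099511627776 +
            ((wN Q (dN Q mp mn j) + 1 : ℕ) : ℝ) / 1099511627776)) x ≤
        ch (nd Q j) (nd Q (j + 1)) ((tua : ℝ) / 1099511627776)
        (((K * (Tu + (wN Q (dN Q mp mn j) + 1)) / 16 + 1 : ℕ) : ℝ) / 1099511627776) x := by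
      apply ch_mono hlt hx.1 hx.2
      · rw [le_div_iff₀ (by norm_num)]
        refine le_trans (le_of_eq ?_) htu
        ring
      · rw [le_div_iff₀ (by norm_num)]
        refine le_trans (le_of_eq ?_) (real_le_div _ _ (by norm_num))
        push_cast
        ring
    have g4 : ch (nd Q j) (nd Q (j + 1)) ((K : ℝ) / 16 * (Tu / 1099511627776))
          ((K : ℝ) / 16 * ((Tu : ℝ) / 1099511627776 +
            ((wN Q (dN Q mp mn j) + 1 : ℕ) : ℝ) / 1099511627776)) x =
        (K : ℝ) / 16 * ((Tu : ℝ) / 1099511627776 + (x - nd Q j) / (nd Q (j + 1) - nd Q j) *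
        (((wN Q (dN Q mp mn j) + 1 : ℕ) : ℝ) / 1099511627776)) := by
      rw [ch_mul]
      congr 1
      unfold ch
      field_simp
      ring
    rw [g4] at g3
    linarith
  · exact nodeE_ge (a := j + 1) (by omega) hQ hl hge

end nat

/-! ### the loop -/

theorem colLoop_succ (K Q mp mn lp ln n j JJ Tl Tu ka : ℕ) (k : Col → Bool) :
    colLoop K Q mp mn lp ln (n + 1) j JJ Tl Tu ka k =
      colLoop K Q mp mn lp ln n (j + 1)
        (JJ + (ka * (3 * j + 1) + kN Q (gN Q mp mn (j + 1)) (j + 1) * (3 * j + 2)))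
        (Tl + tinc Q (dN Q lp ln j)) (Tu + (wN Q (dN Q mp mn j) + 1))
        (kN Q (gN Q mp mn (j + 1)) (j + 1))
        (fun rest => k (Col.cell
          (K * (JJ + (ka * (3 * j + 1) + kN Q (gN Q mp mn (j + 1)) (j + 1) * (3 * j + 2))) /
            (96 * (Q * Q)) + 1)
          (K * (Tl + tinc Q (dN Q lp ln j)) / 16)
          (K * (Tu + (wN Q (dN Q mp mn j) + 1)) / 16 + 1)
          (dpK K Q mp mn j) (dnK K Q lp ln j) (pmK K Q (mN Q mp mn j))
          (nodeE K lp ln (j + 1) Q) rest)) := by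
  unfold colLoop
  simp only [ev_eq]
  rfl

theorem colLoop_ex (K Q mp mn lp ln : ℕ) : ∀ (n j J Tl Tu ka : ℕ), ∃ col : Col,
    (∀ k : Col → Bool, colLoop K Q mp mn lp ln n j J Tl Tu ka k = k col) ∧
    (16 ≤ K → 0 < Q → |mr mp mn| ≤ 1 → |mr lp ln| ≤ 1 → j + n < Q →
      Inv Q mp mn lp ln j J Tl Tu ka → ∀ tla tua : ℕ, (tla : ℝ) ≤ K * Tl / 16 →
      (K : ℝ) * Tu / 16 ≤ tua → ∀ m : ℝ, |m| ≤ 1 → mr lp ln ≤ m → m ≤ mr mp mn →
      ColOK ((K : ℝ) / 16) m Q col j tla tua) := by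
  intro n
  induction n with
  | zero =>
    intro j J Tl Tu ka
    exact ⟨Col.nil, fun _ => rfl, fun _ _ _ _ _ _ _ _ _ _ _ _ _ _ => trivial⟩
  | succ n ih =>
    intro j J Tl Tu ka
    obtain ⟨col, h1, h2⟩ := ih (j + 1)
      (J + (ka * (3 * j + 1) + kN Q (gN Q mp mn (j + 1)) (j + 1) * (3 * j + 2)))
      (Tl + tinc Q (dN Q lp ln j)) (Tu + (wN Q (dN Q mp mn j) + 1))
      (kN Q (gN Q mp mn (j + 1)) (j + 1))
    refine ⟨Col.cell
      (K * (J + (ka * (3 * j + 1) + kN Q (gN Q mp mn (j + 1)) (j + 1) * (3 * j + 2))) /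
        (96 * (Q * Q)) + 1)
      (K * (Tl + tinc Q (dN Q lp ln j)) / 16)
      (K * (Tu + (wN Q (dN Q mp mn j) + 1)) / 16 + 1)
      (dpK K Q mp mn j) (dnK K Q lp ln j) (pmK K Q (mN Q mp mn j))
      (nodeE K lp ln (j + 1) Q) col, fun k => ?_, ?_⟩
    · rw [colLoop_succ, h1]
    · intro hK hQ hm hl hj I tla tua htl htu m hm1 hge hle
      refine ⟨cellOK_of hK hQ hm hl (by omega) I htl htu hm1 hle hge, ?_⟩
      refine h2 hK hQ hm hl (by omega) (inv_succ hQ hm hl (by omega) I) _ _ ?_ ?_ m hm1 hge hle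
      · refine (div_le_real _ _).trans (le_of_eq ?_)
        push_cast
        ring
      · refine le_trans (le_of_eq ?_) (real_le_div _ _ (by norm_num))
        push_cast
        ring

/-- **soundness of the column** -/
theorem colK_sound {K Q mp mn lp ln J : ℕ} {k : Col → Bool}
    (h : colK K Q mp mn lp ln J k = true) :
    16 ≤ K ∧ J < Q ∧ ∃ col : Col, (∀ m : ℝ, |m| ≤ 1 → mr lp ln ≤ m → m ≤ mr mp mn →
      ColOK ((K : ℝ) / 16) m Q col 0 0 0) ∧ k col = true := by
  unfold colK at h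
  rw [bi_and, bi_and, bi_and, bi_and] at h
  obtain ⟨c1, c2, c3, c4, h⟩ := h
  rw [Nat.ble_eq] at c1 c2 c4
  rw [Nat.blt_eq] at c3
  have hQ : 0 < Q := by omega
  obtain ⟨col, h1, h2⟩ := colLoop_ex K Q mp mn lp ln J 0 0 0 0 (kN Q (gN Q mp mn 0) 0)
  rw [h1] at h
  refine ⟨c4, c3, col, fun m hm hge hle => ?_, h⟩
  have c1r : (mp : ℝ) ≤ mn + 1099511627776 := by
    have : (mp : ℝ) ≤ ((mn + 1099511627776 : ℕ) : ℝ) := by exact_mod_cast c1
    push_cast at this
    exact this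
  have c2r : (ln : ℝ) ≤ lp + 1099511627776 := by
    have : (ln : ℝ) ≤ ((lp + 1099511627776 : ℕ) : ℝ) := by exact_mod_cast c2
    push_cast at this
    exact this
  have hm' := abs_le.1 hm
  have hmh : |mr mp mn| ≤ 1 := by
    rw [abs_le]
    refine ⟨hm'.1.trans hle, ?_⟩
    unfold mr
    rw [div_le_one (by norm_num)]
    linarith
  have hml : |mr lp ln| ≤ 1 := by
    rw [abs_le]
    refine ⟨?_, hge.trans hm'.2⟩
    unfold mr
    rw [le_div_iff₀ (by norm_num)]
    linarith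
  exact h2 c4 hQ hmh hml (by omega) (inv_zero hQ hmh) 0 0 (by simp) (by simp) m hm hge hle

end Pool.Agent.Lib.MP_af3a4a_an.P1.CHK.CurveK
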