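import Pool.Agent.Lib.MP_af3a4a_an.P1.CHK.Curve.Loops

/-!
# The curve with a real exponent `K/16` (council 2, helper62; module CURVEK of helper79)

Columns (quantities which depend only on the interval of `Re μ`) and leaves (boxes of `μ`).
All numbers are naturals, scale `S = 2^40 = 1099511627776`; the grid is `j/Q`.
-/

set_option autoImplicit false
set_option maxRecDepth 100000
set_option linter.unusedVariables false

noncomputable section

namespace Pool.Agent.Lib.MP_af3a4a_an.P1.CHK.CurveK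

open Pool.Agent.Lib.MP_af3a4a_an.P1.CHK.Arith (ev)
open Pool.Agent.Lib.MP_af3a4a_an.P1.CHK.Curve (bi kN gN dN wN tinc mN)

/-- the numbers of the cells of a column -/
inductive Col where
  | nil : Col
  | cell (pj tl tu dp dn pm ee : ℕ) (rest : Col) : Col

/-- one stage: `f a` -/
abbrev sg (a : ℕ) (f : ℕ → Bool) : Bool := f a

/-! ### powers `g^(K/32)` -/

/-- starting values of the Newton iteration: `2^50 2^((L + 1/2 - 40)/32)`, 52 bits each -/
def tabR : ℕ :=
  0x4b4a169b900c349ad159789f374818ee218a336468d6fadbf2dd450a6abaa4b78438fb0cb4f468421d1461d66f240b268f9de0183f4f83033d21b3df437dcc2b453ca05dcf167ff3b53cc07b66513a0e5a940f13038cfe25cafa2937983d209783a366745709e2bf353cd6aaf3fb83418ccf6bbcad32fb053fbc9ca31e35d322aee730d1b3368925e2fc5e66d9e9cc2ebfd6ac84cf92dbf6478ca3462cc47104aa4452bcede2b5a4292ade8e6d6a4fb29f364ed3a595290d456b8279a282c1443ee5c5274fb669cb3ff26781164c82e025a50b4dc806124d68acbc4f9c240c7710c519b2346b7d6df96f2285355d525bc21c7d865a7a34210e8a30eb3792059347cef00c1fa7c1819e90e1efa1bee615a21e502ee78b3ff1da9e603db3281d072d4a078981c67f12e57d151bcc1e904bc1d1b33a2b84f160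

/-- `log2 g` for `g < 2^64` (`Nat.log2` is slow in the kernel) -/
def lg2 (g : ℕ) : ℕ :=
  ev (bi (Nat.ble 4294967296 g) 32 0) fun a => ev (Nat.shiftRight g a) fun g =>
  ev (bi (Nat.ble 65536 g) 16 0) fun b => ev (Nat.shiftRight g b) fun g =>
  ev (bi (Nat.ble 256 g) 8 0) fun c => ev (Nat.shiftRight g c) fun g =>
  ev (bi (Nat.ble 16 g) 4 0) fun d => ev (Nat.shiftRight g d) fun g =>
    Nat.add (Nat.add (Nat.add a b) (Nat.add c d))
      (bi (Nat.ble 8 g) 3 (bi (Nat.ble 4 g) 2 (bi (Nat.ble 2 g) 1 0)))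

/-- starting value for `g` -/
def y0R (g : ℕ) : ℕ :=
  Nat.add (Nat.mod (Nat.shiftRight tabR (Nat.mul 52 (lg2 g))) 4503599627370496) 1

/-- one Newton step for the 32nd root of `a` -/
def nr (a y : ℕ) : ℕ :=
  Nat.add (Nat.div (Nat.add (Nat.mul 31 y) (Nat.div a (Nat.pow y 31))) 32) 1

/-- upper bound of the 32nd root of `g 2^1560`. The product is not bound by `ev`: the kernel hashes
numbers by their last 64 bits, so that all multiples of `2^64` collide. -/
def rtU (g : ℕ) : ℕ :=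
  ev g fun g => ev (y0R g) fun y => ev (nr (Nat.mul g (Nat.pow 2 1560)) y) fun y =>
    ev (nr (Nat.mul g (Nat.pow 2 1560)) y) fun y => ev (nr (Nat.mul g (Nat.pow 2 1560)) y) fun y =>
      nr (Nat.mul g (Nat.pow 2 1560)) y

/-- upper bound of `g^(K/32)`, `y = rtU g` -/
def pwU (K y : ℕ) : ℕ :=
  Nat.add (Nat.shiftRight (Nat.pow y K) (Nat.sub (Nat.mul 50 K) 40)) 1

/-- lower bound of `g^(K/32)`, `y = rtU g` -/
def pwL (K g y : ℕ) : ℕ :=
  Nat.shiftRight (Nat.pow (Nat.div (Nat.mul g (Nat.pow 2 1560)) (Nat.pow y 31)) K)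
    (Nat.sub (Nat.mul 50 K) 40)

/-- `S gg(m, a/b)`, rounded up, `m = (lp - ln)/S` -/
def gU (lp ln a b : ℕ) : ℕ :=
  Nat.add (Nat.div (Nat.sub (Nat.add (Nat.mul 1099511627776 (Nat.add (Nat.mul b b) (Nat.mul a a)))
    (Nat.mul 2 (Nat.mul (Nat.mul a b) ln))) (Nat.mul 2 (Nat.mul (Nat.mul a b) lp)))
    (Nat.mul b b)) 1

/-- upper bound of `S gg(m, a/b)^(K/32)` -/
def nodeE (K lp ln a b : ℕ) : ℕ := pwU K (rtU (gU lp ln a b))

/-! ### the column (`K` stands for `K16`, the exponent is `K/16`) -/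

/-- correction of the chord of `K Th`, upper side -/
def dpK (K Q mp mn j : ℕ) : ℕ :=
  Nat.add (Nat.div (Nat.mul (Nat.mul K (Nat.sub (Nat.add (Nat.mul j 1099511627776)
    (Nat.mul Q mn)) (Nat.mul Q mp))) (Nat.mul 1208925819614629174706176 Q))
    (Nat.mul 64 (Nat.mul (gN Q mp mn j) (gN Q mp mn j)))) 1

/-- correction of the chord of `K Th`, lower side -/
def dnK (K Q lp ln j : ℕ) : ℕ :=
  Nat.add (Nat.div (Nat.mul (Nat.mul K (Nat.sub (Nat.mul Q lp) (Nat.add
    (Nat.mul j 1099511627776) (Nat.mul Q ln)))) (Nat.mul 1208925819614629174706176 Q))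
    (Nat.mul 64 (Nat.mul (dN Q lp ln j) (dN Q lp ln j)))) 1

/-- the mean factor of a cell: lower bound of `exp` of the mean of `(K/16) log gg / 2`; `g` = lower
bound of `gg` at the midpoint -/
def pmK (K Q g : ℕ) : ℕ :=
  bi (Nat.ble 17592186044416 (Nat.mul g (Nat.mul Q Q)))
    (Nat.shiftRight (Nat.mul (ev (rtU g) fun y => pwL K g y) (Arith.emL (Nat.add (Nat.div
      (Nat.mul K 1208925819614629174706176) (Nat.mul (Nat.mul 96 (Nat.mul Q Q)) g)) 1))) 40) 0

/-- the loop over the cells of a column; `k` receives the list of the cells -/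
def colLoop (K Q mp mn lp ln : ℕ) (n : ℕ) :
    ℕ → ℕ → ℕ → ℕ → ℕ → (Col → Bool) → Bool :=
  Nat.rec (fun _ _ _ _ _ k => k Col.nil)
    (fun _ ih j JJ Tl Tu ka k =>
      ev (kN Q (gN Q mp mn (Nat.add j 1)) (Nat.add j 1)) fun kb =>
      ev (Nat.add JJ (Nat.add (Nat.mul ka (Nat.add (Nat.mul 3 j) 1))
        (Nat.mul kb (Nat.add (Nat.mul 3 j) 2)))) fun JJb =>
      ev (Nat.add Tu (Nat.add (wN Q (dN Q mp mn j)) 1)) fun Tub =>
      ev (Nat.add Tl (tinc Q (dN Q lp ln j))) fun Tlb =>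
      ev (Nat.add (Nat.div (Nat.mul K JJb) (Nat.mul 96 (Nat.mul Q Q))) 1) fun pj =>
      ev (Nat.div (Nat.mul K Tlb) 16) fun tl =>
      ev (Nat.add (Nat.div (Nat.mul K Tub) 16) 1) fun tu =>
      ev (dpK K Q mp mn j) fun dp =>
      ev (dnK K Q lp ln j) fun dn =>
      ev (mN Q mp mn j) fun g =>
      ev (pmK K Q g) fun pm =>
      ev (nodeE K lp ln (Nat.add j 1) Q) fun ee =>
        ih (Nat.succ j) JJb Tlb Tub kb fun rest => k (Col.cell pj tl tu dp dn pm ee rest)) n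

/-- the column of `J` cells, exponent `K/16` -/
def colK (K Q mp mn lp ln J : ℕ) (k : Col → Bool) : Bool :=
  bi (Nat.ble mp (Nat.add mn 1099511627776)) (bi (Nat.ble ln (Nat.add lp 1099511627776))
    (bi (Nat.blt J Q) (bi (Nat.ble 16 K)
      (colLoop K Q mp mn lp ln J 0 0 0 0 (kN Q (gN Q mp mn 0) 0) k) false) false) false) false

/-! ### the leaf -/

/-- table for the positive cells: `sN + 1`, `cN + 1`, `lN + 1` -/
def tabP : ℕ :=
  0x4cabd7d890100021fb3ab8200fffdbe9f9e03bbab25d80100061f8efdef00ffed40044d033b04dfe601000a1f0857f000ffccc2aa4f02e5d77bc701000e1ddfc24300ff9c48997802a616af820100121bd54fc600ff5bd4d964027323db5301001618a9217800ff0b6b714a0248b8748901001a141b6a6e00feab1167ba0224652b8001001e0dec73da00fe3accc24d0204a5107c01002205dca10000fdbaa4854201e8750e14010025fbac733200fd2aa0b31501cf1fda61010029ef1c8dc700fc8aca4bf501b821a25801002ddfedba1200fbdb2b4d3b01a31788e2010031cde0eb5400fb1bceb0ca018fb58125010035b8b742ad00fa4cc0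6c5b017dbfc96a010039a032130c00f96e0d70c1016d0692c301003d8412e51800f87fc3a918015d630468010041641b7b1500f781f1f9eb014eb52010010045400dd4ce00f674a8403d0140e23c3301004917ac336f00f557f750960133d3e4d501004ceab91d6400f42bf0f5eb012777041d010050b8f7623000f2f0a7f08b011bbb3e41010054822a1e4000f1a62ff4e901109272a90100584614beb900f04c9daa6c0105f058ae01005c047b054100eee406aa1a00fbca310201005fbd210bc300ed6c817d4600f21686ce0100636fcb483000ebe6259c2300e8ccfcec0100671c3e903100ea510b6c4f00dfe6247f01006ac2401ce100e8ad4c3f4a00d75b5af501006e61958e7500e6fb0250e600cf26ade3010071fa04efe200e53a48c59c00c742c3940100758b54ba8000e36b3ba8e000bfaac758010079154bd99e00e18df7eb5c00b85a58ef01007c97b1ae1500dfa29b612600b14d7e73010080124e11d400dda944bfdd00aa80985401008384e95b5d00dba2139cc000a3f0570e010086ef4c614700d98d286ab7009d99b24601008a51407da900d76aa47849009779e12501008daa8f918a00d53aa9ed8600918e53ac010090fb04084000d2fd5bc9ea008bd4ace50100944268daca00d0b2dde22600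864abdce0100978089932200ce5b54dde80080ee80e701009ab5324f8000cbf6e6358e007bbe164301009de02fc59e00c985b82fd00076b7c0090100a1014f45e700c707f1df5b0071d9df6a0100a4185ebea700c47dbb205d006d22f1dd0100a7252cbf2800c1e73c960d0068918eb40100aa27887aca00bf449fa81c00642464ec0100ad1f41cc1300bc960e8021005fda393c0100b00c2937ac00b9dbb406f6005bb1e4510100b2ee0fef5d00b715bbe2060057aa51400100b5c4c7d4f800b44452709b0053c27c160100b890237d3c00b167a4c90e004ff970920100bb4ff632aa00ae7fe0b5fd004c4e48fb0100be0413f85000ab8d34b36b0048c02d120100c0ac518c8c00a88fcfebda00454e511f0100c348846bbe00a587e235560041f7f50d0100c5d882d2ef00a2759c0e7a003ebc63a80100c85c23c26f009f592e9b67003b9af1d80100cad33f0066009c32cba2b2003892fe010100cd3dad1b54009902a58a460035a3ef640100cf9b476c8a0095c8ef54430032cd358f0100d1ebe81a96009285dc9bc500300e47db0100d42f6a1ba0008f39a191b3002d66a4f90100d665a937b5008be472f978002ad5d27c0100d88e820b160088868625b500285b5c780100daa9d2086100852010f4f10025f6d5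240100dcb7777ac50081b149ce350023a7d47d0100deb7518815007e3a679dab00216df8030100e0a94032dc007abba1d12d001f48e2610100e28d245c590077353054cb001d383b330100e462dfc6710073a74b8f53001b3baebf0100e62a5515950070122c5ec6001952edc10100e7e367d296006c760c14c900177dad2e0100e98dfc6c6c0068d32473150015bba60a0100eb29f839f3006529afa7d600140c95300100ecb7417b8e006179e84a0a0012703b2f0100ee35bf5ccb005dc40955da0010e65c1a0100efa559f5ed005a084e28e4000f6ebf680100f105fa4d67005646f27e8c000e092fd30100f2578a5953005280326c3d000cb57b300100f399f500ca004eb44a5da8000b73725b0100f4cd261d3f004ae37710fb000a42e9150100f5f10a7bb800470df5931b000923b5ea0100f7058fde08004334033bce000815b2200100f80aa4fbf0003f55dda9e7000718b99a0100f900398434003b73c2bf6c00062caaca0100f9e63e1d9f00378df09db9000551669b0100fabca467fc0033a4a5a19e000486d0610100fb835efcf7002fb8205f760003cccdc90100fc3a6170f8002bc89f9f4300032346ce0100fce1a053e70027d66258bb00028a25a80100fd791131e30023e1a7af6000020156c40100fe00aa93eb001feaaeee87000188c8bb0100fe78640075001bf1b785690001206c420100fee035fbf40017f70103260000c8342c0100ff381a09500013facb12d2000080155c0100ff800aaa50000ffd55777700004806c20100ffb8035ff0000bfee0081a00002001570100ffe000aaaa0007ffaaabbc00000800170100fff8000aab0003fff5555e000000000201010000000001000000000001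

/-- table for the negative cells: `S²/cN + 1 - S`, `(sN+1) S/cN + 1`, `sN S/(cN+1)`, `cN + 1` -/
def tabN : ℕ :=
  0x21fb3ab827888524b57477888524b908177896226986300061f8efdef29cbb4c76c1329cbb4c7731128cec4aba6d5000a1f0857f019460ba376fc19460ba37995184b1ba95957000e1ddfc243121b61ec2335121b61ec24911122723c34de00121bd54fc60e19f6a85c380e19f6a85d0f0d23077b2c09001618a921780b8ada7d7fad0b8ada7d80400a95ec1bac86001a141b6a6e09c3f355593109c3f355599c08d106179b6b001e0dec73da0875802b880b0875802b885c0784947abcad002205dca10007752519dbcc07752519dc0d06863b6f11ce0025fbac733206aa4d3b32cb06aa4d3b330005bd661fba2a0029ef1c8dc70605b9e5aae30605b9e5ab0f051ad5f3260f002ddfedba12057d7639e279057d7639e29f0494961a59a30031cde0eb54050abaf54fae050abaf54fce0423df63463b0035b8b742ad04a8c1cc3bbc04a8c1cc3bd803c3eb92c7ed0039a032130c045414e7e1e5045414e7e1fd037144e2c693003d8412e518040a2294fd71040a2294fd87032959b0c6030041641b7b1503c8f842e35f03c8f842e37302ea377d01e10045400dd4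ce038f152071e3038f152071f502b25d875f7f004917ac336f035b4b6b0ccc035b4b6b0cdc02809e1e6c5f004ceab91d64032cab2b4e97032cab2b4ea60254095c11c30050b8f76230030273287c40030273287c4e022bde190aae0054822a1e4002dc060d8dcf02dc060d8ddc02077f11ef0000584614beb902b8e27240df02b8e27240ea01e66af04848005c047b054102989cec0ef302989cec0efe01c8365b8ab5005fbd210bc3027adb92add4027adb92adde01ac877d97e900636fcb4830025f52923b77025f52923b8101931294ed8600671c3e90310245c183ef6e0245c183ef78017b974d5942006ac2401ce1022df15ad757022df15ad7600165deacb80a006e61958e750217b2c04c8b0217b2c04c940151b96f6e780071fa04efe20202dcc5a6f00202dcc5a6f8013efeba1e8900758b54ba8001ef4bd7a21201ef4bd7a219012d8b0d0f900079154bd99e01dce0e4ded001dce0e4ded7011d3f6ab2f2007c97b1ae1501cb80ac81fb01cb80ac8202010e00a645c70080124e11d401bb132c900e01bb132c901400ffb6d22fc8008384e95b5d01ab8329972701ab8329972d00f24cc7b0830086ef4c6147019cbdcaaaa4019cbdcaaaaa00e5afc2de46008a51407da9018eb245cbeb018eb245cbf000d9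cf0f125e008daa8f918a01815199afca01815199afcf00ce9bc0b2030090fb04084001748e52734501748e52734a00c40879e6bc00944268daca01685c574fcf01685c574fd400ba09385668009780899322015cb0bfc152015cb0bfc15700b0932a4d1d009ab5324f80015181aedcb8015181aedcbd00a79c8a17af009de02fc59e0146c633d20f0146c633d214009f1c7e89f800a1014f45e7013c762ec59f013c762ec5a400970affdc2c00a4185ebea701328a39511301328a395118008f60c0307100a7252cbf280128fb921d050128fb921d090088171730eb00aa27887aca011fc40b1b77011fc40b1b7b008127f04ef900ad1f41cc130116ddfa00460116ddfa004a007a8dbb407b00b00c2937ac010e442aa4c0010e442aa4c40074435e687d00b2ee0fef5d0105f1d310d40105f1d310d8006e442ae5a300b5c4c7d4f800fde288efab00fde288efaf00688bd20c1b00b890237d3c00f612383dfa00f612383dfd0063165c19a600bb4ff632aa00ee7d1b088500ee7d1b0889005de01ff9e000be0413f85000e71fb2170800e71fb2170c0058e5bbf73700c0ac518c8c00dff6be653100dff6be65350054240f3a2b00c348846bbe00d8ff3b4fb600d8ff3b4fba004f9833fcef00c5d882d2ef00d236595f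3300d236595f36004b3f7a5d0900c85c23c26f00cb99799d8900cb99799d8c00471763b7bd00cad33f006600c52629653a00c52629653d00431d9e80ba00cd3dad1b5400beda1e9c5900beda1e9c5c003f500284af00cf9b476c8a00b8b3344ea000b8b3344ea3003bac8d8b4400d1ebe81a9600b2af679bba00b2af679bbe003831604db300d42f6a1ba000acccd4f07800acccd4f07b0034dcbbb88800d665a937b500a709b5828100a709b582840031acfe705500d88e820b1600a1645d074800a1645d074b002ea0a291f600daa9d20861009bdb37a00b009bdb37a00e002bb63ba84f00dcb7777ac500966cc7f50300966cc7f5060028ec74d1ac00deb7518815009117a57b1d009117a57b1f0026420f100d00e0a94032dc008bda7adf9a008bda7adf9c0023b5dfbfdb00e28d245c590086b40495ed0086b40495ef002146cf315d00e462dfc6710081a30f84520081a30f8455001ef3d7615d00e62a551595007ca677cc0f007ca677cc11001cbc02ce0b00e7e367d2960077bd27aaac0077bd27aaae001a9e6b657600e98dfc6c6c0072e61671c80072e61671cb00189a398b2800eb29f839f3006e2047933f006e204793420016aea332c500ecb7417b8e00696ac9bfcf00696ac9bfd10014daeb0ddb00ee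35bf5ccb0064c4b6166f0064c4b6167200131e5fcb1100efa559f5ed00602d2f62ce00602d2f62d00011785b654600f105fa4d67005ba3616991005ba3616993000fe842814100f2578a595300572680410a00572680410d000e6d83d8a700f399f500ca0052b5c7b5460052b5c7b549000d0797b14000f4cd261d3f004e507ab65d004e507ab660000bb5ff5f6100f5f10a7bb80049f5e2d02c0049f5e2d02f000a7844d2cc00f7058fde080045a54faa7e0045a54faa8000094dfa2d0b00f80aa4fbf000415e1690f000415e1690f3000836b960b500f900398434003d1f9201df003d1f9201e200073223d8da00f9e63e1d9f0038e92143a20038e92143a500063fe2281900fabca467fc0034ba27ff8e0034ba27ff9000055fa3beca00fb835efcf70030920de2250030920de2270004911ea7d500fc3a6170f8002c703e4003002c703e40060003d40f4bb700fce1a053e700285427bef600285427bef800032838396a00fd791131e300243d3c02e900243d3c02eb00028d61f4cd00fe00aa93eb00202aef5e2900202aef5e2b0002035aca4700fe78640075001c1cb884ae001c1cb884b0000189f6a75800fee035fbf40018121042010018121042030001210ef7f000ff381a095000140a71317500140a7131770000c882884700ff800aaa50001005577854001005577856000080356b1000ffb8035ff0000c024081b6000c024081b800004810e3de00ffe000aaaa000800aabbbc000800aabbbe0000200355ad00fff8000aab0004001555dd0004001555df000008003558010000000001000000000000000000000002000000000001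

/-- one positive cell, staged form -/
def pst (s0 s1 c1 phi : ℕ)
    (ih : Col → ℕ → ℕ → ℕ → ℕ → ℕ → ℕ → ℕ → ℕ → ℕ → Bool) :
    Col → ℕ → ℕ → ℕ → ℕ → ℕ → ℕ → ℕ → ℕ → ℕ → Bool :=
  fun col => Col.rec (motive := fun _ => ℕ → ℕ → ℕ → ℕ → ℕ → ℕ → ℕ → ℕ → ℕ → Bool)
    (fun _ _ _ _ _ _ _ _ _ => false)
    (fun pj tl tu dp dn pm ee rest _ Pa uL uU Ea psa Wa Xa acc st =>
    sg (Nat.add (Nat.shiftRight (Nat.mul c1 pj) 40) 1) (fun Pb => sg (Nat.shiftRight (Nat.mul s0 tl) 40) (fun uLb => sg (Nat.add (Nat.shiftRight (Nat.mul s1 tu) 40) 1) (fun uUb => sg (Nat.sub uUb phi) (fun be => sg (Nat.add (Nat.sub (Nat.sub phi uLb) be) be) (fun psb => sg (Nat.add (Nat.shiftRight (Nat.mul s1 dp) 40) (Nat.add (Nat.shiftRight (Nat.mul s0 dn) 40) 2)) (fun dd => sg (Nat.mod st 256) (fun t => sg (Nat.shiftRight tabP (Nat.mul 144 t)) (fun E => sg (Nat.sub (Nat.mul 17179869184 t) (Nat.add (Nat.shiftRight (Nat.mul Pb (Nat.mod E 281474976710656)) 40) 1)) (fun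 W => sg (Nat.mul Pb (Nat.mod (Nat.shiftRight E 48) 281474976710656)) (fun Pc => sg (Nat.add (Nat.add Pb (Nat.shiftRight Pc 40)) (Nat.mod (Nat.shiftRight E 96) 281474976710656)) (fun X => sg (Nat.add (Nat.div (Nat.add Xa X) 2) 1) (fun mm => sg (Nat.add (Nat.shiftRight mm 8) 1) (fun te => sg (Nat.mul te te) (fun te2 => sg (Nat.shiftRight (Nat.mul pm (Nat.shiftRight (Nat.pow (Nat.div (Nat.sub (Nat.add 7975367974709495237422842361682067456 (Nat.mul 3298534883328 te2)) (Nat.mul te (Nat.add 7253554917687775048237056 te2))) 7253554917687775048237056) 256) 10200)) 40) (fun v => sg (Nat.add (Nat.shiftLeft acc 128) v) (fun accb => sg (Nat.shiftRight st 8) (fun stp => (bi (Nat.ble t 100) (bi (Nat.ble Pc 1208925819614629174706176) (bi (Nat.ble (Nat.add psa dd) Wa) (bi (Nat.ble (Nat.add psb dd) W) (bi (Nat.blt v 1208925819614629174706176) (ih rest Pb uLb uUb ee psb W X accb stp) false) false) false) false) false))))))))))))))))))) col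

/-- positive cells, with the flat form of the step -/
def ploopS (s0 s1 c1 phi : ℕ) (K : ℕ)
    (fin : Col → ℕ → ℕ → ℕ → ℕ → ℕ → Bool) :
    {f : Col → ℕ → ℕ → ℕ → ℕ → ℕ → ℕ → ℕ → ℕ → ℕ → Bool //
      f = Nat.rec (fun col Pa uL uU Ea psa Wa Xa acc st => fin col Pa uL uU Ea acc) (fun _ ih => pst s0 s1 c1 phi ih) K} := by
  refine ⟨?f, ?h⟩
  case h =>
    unfold pst sg
    beta_reduce
    exact rfl

/-- positive cells -/
def ploop (s0 s1 c1 phi : ℕ) (K : ℕ)
    (fin : Col → ℕ → ℕ → ℕ → ℕ → ℕ → Bool) :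
    Col → ℕ → ℕ → ℕ → ℕ → ℕ → ℕ → ℕ → ℕ → ℕ → Bool :=
  (ploopS s0 s1 c1 phi K fin).1

theorem ploop_eq (s0 s1 c1 phi : ℕ) (K : ℕ)
    (fin : Col → ℕ → ℕ → ℕ → ℕ → ℕ → Bool) :
    ploop s0 s1 c1 phi K fin =
      Nat.rec (fun col Pa uL uU Ea psa Wa Xa acc st => fin col Pa uL uU Ea acc) (fun _ ih => pst s0 s1 c1 phi ih) K :=
  (ploopS s0 s1 c1 phi K fin).2

theorem ploop_zero (s0 s1 c1 phi : ℕ)
    (fin : Col → ℕ → ℕ → ℕ → ℕ → ℕ → Bool)
    (col : Col) (Pa uL uU Ea psa Wa Xa acc st : ℕ) :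
    ploop s0 s1 c1 phi 0 fin col Pa uL uU Ea psa Wa Xa acc st = fin col Pa uL uU Ea acc := by
  rw [ploop_eq]
  rfl

theorem ploop_succ (s0 s1 c1 phi : ℕ) (K : ℕ)
    (fin : Col → ℕ → ℕ → ℕ → ℕ → ℕ → Bool)
    (col : Col) (Pa uL uU Ea psa Wa Xa acc st : ℕ) :
    ploop s0 s1 c1 phi (K + 1) fin col Pa uL uU Ea psa Wa Xa acc st =
      pst s0 s1 c1 phi (ploop s0 s1 c1 phi K fin) col Pa uL uU Ea psa Wa Xa acc st := by
  rw [ploop_eq, ploop_eq]

theorem pst_nil (s0 s1 c1 phi : ℕ)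
    (ih : Col → ℕ → ℕ → ℕ → ℕ → ℕ → ℕ → ℕ → ℕ → ℕ → Bool)
    (Pa uL uU Ea psa Wa Xa acc st : ℕ) :
    pst s0 s1 c1 phi ih Col.nil Pa uL uU Ea psa Wa Xa acc st = false := rfl

theorem pst_cell (s0 s1 c1 phi : ℕ)
    (ih : Col → ℕ → ℕ → ℕ → ℕ → ℕ → ℕ → ℕ → ℕ → ℕ → Bool)
    (pj tl tu dp dn pm ee : ℕ) (rest : Col) (Pa uL uU Ea psa Wa Xa acc st : ℕ) :
    pst s0 s1 c1 phi ih (Col.cell pj tl tu dp dn pm ee rest) Pa uL uU Ea psa Wa Xa acc st =
      sg (Nat.add (Nat.shiftRight (Nat.mul c1 pj) 40) 1) (fun Pb => sg (Nat.shiftRight (Nat.mul s0 tl) 40) (fun uLb => sg (Nat.add (Nat.shiftRight (Nat.mul s1 tu) 40) 1) (fun uUb => sg (Nat.sub uUb phi) (fun be => sg (Nat.add (Nat.sub (Nat.sub phi uLb) be) be) (fun psb => sg (Nat.add (Nat.shiftRight (Nat.mul s1 dp) 40) (Nat.add (Nat.shiftRight (Nat.mul s0 dn) 40) 2)) (fun dd => sg (Nat.mod st 256) (fun t => sg (Nat.shiftRight tabP (Nat.mul 144 t)) (fun E => sg (Nat.sub (Nat.mul 17179869184 t) (Nat.add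 (Nat.shiftRight (Nat.mul Pb (Nat.mod E 281474976710656)) 40) 1)) (fun W => sg (Nat.mul Pb (Nat.mod (Nat.shiftRight E 48) 281474976710656)) (fun Pc => sg (Nat.add (Nat.add Pb (Nat.shiftRight Pc 40)) (Nat.mod (Nat.shiftRight E 96) 281474976710656)) (fun X => sg (Nat.add (Nat.div (Nat.add Xa X) 2) 1) (fun mm => sg (Nat.add (Nat.shiftRight mm 8) 1) (fun te => sg (Nat.mul te te) (fun te2 => sg (Nat.shiftRight (Nat.mul pm (Nat.shiftRight (Nat.pow (Nat.div (Nat.sub (Nat.add 7975367974709495237422842361682067456 (Nat.mul 3298534883328 te2)) (Nat.mul te (Nat.add 7253554917687775048237056 te2))) 7253554917687775048237056) 256) 10200)) 40) (fun v => sg (Nat.add (Nat.shiftLeft acc 128) v) (fun accb => sg (Nat.shiftRight st 8) (fun stp => (bi (Nat.ble t 100) (bi (Nat.ble Pc 1208925819614629174706176) (bi (Nat.ble (Nat.add psa dd) Wa) (bi (Nat.ble (Nat.add psb dd) W) (bi (Nat.blt v 1208925819614629174706176) (ih rest Pb uLb uUb ee psb W X accb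 stp) false) false) false) false) false)))))))))))))))))) := rfl

/-- one negative cell, staged form -/
def nst (s0 s1 c1 phi : ℕ)
    (ih : Col → ℕ → ℕ → ℕ → ℕ → ℕ → ℕ → ℕ → Bool) :
    Col → ℕ → ℕ → ℕ → ℕ → ℕ → ℕ → ℕ → Bool :=
  fun col => Col.rec (motive := fun _ => ℕ → ℕ → ℕ → ℕ → ℕ → ℕ → ℕ → Bool)
    (fun _ _ _ _ _ _ _ => false)
    (fun pj tl tu dp dn pm ee rest _ Pa uL uU Ea acc1 acc2 st =>
    sg (Nat.add (Nat.shiftRight (Nat.mul c1 pj) 40) 1) (fun Pb => sg (Nat.shiftRight (Nat.mul s0 tl) 40) (fun uLb => sg (Nat.add (Nat.shiftRight (Nat.mul s1 tu) 40) 1) (fun uUb => sg (Nat.add (Nat.shiftRight (Nat.mul s1 dp) 40) (Nat.add (Nat.shiftRight (Nat.mul s0 dn) 40) 2)) (fun dd => sg (Nat.mod st 256) (fun al => sg (Nat.mod (Nat.shiftRight st 8) 256) (fun k => sg (Nat.add phi (Nat.mul 6908435304716 k)) (fun pu => sg (Nat.add phi (Nat.mul 6908435304715 k)) (fun pl => sg (Nat.sub uU pl) (fun ba => sg (Nat.add (Nat.sub (Nat.sub pu uL)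 ba) ba) (fun ya => sg (Nat.sub uUb pl) (fun bb => sg (Nat.add (Nat.sub (Nat.sub pu uLb) bb) bb) (fun yb => sg (Nat.shiftRight tabN (Nat.mul 192 al)) (fun E => sg (Nat.mod E 281474976710656) (fun tA => sg (Nat.mod (Nat.shiftRight E 48) 281474976710656) (fun tU => sg (Nat.mod (Nat.shiftRight E 96) 281474976710656) (fun tL => sg (Nat.mod (Nat.shiftRight E 144) 281474976710656) (fun tc => sg (Nat.mul 17179869184 al) (fun aa => sg (Nat.add ya aa) (fun oa => sg (Nat.add yb aa) (fun ob => sg (Nat.add (Nat.add (Nat.shiftRight (Nat.mul Pa tA) 40) (Nat.shiftRight (Nat.mul (Nat.sub oa 3454217652357) tU) 40)) 2) (fun qa => sg (Nat.shiftRight (Nat.mul (Nat.sub 3454217652357 oa) tL) 40) (fun ra => sg (bi (Nat.ble qa ra) (Nat.add (Nat.shiftRight (Nat.pow (Nat.add (Nat.div (Nat.sub (Nat.add 35076039295941670036888435985190792471742381031424 (Nat.mul (Nat.mul (Nat.shiftRight (Nat.sub ra qa) 8) (Nat.shiftRight (Nat.sub ra qa) 8)) (Nat.add 14507109835375550096474112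 (Nat.mul (Nat.shiftRight (Nat.sub ra qa) 8) (Nat.shiftRight (Nat.sub ra qa) 8))))) (Nat.mul (Nat.mul 4398046511104 (Nat.shiftRight (Nat.sub ra qa) 8)) (Nat.add 7253554917687775048237056 (Nat.mul (Nat.shiftRight (Nat.sub ra qa) 8) (Nat.shiftRight (Nat.sub ra qa) 8))))) 31901471898837980949691369446728269824) 1) 256) 10200) 1) (bi (Nat.ble (Nat.add (Nat.shiftRight (Nat.sub qa ra) 8) 1) 1099511627776) (Nat.add (Nat.shiftRight (Nat.pow (Nat.add (Nat.div 8769009823985417509222108996297698117935595257856 (Nat.sub (Nat.add 7975367974709495237422842361682067456 (Nat.mul 3298534883328 (Nat.mul (Nat.add (Nat.shiftRight (Nat.sub qa ra) 8) 1) (Nat.add (Nat.shiftRight (Nat.sub qa ra) 8) 1)))) (Nat.mul (Nat.add (Nat.shiftRight (Nat.sub qa ra) 8) 1) (Nat.add 7253554917687775048237056 (Nat.mul (Nat.add (Nat.shiftRight (Nat.sub qa ra) 8) 1) (Nat.add (Nat.shiftRight (Nat.sub qa ra) 8) 1)))))) 1) 256) 10200) 1) (Nat.mul (Nat.pow 3 (Nat.add (Nat.shiftRight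 (Nat.sub qa ra) 40) 1)) 1099511627776))) (fun La => sg (Nat.add (Nat.add (Nat.shiftRight (Nat.mul Pb tA) 40) (Nat.shiftRight (Nat.mul (Nat.sub ob 3454217652357) tU) 40)) 2) (fun qb => sg (Nat.shiftRight (Nat.mul (Nat.sub 3454217652357 ob) tL) 40) (fun rb => sg (bi (Nat.ble qb rb) (Nat.add (Nat.shiftRight (Nat.pow (Nat.add (Nat.div (Nat.sub (Nat.add 35076039295941670036888435985190792471742381031424 (Nat.mul (Nat.mul (Nat.shiftRight (Nat.sub rb qb) 8) (Nat.shiftRight (Nat.sub rb qb) 8)) (Nat.add 14507109835375550096474112 (Nat.mul (Nat.shiftRight (Nat.sub rb qb) 8) (Nat.shiftRight (Nat.sub rb qb) 8))))) (Nat.mul (Nat.mul 4398046511104 (Nat.shiftRight (Nat.sub rb qb) 8)) (Nat.add 7253554917687775048237056 (Nat.mul (Nat.shiftRight (Nat.sub rb qb) 8) (Nat.shiftRight (Nat.sub rb qb) 8))))) 31901471898837980949691369446728269824) 1) 256) 10200) 1) (bi (Nat.ble (Nat.add (Nat.shiftRight (Nat.sub qb rb) 8) 1) 1099511627776) (Nat.add (Nat.shiftRight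 (Nat.pow (Nat.add (Nat.div 8769009823985417509222108996297698117935595257856 (Nat.sub (Nat.add 7975367974709495237422842361682067456 (Nat.mul 3298534883328 (Nat.mul (Nat.add (Nat.shiftRight (Nat.sub qb rb) 8) 1) (Nat.add (Nat.shiftRight (Nat.sub qb rb) 8) 1)))) (Nat.mul (Nat.add (Nat.shiftRight (Nat.sub qb rb) 8) 1) (Nat.add 7253554917687775048237056 (Nat.mul (Nat.add (Nat.shiftRight (Nat.sub qb rb) 8) 1) (Nat.add (Nat.shiftRight (Nat.sub qb rb) 8) 1)))))) 1) 256) 10200) 1) (Nat.mul (Nat.pow 3 (Nat.add (Nat.shiftRight (Nat.sub qb rb) 40) 1)) 1099511627776))) (fun Lb => sg (Nat.add (Nat.shiftRight (Nat.mul dd tU) 40) 1) (fun td => sg (Nat.mul Ea La) (fun uu => sg (Nat.mul ee Lb) (fun vv => sg (Nat.add (Nat.add (Nat.mul Ea Lb) (Nat.mul ee La)) (Nat.add uu vv)) (fun ww => sg (Nat.mul 13194139533312 (Nat.sub 1099511627776 td)) (fun den => sg (Nat.add (Nat.div (Nat.mul tc (Nat.add ww (Nat.mul 2 uu))) den) 1) (fun n1 => sg (Nat.add (Nat.div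 (Nat.mul tc (Nat.add ww (Nat.mul 2 vv))) den) 1) (fun n2 => sg (Nat.add (Nat.div (Nat.add (Nat.mul 2 Ea) ee) 6) 1) (fun m1 => sg (Nat.add (Nat.div (Nat.add Ea (Nat.mul 2 ee)) 6) 1) (fun m2 => sg (Nat.add (Nat.shiftLeft acc1 128) n1) (fun accn1 => sg (Nat.add (Nat.shiftLeft acc2 128) n2) (fun accn2 => sg (Nat.add (Nat.shiftLeft acc1 128) m1) (fun accm1 => sg (Nat.add (Nat.shiftLeft acc2 128) m2) (fun accm2 => sg (Nat.shiftRight st 16) (fun stp => (bi (Nat.ble al 100) (bi (Nat.blt td 1099511627776) (bi (Nat.blt n1 1208925819614629174706176) (bi (Nat.blt n2 1208925819614629174706176) (ih rest Pb uLb uUb ee accn1 accn2 stp) false) false) false) (bi (Nat.blt m1 1208925819614629174706176) (bi (Nat.blt m2 1208925819614629174706176) (ih rest Pb uLb uUb ee accm1 accm2 stp) false) false))))))))))))))))))))))))))))))))))))))))))) col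

/-- negative cells, with the flat form of the step -/
def nloopS (s0 s1 c1 phi : ℕ) (K : ℕ)
    (fin : ℕ → ℕ → Bool) :
    {f : Col → ℕ → ℕ → ℕ → ℕ → ℕ → ℕ → ℕ → Bool //
      f = Nat.rec (fun col Pa uL uU Ea acc1 acc2 st => fin acc1 acc2) (fun _ ih => nst s0 s1 c1 phi ih) K} := by
  refine ⟨?f, ?h⟩
  case h =>
    unfold nst sg
    beta_reduce
    exact rfl

/-- negative cells -/
def nloop (s0 s1 c1 phi : ℕ) (K : ℕ)
    (fin : ℕ → ℕ → Bool) :
    Col → ℕ → ℕ → ℕ → ℕ → ℕ → ℕ → ℕ → Bool :=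
  (nloopS s0 s1 c1 phi K fin).1

theorem nloop_eq (s0 s1 c1 phi : ℕ) (K : ℕ)
    (fin : ℕ → ℕ → Bool) :
    nloop s0 s1 c1 phi K fin =
      Nat.rec (fun col Pa uL uU Ea acc1 acc2 st => fin acc1 acc2) (fun _ ih => nst s0 s1 c1 phi ih) K :=
  (nloopS s0 s1 c1 phi K fin).2

theorem nloop_zero (s0 s1 c1 phi : ℕ)
    (fin : ℕ → ℕ → Bool)
    (col : Col) (Pa uL uU Ea acc1 acc2 st : ℕ) :
    nloop s0 s1 c1 phi 0 fin col Pa uL uU Ea acc1 acc2 st = fin acc1 acc2 := by
  rw [nloop_eq]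
  rfl

theorem nloop_succ (s0 s1 c1 phi : ℕ) (K : ℕ)
    (fin : ℕ → ℕ → Bool)
    (col : Col) (Pa uL uU Ea acc1 acc2 st : ℕ) :
    nloop s0 s1 c1 phi (K + 1) fin col Pa uL uU Ea acc1 acc2 st =
      nst s0 s1 c1 phi (nloop s0 s1 c1 phi K fin) col Pa uL uU Ea acc1 acc2 st := by
  rw [nloop_eq, nloop_eq]

theorem nst_nil (s0 s1 c1 phi : ℕ)
    (ih : Col → ℕ → ℕ → ℕ → ℕ → ℕ → ℕ → ℕ → Bool)
    (Pa uL uU Ea acc1 acc2 st : ℕ) :
    nst s0 s1 c1 phi ih Col.nil Pa uL uU Ea acc1 acc2 st = false := rfl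

theorem nst_cell (s0 s1 c1 phi : ℕ)
    (ih : Col → ℕ → ℕ → ℕ → ℕ → ℕ → ℕ → ℕ → Bool)
    (pj tl tu dp dn pm ee : ℕ) (rest : Col) (Pa uL uU Ea acc1 acc2 st : ℕ) :
    nst s0 s1 c1 phi ih (Col.cell pj tl tu dp dn pm ee rest) Pa uL uU Ea acc1 acc2 st =
      sg (Nat.add (Nat.shiftRight (Nat.mul c1 pj) 40) 1) (fun Pb => sg (Nat.shiftRight (Nat.mul s0 tl) 40) (fun uLb => sg (Nat.add (Nat.shiftRight (Nat.mul s1 tu) 40) 1) (fun uUb => sg (Nat.add (Nat.shiftRight (Nat.mul s1 dp) 40) (Nat.add (Nat.shiftRight (Nat.mul s0 dn) 40) 2)) (fun dd => sg (Nat.mod st 256) (fun al => sg (Nat.mod (Nat.shiftRight st 8) 256) (fun k => sg (Nat.add phi (Nat.mul 6908435304716 k)) (fun pu => sg (Nat.add phi (Nat.mul 6908435304715 k)) (fun pl => sg (Nat.sub uU pl) (fun ba => sg (Nat.add (Nat.sub (Nat.sub pu uL) ba) ba) (fun ya => sg (Nat.sub uUb pl) (fun bb => sg (Nat.add (Nat.sub (Nat.sub pu uLb) bb) bb) (fun yb => sg (Nat.shiftRight tabN (Nat.mul 192 al))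 (fun E => sg (Nat.mod E 281474976710656) (fun tA => sg (Nat.mod (Nat.shiftRight E 48) 281474976710656) (fun tU => sg (Nat.mod (Nat.shiftRight E 96) 281474976710656) (fun tL => sg (Nat.mod (Nat.shiftRight E 144) 281474976710656) (fun tc => sg (Nat.mul 17179869184 al) (fun aa => sg (Nat.add ya aa) (fun oa => sg (Nat.add yb aa) (fun ob => sg (Nat.add (Nat.add (Nat.shiftRight (Nat.mul Pa tA) 40) (Nat.shiftRight (Nat.mul (Nat.sub oa 3454217652357) tU) 40)) 2) (fun qa => sg (Nat.shiftRight (Nat.mul (Nat.sub 3454217652357 oa) tL) 40) (fun ra => sg (bi (Nat.ble qa ra) (Nat.add (Nat.shiftRight (Nat.pow (Nat.add (Nat.div (Nat.sub (Nat.add 35076039295941670036888435985190792471742381031424 (Nat.mul (Nat.mul (Nat.shiftRight (Nat.sub ra qa) 8) (Nat.shiftRight (Nat.sub ra qa) 8)) (Nat.add 14507109835375550096474112 (Nat.mul (Nat.shiftRight (Nat.sub ra qa) 8) (Nat.shiftRight (Nat.sub ra qa) 8))))) (Nat.mul (Nat.mul 4398046511104 (Nat.shiftRight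 (Nat.sub ra qa) 8)) (Nat.add 7253554917687775048237056 (Nat.mul (Nat.shiftRight (Nat.sub ra qa) 8) (Nat.shiftRight (Nat.sub ra qa) 8))))) 31901471898837980949691369446728269824) 1) 256) 10200) 1) (bi (Nat.ble (Nat.add (Nat.shiftRight (Nat.sub qa ra) 8) 1) 1099511627776) (Nat.add (Nat.shiftRight (Nat.pow (Nat.add (Nat.div 8769009823985417509222108996297698117935595257856 (Nat.sub (Nat.add 7975367974709495237422842361682067456 (Nat.mul 3298534883328 (Nat.mul (Nat.add (Nat.shiftRight (Nat.sub qa ra) 8) 1) (Nat.add (Nat.shiftRight (Nat.sub qa ra) 8) 1)))) (Nat.mul (Nat.add (Nat.shiftRight (Nat.sub qa ra) 8) 1) (Nat.add 7253554917687775048237056 (Nat.mul (Nat.add (Nat.shiftRight (Nat.sub qa ra) 8) 1) (Nat.add (Nat.shiftRight (Nat.sub qa ra) 8) 1)))))) 1) 256) 10200) 1) (Nat.mul (Nat.pow 3 (Nat.add (Nat.shiftRight (Nat.sub qa ra) 40) 1)) 1099511627776))) (fun La => sg (Nat.add (Nat.add (Nat.shiftRight (Nat.mul Pb tA) 40) (Nat.shiftRight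 (Nat.mul (Nat.sub ob 3454217652357) tU) 40)) 2) (fun qb => sg (Nat.shiftRight (Nat.mul (Nat.sub 3454217652357 ob) tL) 40) (fun rb => sg (bi (Nat.ble qb rb) (Nat.add (Nat.shiftRight (Nat.pow (Nat.add (Nat.div (Nat.sub (Nat.add 35076039295941670036888435985190792471742381031424 (Nat.mul (Nat.mul (Nat.shiftRight (Nat.sub rb qb) 8) (Nat.shiftRight (Nat.sub rb qb) 8)) (Nat.add 14507109835375550096474112 (Nat.mul (Nat.shiftRight (Nat.sub rb qb) 8) (Nat.shiftRight (Nat.sub rb qb) 8))))) (Nat.mul (Nat.mul 4398046511104 (Nat.shiftRight (Nat.sub rb qb) 8)) (Nat.add 7253554917687775048237056 (Nat.mul (Nat.shiftRight (Nat.sub rb qb) 8) (Nat.shiftRight (Nat.sub rb qb) 8))))) 31901471898837980949691369446728269824) 1) 256) 10200) 1) (bi (Nat.ble (Nat.add (Nat.shiftRight (Nat.sub qb rb) 8) 1) 1099511627776) (Nat.add (Nat.shiftRight (Nat.pow (Nat.add (Nat.div 8769009823985417509222108996297698117935595257856 (Nat.sub (Nat.add 7975367974709495237422842361682067456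 (Nat.mul 3298534883328 (Nat.mul (Nat.add (Nat.shiftRight (Nat.sub qb rb) 8) 1) (Nat.add (Nat.shiftRight (Nat.sub qb rb) 8) 1)))) (Nat.mul (Nat.add (Nat.shiftRight (Nat.sub qb rb) 8) 1) (Nat.add 7253554917687775048237056 (Nat.mul (Nat.add (Nat.shiftRight (Nat.sub qb rb) 8) 1) (Nat.add (Nat.shiftRight (Nat.sub qb rb) 8) 1)))))) 1) 256) 10200) 1) (Nat.mul (Nat.pow 3 (Nat.add (Nat.shiftRight (Nat.sub qb rb) 40) 1)) 1099511627776))) (fun Lb => sg (Nat.add (Nat.shiftRight (Nat.mul dd tU) 40) 1) (fun td => sg (Nat.mul Ea La) (fun uu => sg (Nat.mul ee Lb) (fun vv => sg (Nat.add (Nat.add (Nat.mul Ea Lb) (Nat.mul ee La)) (Nat.add uu vv)) (fun ww => sg (Nat.mul 13194139533312 (Nat.sub 1099511627776 td)) (fun den => sg (Nat.add (Nat.div (Nat.mul tc (Nat.add ww (Nat.mul 2 uu))) den) 1) (fun n1 => sg (Nat.add (Nat.div (Nat.mul tc (Nat.add ww (Nat.mul 2 vv))) den) 1) (fun n2 => sg (Nat.add (Nat.div (Nat.add (Nat.mul 2 Ea) ee) 6) 1) (fun m1 =>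 sg (Nat.add (Nat.div (Nat.add Ea (Nat.mul 2 ee)) 6) 1) (fun m2 => sg (Nat.add (Nat.shiftLeft acc1 128) n1) (fun accn1 => sg (Nat.add (Nat.shiftLeft acc2 128) n2) (fun accn2 => sg (Nat.add (Nat.shiftLeft acc1 128) m1) (fun accm1 => sg (Nat.add (Nat.shiftLeft acc2 128) m2) (fun accm2 => sg (Nat.shiftRight st 16) (fun stp => (bi (Nat.ble al 100) (bi (Nat.blt td 1099511627776) (bi (Nat.blt n1 1208925819614629174706176) (bi (Nat.blt n2 1208925819614629174706176) (ih rest Pb uLb uUb ee accn1 accn2 stp) false) false) false) (bi (Nat.blt m1 1208925819614629174706176) (bi (Nat.blt m2 1208925819614629174706176) (ih rest Pb uLb uUb ee accm1 accm2 stp) false) false)))))))))))))))))))))))))))))))))))))))))) := rfl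

/-- the leaf: `J0` positive and `J1` negative cells of the column; `k` receives the packed values
(digits of 128 bits, Horner order) -/
def leafK (s0 s1 c1 phi J0 J1 t0 st1 st2 : ℕ) (col : Col) (k : ℕ → ℕ → ℕ → Bool) : Bool :=
  bi (Nat.ble t0 100)
    (ploop s0 s1 c1 phi J0
      (fun col Pa uL uU Ea acc =>
        ev acc fun acc => nloop s0 s1 c1 phi J1
          (fun acc1 acc2 => ev acc1 fun acc1 => ev acc2 fun acc2 => k acc acc1 acc2)
          col Pa uL uU Ea 0 0 st2)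
      col 1 0 1 1099511627776 (Nat.add (Nat.sub phi (Nat.sub 1 phi)) (Nat.sub 1 phi))
      (Nat.sub (Nat.mul 17179869184 t0)
        (Nat.add (Nat.shiftRight (Nat.mod (Nat.shiftRight tabP (Nat.mul 144 t0)) 281474976710656)
          40) 1))
      (Nat.add (Nat.add 1 (Nat.shiftRight
        (Nat.mod (Nat.shiftRight tabP (Nat.add 48 (Nat.mul 144 t0))) 281474976710656) 40))
        (Nat.mod (Nat.shiftRight tabP (Nat.add 96 (Nat.mul 144 t0))) 281474976710656))
      0 st1) false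

/-- the dot product of two packed vectors: `PP = ∑ p_j X^(J-1-j)`, `WW = ∑ w_j X^j`, `X = 2^128` -/
def dotK (PP WW J : ℕ) : ℕ :=
  Nat.mod (Nat.shiftRight (Nat.mul PP WW) (Nat.mul 128 (Nat.sub J 1)))
    340282366920938463463374607431768211456

end Pool.Agent.Lib.MP_af3a4a_an.P1.CHK.CurveK
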