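import Pool.Agent.Lib.MP_af3a4a_an.P1.CHK.CurveK.Defs

/-!
# Dot products of packed vectors by one multiplication (council 2, helper62)
-/

set_option autoImplicit false

namespace Pool.Agent.Lib.MP_af3a4a_an.P1.CHK.CurveK

/-- the vector `p 0, ..., p (J - 1)` packed in base `2^128`, highest digit first -/
def hp (p : ℕ → ℕ) : ℕ → ℕ
  | 0 => 0
  | J + 1 => hp p J * 2 ^ 128 + p J

/-- the vector `w 0, ..., w (J - 1)` packed in base `2^128`, lowest digit first -/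
def wp (w : ℕ → ℕ) : ℕ → ℕ
  | 0 => 0
  | J + 1 => wp w J + w J * (2 ^ 128) ^ J

/-- the dot product -/
def dt (p w : ℕ → ℕ) : ℕ → ℕ
  | 0 => 0
  | J + 1 => dt p w J + p J * w J

theorem dt_eq (p w : ℕ → ℕ) (J : ℕ) : dt p w J = ∑ j ∈ Finset.range J, p j * w j := by
  induction J with
  | zero => rfl
  | succ J ih => rw [Finset.sum_range_succ, ← ih, dt]

theorem wp_add (w : ℕ → ℕ) (J L : ℕ) :
    wp w (J + L) = wp w J + (2 ^ 128) ^ J * wp (fun i => w (J + i)) L := by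
  induction L with
  | zero => simp [wp]
  | succ L ih =>
    rw [← Nat.add_assoc, wp, ih, wp, pow_add]
    ring

theorem wp_le {w : ℕ → ℕ} {J : ℕ} (hw : ∀ j < J, w j < 2 ^ 41) :
    wp w J * 2 ^ 128 ≤ 2 ^ 42 * (2 ^ 128) ^ J := by
  induction J with
  | zero => simp [wp]
  | succ J ih =>
    have h1 := ih fun j hj => hw j (by omega)
    have h2 : w J * ((2 ^ 128) ^ J * 2 ^ 128) ≤ 2 ^ 41 * ((2 ^ 128) ^ J * 2 ^ 128) :=
      Nat.mul_le_mul_right _ (hw J (by omega)).le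
    have h3 : (2 : ℕ) ^ 42 * (2 ^ 128) ^ J ≤ 2 ^ 41 * ((2 ^ 128) ^ J * 2 ^ 128) := by
      have : (2 : ℕ) ^ 42 ≤ 2 ^ 41 * 2 ^ 128 := by norm_num
      calc (2 : ℕ) ^ 42 * (2 ^ 128) ^ J ≤ (2 ^ 41 * 2 ^ 128) * (2 ^ 128) ^ J :=
            Nat.mul_le_mul_right _ this
        _ = _ := by ring
    calc wp w (J + 1) * 2 ^ 128 = wp w J * 2 ^ 128 + w J * ((2 ^ 128) ^ J * 2 ^ 128) := by
          rw [wp]; ring
      _ ≤ 2 ^ 41 * ((2 ^ 128) ^ J * 2 ^ 128) + 2 ^ 41 * ((2 ^ 128) ^ J * 2 ^ 128) :=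
          Nat.add_le_add (h1.trans h3) h2
      _ = 2 ^ 42 * (2 ^ 128) ^ (J + 1) := by ring

theorem kron {p w : ℕ → ℕ} {J : ℕ} (hp' : ∀ j < J, p j < 2 ^ 81) (hw : ∀ j < J, w j < 2 ^ 41) :
    ∃ A B : ℕ, hp p J * wp w J * 2 ^ 128 =
      A + dt p w J * (2 ^ 128) ^ J + B * ((2 ^ 128) ^ J * 2 ^ 128) ∧
      A * 2 ^ 5 ≤ J * (2 ^ 128) ^ J := by
  induction J with
  | zero => exact ⟨0, 0, by simp [hp, dt], by simp⟩
  | succ J ih =>
    obtain ⟨A, B, h1, h2⟩ := ih (fun j hj => hp' j (by omega)) (fun j hj => hw j (by omega))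
    refine ⟨A * 2 ^ 128 + p J * (wp w J * 2 ^ 128), B + hp p J * w J, ?_, ?_⟩
    · calc hp p (J + 1) * wp w (J + 1) * 2 ^ 128 =
          (hp p J * wp w J * 2 ^ 128) * 2 ^ 128 + p J * (wp w J * 2 ^ 128) +
            hp p J * w J * ((2 ^ 128) ^ J * 2 ^ 128 * 2 ^ 128) +
            p J * w J * ((2 ^ 128) ^ J * 2 ^ 128) := by
            rw [hp, wp]; ring
        _ = _ := by
            rw [h1, dt, pow_succ]
            ring
    · have h3 := wp_le (w := w) (J := J) fun j hj => hw j (by omega)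
      have h4 : p J * (wp w J * 2 ^ 128) * 2 ^ 5 ≤ (2 ^ 128) ^ (J + 1) := by
        calc p J * (wp w J * 2 ^ 128) * 2 ^ 5 ≤
            2 ^ 81 * (2 ^ 42 * (2 ^ 128) ^ J) * 2 ^ 5 :=
              Nat.mul_le_mul_right _ (Nat.mul_le_mul (hp' J (by omega)).le h3)
          _ ≤ 2 ^ 128 * (2 ^ 128) ^ J := by
              rw [show (2 : ℕ) ^ 81 * (2 ^ 42 * (2 ^ 128) ^ J) * 2 ^ 5 = 2 ^ 128 * (2 ^ 128) ^ J by ring]
          _ = _ := by ring
      calc (A * 2 ^ 128 + p J * (wp w J * 2 ^ 128)) * 2 ^ 5 =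
          (A * 2 ^ 5) * 2 ^ 128 + p J * (wp w J * 2 ^ 128) * 2 ^ 5 := by ring
        _ ≤ J * (2 ^ 128) ^ J * 2 ^ 128 + (2 ^ 128) ^ (J + 1) :=
            Nat.add_le_add (Nat.mul_le_mul_right _ h2) h4
        _ = _ := by ring

theorem dt_le {p w : ℕ → ℕ} {J : ℕ} (hp' : ∀ j < J, p j < 2 ^ 81) (hw : ∀ j < J, w j < 2 ^ 41) :
    dt p w J ≤ J * 2 ^ 122 := by
  induction J with
  | zero => simp [dt]
  | succ J ih =>
    have h1 := ih (fun j hj => hp' j (by omega)) (fun j hj => hw j (by omega))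
    have h2 : p J * w J ≤ 2 ^ 81 * 2 ^ 41 :=
      Nat.mul_le_mul (hp' J (by omega)).le (hw J (by omega)).le
    rw [dt]
    have : (2 : ℕ) ^ 81 * 2 ^ 41 = 2 ^ 122 := by norm_num
    rw [this] at h2
    calc dt p w J + p J * w J ≤ J * 2 ^ 122 + 2 ^ 122 := Nat.add_le_add h1 h2
      _ = _ := by ring

/-- **the dot product of two packed vectors** -/
theorem dotK_eq {p w : ℕ → ℕ} {J L : ℕ} (hJL : J ≤ L) (hJ : J ≤ 31)
    (hp' : ∀ j < J, p j < 2 ^ 81) (hw : ∀ j < J, w j < 2 ^ 41) :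
    dotK (hp p J) (wp w L) J = ∑ j ∈ Finset.range J, p j * w j := by
  rw [← dt_eq]
  obtain ⟨A, B, h1, h2⟩ := kron hp' hw
  obtain ⟨l, rfl⟩ := Nat.exists_eq_add_of_le hJL
  have hc := dt_le hp' hw
  show (hp p J * wp w (J + l)) >>> (128 * (J - 1)) % 340282366920938463463374607431768211456 = _
  rcases J with _ | J
  · simp [hp, dt]
  set R := wp (fun i => w (J + 1 + i)) l with hR
  set X : ℕ := 2 ^ 128 with hX
  have hX0 : 0 < X := by rw [hX]; positivity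
  have hXJ : 0 < X ^ (J + 1) := by positivity
  have hA : A < X ^ (J + 1) := by
    have h3 : A * 2 ^ 5 < X ^ (J + 1) * 2 ^ 5 := by
      refine h2.trans_lt ?_
      rw [Nat.mul_comm]
      exact Nat.mul_lt_mul_of_pos_left (by omega) hXJ
    exact lt_of_mul_lt_mul_right h3 (Nat.zero_le _)
  have h4 : hp p (J + 1) * wp w (J + 1 + l) * X =
      A + X ^ (J + 1) * (dt p w (J + 1) + (B + hp p (J + 1) * R) * X) := by
    rw [wp_add, ← hR]
    calc hp p (J + 1) * (wp w (J + 1) + X ^ (J + 1) * R) * X =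
        hp p (J + 1) * wp w (J + 1) * X + X ^ (J + 1) * (hp p (J + 1) * R * X) := by ring
      _ = _ := by rw [h1]; ring
  have h5 : (hp p (J + 1) * wp w (J + 1 + l)) >>> (128 * (J + 1 - 1)) =
      dt p w (J + 1) + (B + hp p (J + 1) * R) * X := by
    rw [Nat.shiftRight_eq_div_pow, pow_mul, Nat.add_sub_cancel]
    rw [← Nat.mul_div_mul_right _ _ hX0, h4]
    have : (2 ^ 128) ^ J * X = X ^ (J + 1) := (pow_succ X J).symm
    rw [this, Nat.add_mul_div_left _ _ hXJ, Nat.div_eq_of_lt hA, Nat.zero_add]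
  rw [h5]
  have e : (340282366920938463463374607431768211456 : ℕ) = X := by rw [hX]; norm_num
  rw [e, Nat.add_mul_mod_self_right, Nat.mod_eq_of_lt]
  refine hc.trans_lt ?_
  calc (J + 1) * 2 ^ 122 ≤ 31 * 2 ^ 122 := Nat.mul_le_mul_right _ hJ
    _ < X := by rw [hX]; norm_num

/-- sums of packed vectors -/
theorem hp_add (p p' : ℕ → ℕ) (J : ℕ) : hp p J + hp p' J = hp (fun j => p j + p' j) J := by
  induction J with
  | zero => rfl
  | succ J ih =>
    rw [hp, hp, hp, ← ih]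
    ring

/-- dropping the first weights -/
theorem wp_shift {w : ℕ → ℕ} {J L : ℕ} (hw : ∀ j < J, w j < 2 ^ 41) :
    wp w (J + L) >>> (128 * J) = wp (fun i => w (J + i)) L := by
  rw [wp_add, Nat.shiftRight_eq_div_pow, pow_mul, Nat.add_mul_div_left _ _ (by positivity),
    Nat.div_eq_of_lt, Nat.zero_add]
  have h := wp_le hw
  have h2 : wp w J * 2 ^ 128 < (2 ^ 128) ^ J * 2 ^ 128 := by
    refine h.trans_lt ?_
    rw [Nat.mul_comm]
    exact Nat.mul_lt_mul_of_pos_left (by norm_num) (by positivity)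
  exact lt_of_mul_lt_mul_right h2 (Nat.zero_le _)

end Pool.Agent.Lib.MP_af3a4a_an.P1.CHK.CurveK
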