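import Pool.Agent.Lib.MP_af3a4a_an.P1.CHK.CurveK.Tabs
import Pool.Agent.Lib.MP_af3a4a_an.P1.CHK.CurveK.Kron
import Pool.Agent.Lib.MP_af3a4a_an.P1.CHK.Curve.Loops

/-!
# The curve with a real exponent: one step of the two loops (council 2, helper62)
-/

set_option autoImplicit false
set_option linter.unusedVariables false

namespace Pool.Agent.Lib.MP_af3a4a_an.P1.CHK.CurveK

open Pool.Agent.Lib.MP_af3a4a_an.P1.CHK.Arith
open Pool.Agent.Lib.MP_af3a4a_an.P1.CHK.Curve (sN cN lN WN XN LN tdN WN_def XN_def LN_def tdN_def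
  bi bi_and bi_true bi_false bi_eq)

theorem sg_elim {a : ℕ} {f : ℕ → Bool} (h : sg a f = true) : ∃ x, x = a ∧ f x = true :=
  ⟨a, rfl, h⟩

/-- upper bound of `P` at a node -/
def Pn (c1 pj : ℕ) : ℕ := (c1 * pj) >>> 40 + 1
/-- lower bound of the phase at a node -/
def uLn (s0 tl : ℕ) : ℕ := (s0 * tl) >>> 40
/-- upper bound of the phase at a node -/
def uUn (s1 tu : ℕ) : ℕ := (s1 * tu) >>> 40 + 1
/-- bound of the modulus of the rotated phase -/
def psn (pu pl uL uU : ℕ) : ℕ := pu - uL - (uU - pl) + (uU - pl)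
/-- correction of the chords -/
def ddn (s0 s1 dp dn : ℕ) : ℕ := (s1 * dp) >>> 40 + ((s0 * dn) >>> 40 + 2)

theorem emL_def' (m : ℕ) : emL m = (((7975367974709495237422842361682067456 + 3298534883328 *
    ((m >>> 8 + 1) * (m >>> 8 + 1))) - (m >>> 8 + 1) * (7253554917687775048237056 +
    (m >>> 8 + 1) * (m >>> 8 + 1))) / 7253554917687775048237056) ^ 256 >>> 10200 := by
  unfold emL
  simp only [ev_eq]

theorem em_def' (m : ℕ) : Arith.em m = ((((35076039295941670036888435985190792471742381031424 +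
    (m >>> 8 * (m >>> 8)) * (14507109835375550096474112 + (m >>> 8 * (m >>> 8)))) -
    (4398046511104 * (m >>> 8)) * (7253554917687775048237056 + (m >>> 8 * (m >>> 8)))) /
    31901471898837980949691369446728269824 + 1) ^ 256) >>> 10200 + 1 := by
  unfold Arith.em
  simp only [ev_eq]

theorem ep_def' (p : ℕ) : ep p = bi (Nat.ble (p >>> 8 + 1) 1099511627776)
    ((((8769009823985417509222108996297698117935595257856 /
      ((7975367974709495237422842361682067456 + 3298534883328 * ((p >>> 8 + 1) * (p >>> 8 + 1))) -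
        ((p >>> 8 + 1) * (7253554917687775048237056 + (p >>> 8 + 1) * (p >>> 8 + 1))))) + 1) ^ 256)
        >>> 10200 + 1)
    ((3 ^ (p >>> 40 + 1)) * 1099511627776) := by
  unfold ep
  simp only [ev_eq]
  rw [bi_eq]

theorem es_def' (p m : ℕ) : es p m = bi (Nat.ble p m) (Arith.em (m - p)) (ep (p - m)) := by
  unfold es
  rw [bi_eq]

theorem pst_elim {s0 s1 c1 phi : ℕ}
    {ih : Col → ℕ → ℕ → ℕ → ℕ → ℕ → ℕ → ℕ → ℕ → ℕ → Bool}
    {pj tl tu dp dn pm ee : ℕ} {rest : Col} {Pa uL uU Ea psa Wa Xa acc st : ℕ}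
    (h : pst s0 s1 c1 phi ih (Col.cell pj tl tu dp dn pm ee rest) Pa uL uU Ea psa Wa Xa acc st = true) :
    st % 256 ≤ 100 ∧
    Pn c1 pj * (cN (st % 256) + 1) ≤ 1099511627776 * 1099511627776 ∧
    psa + ddn s0 s1 dp dn ≤ Wa ∧
    psn phi phi (uLn s0 tl) (uUn s1 tu) + ddn s0 s1 dp dn ≤ WN (Pn c1 pj) (st % 256) ∧
    ∃ v : ℕ, v = (pm * emL ((Xa + XN (Pn c1 pj) (st % 256)) / 2 + 1)) >>> 40 ∧ v < 2 ^ 80 ∧
    ih rest (Pn c1 pj) (uLn s0 tl) (uUn s1 tu) ee (psn phi phi (uLn s0 tl) (uUn s1 tu))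
      (WN (Pn c1 pj) (st % 256)) (XN (Pn c1 pj) (st % 256)) (acc * 2 ^ 128 + v)
      (st >>> 8) = true := by
  rw [pst_cell] at h
  obtain ⟨Pb, zPb, h⟩ := sg_elim h
  change Pb = (((c1 * pj) >>> 40) + 1) at zPb
  obtain ⟨uLb, zuLb, h⟩ := sg_elim h
  change uLb = ((s0 * tl) >>> 40) at zuLb
  obtain ⟨uUb, zuUb, h⟩ := sg_elim h
  change uUb = (((s1 * tu) >>> 40) + 1) at zuUb
  obtain ⟨be, zbe, h⟩ := sg_elim h
  change be = (uUb - phi) at zbe
  obtain ⟨psb, zpsb, h⟩ := sg_elim h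
  change psb = (((phi - uLb) - be) + be) at zpsb
  obtain ⟨dd, zdd, h⟩ := sg_elim h
  change dd = (((s1 * dp) >>> 40) + (((s0 * dn) >>> 40) + 2)) at zdd
  obtain ⟨t, zt, h⟩ := sg_elim h
  change t = (st % 256) at zt
  obtain ⟨E, zE, h⟩ := sg_elim h
  change E = (tabP >>> (144 * t)) at zE
  obtain ⟨W, zW, h⟩ := sg_elim h
  change W = ((17179869184 * t) - (((Pb * (E % 281474976710656)) >>> 40) + 1)) at zW
  obtain ⟨Pc, zPc, h⟩ := sg_elim h
  change Pc = (Pb * ((E >>> 48) % 281474976710656)) at zPc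
  obtain ⟨X, zX, h⟩ := sg_elim h
  change X = ((Pb + (Pc >>> 40)) + ((E >>> 96) % 281474976710656)) at zX
  obtain ⟨mm, zmm, h⟩ := sg_elim h
  change mm = (((Xa + X) / 2) + 1) at zmm
  obtain ⟨te, zte, h⟩ := sg_elim h
  change te = ((mm >>> 8) + 1) at zte
  obtain ⟨te2, zte2, h⟩ := sg_elim h
  change te2 = (te * te) at zte2
  obtain ⟨v, zv, h⟩ := sg_elim h
  change v = ((pm * (((((7975367974709495237422842361682067456 + (3298534883328 * te2)) - (te * (7253554917687775048237056 + te2))) / 7253554917687775048237056) ^ 256) >>> 10200)) >>> 40) at zv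
  obtain ⟨accb, zaccb, h⟩ := sg_elim h
  change accb = ((acc <<< 128) + v) at zaccb
  obtain ⟨stp, zstp, h⟩ := sg_elim h
  change stp = (st >>> 8) at zstp
  rw [bi_and, bi_and, bi_and, bi_and, bi_and] at h
  obtain ⟨ht, hc, hWa, hWb, hv, hr⟩ := h
  rw [Nat.ble_eq] at ht hc hWa hWb
  rw [Nat.blt_eq] at hv
  obtain ⟨t1, t2, t3, -⟩ := tabs_spec (t := t) ht
  rw [← zE] at t1 t2 t3
  rw [t1] at zW
  rw [t2] at zPc
  rw [t3] at zX
  have hW : W = WN Pb t := by
    rw [zW, WN_def, Nat.mul_comm t]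
  have hX : X = XN Pb t := by
    rw [zX, zPc, XN_def]
    have e : Pb * (1099511627776 + (cN t + 1)) = Pb * (cN t + 1) + 1099511627776 * Pb := by ring
    rw [e, Nat.shiftRight_eq_div_pow, Nat.shiftRight_eq_div_pow,
      show (2 : ℕ) ^ 40 = 1099511627776 by norm_num, Nat.add_mul_div_left _ _ (by norm_num)]
    omega
  have hps : psb = psn phi phi uLb uUb := by rw [zpsb, zbe]; rfl
  have hPb : Pn c1 pj = Pb := zPb.symm
  have huL : uLn s0 tl = uLb := zuLb.symm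
  have huU : uUn s1 tu = uUb := zuUb.symm
  have hdd : ddn s0 s1 dp dn = dd := zdd.symm
  rw [zPc] at hc
  rw [hps, hW] at hWb
  rw [← zt, hPb, huL, huU, hdd]
  refine ⟨ht, hc, hWa, hWb, v, ?_, hv, ?_⟩
  · rw [emL_def', ← hX, zv, zte2, zte, zmm]
  · rw [← hW, ← hX, ← hps]
    have e1 : acc * 2 ^ 128 + v = accb := by rw [zaccb, Nat.shiftLeft_eq]
    rw [e1, ← zstp]
    exact hr

/-- the two moments of a negative cell -/
def n1n (Ea La Eb Lb td al : ℕ) : ℕ :=
  ((cN al + 1) * (((Ea * Lb) + (Eb * La)) + ((Ea * La) + (Eb * Lb)) + 2 * (Ea * La))) /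
    (13194139533312 * (1099511627776 - td)) + 1
/-- the second moment -/
def n2n (Ea La Eb Lb td al : ℕ) : ℕ :=
  ((cN al + 1) * (((Ea * Lb) + (Eb * La)) + ((Ea * La) + (Eb * Lb)) + 2 * (Eb * Lb))) /
    (13194139533312 * (1099511627776 - td)) + 1

set_option maxHeartbeats 4000000 in
theorem nst_elim {s0 s1 c1 phi : ℕ}
    {ih : Col → ℕ → ℕ → ℕ → ℕ → ℕ → ℕ → ℕ → Bool}
    {pj tl tu dp dn pm ee : ℕ} {rest : Col} {Pa uL uU Ea acc1 acc2 st : ℕ}
    (h : nst s0 s1 c1 phi ih (Col.cell pj tl tu dp dn pm ee rest) Pa uL uU Ea acc1 acc2 st = true) :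
    ∃ v₁ v₂ : ℕ, v₁ < 2 ^ 80 ∧ v₂ < 2 ^ 80 ∧
    ((∃ al k : ℕ, al ≤ 100 ∧ tdN (ddn s0 s1 dp dn) al < 1099511627776 ∧
      v₁ = n1n Ea (LN Pa (psn (phi + 6908435304716 * k) (phi + 6908435304715 * k) uL uU) al)
        ee (LN (Pn c1 pj) (psn (phi + 6908435304716 * k) (phi + 6908435304715 * k)
          (uLn s0 tl) (uUn s1 tu)) al) (tdN (ddn s0 s1 dp dn) al) al ∧
      v₂ = n2n Ea (LN Pa (psn (phi + 6908435304716 * k) (phi + 6908435304715 * k) uL uU) al)
        ee (LN (Pn c1 pj) (psn (phi + 6908435304716 * k) (phi + 6908435304715 * k)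
          (uLn s0 tl) (uUn s1 tu)) al) (tdN (ddn s0 s1 dp dn) al) al) ∨
      (v₁ = (2 * Ea + ee) / 6 + 1 ∧ v₂ = (Ea + 2 * ee) / 6 + 1)) ∧
    ∃ st' : ℕ, ih rest (Pn c1 pj) (uLn s0 tl) (uUn s1 tu) ee (acc1 * 2 ^ 128 + v₁)
      (acc2 * 2 ^ 128 + v₂) st' = true := by
  rw [nst_cell] at h
  obtain ⟨Pb, zPb, h⟩ := sg_elim h
  change Pb = (((c1 * pj) >>> 40) + 1) at zPb
  obtain ⟨uLb, zuLb, h⟩ := sg_elim h
  change uLb = ((s0 * tl) >>> 40) at zuLb
  obtain ⟨uUb, zuUb, h⟩ := sg_elim h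
  change uUb = (((s1 * tu) >>> 40) + 1) at zuUb
  obtain ⟨dd, zdd, h⟩ := sg_elim h
  change dd = (((s1 * dp) >>> 40) + (((s0 * dn) >>> 40) + 2)) at zdd
  obtain ⟨al, zal, h⟩ := sg_elim h
  change al = (st % 256) at zal
  obtain ⟨k, zk, h⟩ := sg_elim h
  change k = ((st >>> 8) % 256) at zk
  obtain ⟨pu, zpu, h⟩ := sg_elim h
  change pu = (phi + (6908435304716 * k)) at zpu
  obtain ⟨pl, zpl, h⟩ := sg_elim h
  change pl = (phi + (6908435304715 * k)) at zpl
  obtain ⟨ba, zba, h⟩ := sg_elim h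
  change ba = (uU - pl) at zba
  obtain ⟨ya, zya, h⟩ := sg_elim h
  change ya = (((pu - uL) - ba) + ba) at zya
  obtain ⟨bb, zbb, h⟩ := sg_elim h
  change bb = (uUb - pl) at zbb
  obtain ⟨yb, zyb, h⟩ := sg_elim h
  change yb = (((pu - uLb) - bb) + bb) at zyb
  obtain ⟨E, zE, h⟩ := sg_elim h
  change E = (tabN >>> (192 * al)) at zE
  obtain ⟨tA, ztA, h⟩ := sg_elim h
  change tA = (E % 281474976710656) at ztA
  obtain ⟨tU, ztU, h⟩ := sg_elim h
  change tU = ((E >>> 48) % 281474976710656) at ztU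
  obtain ⟨tL, ztL, h⟩ := sg_elim h
  change tL = ((E >>> 96) % 281474976710656) at ztL
  obtain ⟨tc, ztc, h⟩ := sg_elim h
  change tc = ((E >>> 144) % 281474976710656) at ztc
  obtain ⟨aa, zaa, h⟩ := sg_elim h
  change aa = (17179869184 * al) at zaa
  obtain ⟨oa, zoa, h⟩ := sg_elim h
  change oa = (ya + aa) at zoa
  obtain ⟨ob, zob, h⟩ := sg_elim h
  change ob = (yb + aa) at zob
  obtain ⟨qa, zqa, h⟩ := sg_elim h
  change qa = ((((Pa * tA) >>> 40) + (((oa - 3454217652357) * tU) >>> 40)) + 2) at zqa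
  obtain ⟨ra, zra, h⟩ := sg_elim h
  change ra = (((3454217652357 - oa) * tL) >>> 40) at zra
  obtain ⟨La, zLa, h⟩ := sg_elim h
  change La = (bi (Nat.ble qa ra) (((((((35076039295941670036888435985190792471742381031424 + ((((ra - qa) >>> 8) * ((ra - qa) >>> 8)) * (14507109835375550096474112 + (((ra - qa) >>> 8) * ((ra - qa) >>> 8))))) - ((4398046511104 * ((ra - qa) >>> 8)) * (7253554917687775048237056 + (((ra - qa) >>> 8) * ((ra - qa) >>> 8))))) / 31901471898837980949691369446728269824) + 1) ^ 256) >>> 10200) + 1) (bi (Nat.ble (((qa - ra) >>> 8) + 1) 1099511627776) (((((8769009823985417509222108996297698117935595257856 / ((7975367974709495237422842361682067456 + (3298534883328 * ((((qa - ra) >>> 8) + 1) * (((qa - ra) >>> 8) + 1)))) - ((((qa - ra) >>> 8) + 1) * (7253554917687775048237056 + ((((qa - ra) >>> 8) + 1) * (((qa - ra) >>> 8) + 1)))))) + 1) ^ 256) >>> 10200) + 1) ((3 ^ (((qa - ra) >>> 40) + 1)) * 1099511627776)))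 at zLa
  obtain ⟨qb, zqb, h⟩ := sg_elim h
  change qb = ((((Pb * tA) >>> 40) + (((ob - 3454217652357) * tU) >>> 40)) + 2) at zqb
  obtain ⟨rb, zrb, h⟩ := sg_elim h
  change rb = (((3454217652357 - ob) * tL) >>> 40) at zrb
  obtain ⟨Lb, zLb, h⟩ := sg_elim h
  change Lb = (bi (Nat.ble qb rb) (((((((35076039295941670036888435985190792471742381031424 + ((((rb - qb) >>> 8) * ((rb - qb) >>> 8)) * (14507109835375550096474112 + (((rb - qb) >>> 8) * ((rb - qb) >>> 8))))) - ((4398046511104 * ((rb - qb) >>> 8)) * (7253554917687775048237056 + (((rb - qb) >>> 8) * ((rb - qb) >>> 8))))) / 31901471898837980949691369446728269824) + 1) ^ 256) >>> 10200) + 1) (bi (Nat.ble (((qb - rb) >>> 8) + 1) 1099511627776) (((((8769009823985417509222108996297698117935595257856 / ((7975367974709495237422842361682067456 + (3298534883328 * ((((qb - rb) >>> 8) + 1) * (((qb - rb) >>> 8) + 1)))) - ((((qb - rb) >>> 8) + 1) * (7253554917687775048237056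 + ((((qb - rb) >>> 8) + 1) * (((qb - rb) >>> 8) + 1)))))) + 1) ^ 256) >>> 10200) + 1) ((3 ^ (((qb - rb) >>> 40) + 1)) * 1099511627776))) at zLb
  obtain ⟨td, ztd, h⟩ := sg_elim h
  change td = (((dd * tU) >>> 40) + 1) at ztd
  obtain ⟨uu, zuu, h⟩ := sg_elim h
  change uu = (Ea * La) at zuu
  obtain ⟨vv, zvv, h⟩ := sg_elim h
  change vv = (ee * Lb) at zvv
  obtain ⟨ww, zww, h⟩ := sg_elim h
  change ww = (((Ea * Lb) + (ee * La)) + (uu + vv)) at zww
  obtain ⟨den, zden, h⟩ := sg_elim h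
  change den = (13194139533312 * (1099511627776 - td)) at zden
  obtain ⟨n1, zn1, h⟩ := sg_elim h
  change n1 = (((tc * (ww + (2 * uu))) / den) + 1) at zn1
  obtain ⟨n2, zn2, h⟩ := sg_elim h
  change n2 = (((tc * (ww + (2 * vv))) / den) + 1) at zn2
  obtain ⟨m1, zm1, h⟩ := sg_elim h
  change m1 = ((((2 * Ea) + ee) / 6) + 1) at zm1
  obtain ⟨m2, zm2, h⟩ := sg_elim h
  change m2 = (((Ea + (2 * ee)) / 6) + 1) at zm2
  obtain ⟨accn1, zaccn1, h⟩ := sg_elim h
  change accn1 = ((acc1 <<< 128) + n1) at zaccn1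
  obtain ⟨accn2, zaccn2, h⟩ := sg_elim h
  change accn2 = ((acc2 <<< 128) + n2) at zaccn2
  obtain ⟨accm1, zaccm1, h⟩ := sg_elim h
  change accm1 = ((acc1 <<< 128) + m1) at zaccm1
  obtain ⟨accm2, zaccm2, h⟩ := sg_elim h
  change accm2 = ((acc2 <<< 128) + m2) at zaccm2
  obtain ⟨stp, zstp, h⟩ := sg_elim h
  change stp = (st >>> 16) at zstp
  have hPb : Pn c1 pj = Pb := zPb.symm
  have huL : uLn s0 tl = uLb := zuLb.symm
  have huU : uUn s1 tu = uUb := zuUb.symm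
  have hdd : ddn s0 s1 dp dn = dd := zdd.symm
  rw [hPb, huL, huU, hdd]
  rcases Bool.eq_false_or_eq_true (Nat.ble al 100) with hb | hb
  · rw [hb, bi_true, bi_and, bi_and, bi_and] at h
    obtain ⟨h1, h2, h3, h4⟩ := h
    rw [Nat.blt_eq] at h1 h2 h3
    rw [Nat.ble_eq] at hb
    obtain ⟨-, -, -, t1, t2, t3, t4⟩ := tabs_spec (t := al) hb
    rw [← zE] at t1 t2 t3 t4
    rw [t1] at ztA
    rw [t2] at ztU
    rw [t3] at ztL
    rw [t4] at ztc
    have htd : td = tdN dd al := by rw [ztd, ztU, tdN_def]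
    have hya : ya = psn pu pl uL uU := by rw [zya, zba]; rfl
    have hyb : yb = psn pu pl uLb uUb := by rw [zyb, zbb]; rfl
    have hqa : qa = (Pa * (1099511627776 * 1099511627776 / cN al + 1 - 1099511627776)) >>> 40 +
        1 + ((ya + al * 17179869184 - 3454217652357) *
          ((sN al + 1) * 1099511627776 / cN al + 1)) >>> 40 + 1 := by
      rw [zqa, zoa, zaa, ztA, ztU, Nat.mul_comm al]
      ring
    have hra : ra = ((3454217652357 - (ya + al * 17179869184)) *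
        (sN al * 1099511627776 / (cN al + 1))) >>> 40 := by
      rw [zra, zoa, zaa, ztL, Nat.mul_comm al]
    have hqb : qb = (Pb * (1099511627776 * 1099511627776 / cN al + 1 - 1099511627776)) >>> 40 +
        1 + ((yb + al * 17179869184 - 3454217652357) *
          ((sN al + 1) * 1099511627776 / cN al + 1)) >>> 40 + 1 := by
      rw [zqb, zob, zaa, ztA, ztU, Nat.mul_comm al]
      ring
    have hrb : rb = ((3454217652357 - (yb + al * 17179869184)) *
        (sN al * 1099511627776 / (cN al + 1))) >>> 40 := by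
      rw [zrb, zob, zaa, ztL, Nat.mul_comm al]
    have hLa : La = LN Pa ya al := by
      rw [LN_def, ← hqa, ← hra, es_def', em_def', ep_def', zLa]
    have hLb : Lb = LN Pb yb al := by
      rw [LN_def, ← hqb, ← hrb, es_def', em_def', ep_def', zLb]
    have e1 : acc1 * 2 ^ 128 + n1 = accn1 := by rw [zaccn1, Nat.shiftLeft_eq]
    have e2 : acc2 * 2 ^ 128 + n2 = accn2 := by rw [zaccn2, Nat.shiftLeft_eq]
    refine ⟨n1, n2, h2, h3, Or.inl ⟨al, k, hb, ?_, ?_, ?_⟩, stp, ?_⟩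
    · rw [← htd]
      exact h1
    · rw [← zpu, ← zpl, ← hya, ← hyb, ← hLa, ← hLb, ← htd]
      rw [zn1, ztc, zden, zww, zuu, zvv]
      rfl
    · rw [← zpu, ← zpl, ← hya, ← hyb, ← hLa, ← hLb, ← htd]
      rw [zn2, ztc, zden, zww, zuu, zvv]
      rfl
    · rw [e1, e2]
      exact h4
  · rw [hb, bi_false, bi_and, bi_and] at h
    obtain ⟨h1, h2, h3⟩ := h
    rw [Nat.blt_eq] at h1 h2
    have e1 : acc1 * 2 ^ 128 + m1 = accm1 := by rw [zaccm1, Nat.shiftLeft_eq]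
    have e2 : acc2 * 2 ^ 128 + m2 = accm2 := by rw [zaccm2, Nat.shiftLeft_eq]
    refine ⟨m1, m2, h1, h2, Or.inr ⟨zm1, zm2⟩, stp, ?_⟩
    rw [e1, e2]
    exact h3

end Pool.Agent.Lib.MP_af3a4a_an.P1.CHK.CurveK
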