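import Pool.Agent.Lib.MP_af3a4a_an.P1.CHK.CurveK.Column
import Pool.Agent.Lib.MP_af3a4a_an.P1.CHK.CurveK.Steps

/-!
# The curve with a real exponent: soundness of the leaf (council 2, helper62)
-/

set_option autoImplicit false

namespace Pool.Agent.Lib.MP_af3a4a_an.P1.CHK.CurveK

open MeasureTheory intervalIntegral
open Pool.Agent.Lib.MP_af3a4a_an.P1.CHK.Arith
open Pool.Agent.Lib.MP_af3a4a_an.P1.CHK.H80 (gg JJ Th gg_pos gg_cont)
open Pool.Agent.Lib.MP_af3a4a_an.P1.CHK.Curve (mr c40 nd nd_nonneg nd_lt nd_succ nd_lt_succ ch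
  ch_mono ch_mul ch_add_const JJ_zero Th_zero Th_mono_x JJ_convex ch_le_convex JJ_nonneg
  cos_bd sin_bd th_lt WN XN LN tdN WN_le XN_ge LN_ge tdN_ge K_ge pi2_low pi2_upp sN cN lN
  bi bi_and cN_lt WN_def XN_def)
open Pool.Agent.Lib.MP_af3a4a_an.P1.H32 (RepR)

/-- the hypotheses on the box -/
structure LCtx (K : ℝ) (μ : ℂ) (q : ℝ → ℂ) (Q s0 s1 c1 : ℕ) : Prop where
  q0 : 0 < Q
  k1 : 1 ≤ K
  rep : RepR K μ q
  i1 : (s0 : ℝ) / 1099511627776 ≤ μ.im
  i2 : μ.im ≤ (s1 : ℝ) / 1099511627776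
  c : 1 - ‖μ‖ ^ 2 ≤ (c1 : ℝ) / 1099511627776

/-- the numbers of a node -/
structure Node (K : ℝ) (μ : ℂ) (Q s0 s1 j tl tu P uL uU E : ℕ) : Prop where
  P : K * (1 - ‖μ‖ ^ 2) * JJ μ.re (nd Q j) ≤ (P : ℝ) / 1099511627776
  L : (uL : ℝ) ≤ s0 * tl / 1099511627776
  U : (s1 : ℝ) * tu / 1099511627776 ≤ uU
  E : EK K μ.re (nd Q j) ≤ (E : ℝ) / 1099511627776

section leaf

variable {K : ℝ} {μ : ℂ} {q : ℝ → ℂ} {Q s0 s1 c1 : ℕ}

theorem LCtx.m1 (H : LCtx K μ q Q s0 s1 c1) : |μ.re| ≤ 1 :=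
  (Complex.abs_re_le_norm _).trans H.rep.m_le

theorem LCtx.rr (H : LCtx K μ q Q s0 s1 c1) : 0 ≤ 1 - ‖μ‖ ^ 2 := by
  have := pow_le_one₀ (n := 2) (norm_nonneg _) H.rep.m_le
  linarith

theorem LCtx.k0 (H : LCtx K μ q Q s0 s1 c1) : 0 ≤ K := by linarith [H.k1]

theorem Node_zero (K : ℝ) (μ : ℂ) (Q s0 s1 : ℕ) :
    Node K μ Q s0 s1 0 0 0 1 0 1 1099511627776 := by
  have e : nd Q 0 = 0 := by unfold nd; simp
  refine ⟨?_, by simp, by simp, ?_⟩
  · rw [e, JJ_zero, mul_zero]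
    positivity
  · rw [e]
    unfold EK gg
    simp

theorem Node_succ (H : LCtx K μ q Q s0 s1 c1) {j tla tua pj tl tu dp dn pm ee : ℕ}
    (C : CellOK K μ.re Q j tla tua pj tl tu dp dn pm ee) :
    Node K μ Q s0 s1 (j + 1) tl tu (Pn c1 pj) (uLn s0 tl) (uUn s1 tu) ee := by
  refine ⟨?_, ?_, ?_, C.ee⟩
  · have h1 := le_shr (c1 * pj) 40
    rw [c40] at h1
    have h2 : K * (1 - ‖μ‖ ^ 2) * JJ μ.re (nd Q (j + 1)) ≤
        (c1 : ℝ) / 1099511627776 * ((pj : ℝ) / 1099511627776) := by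
      have e : K * (1 - ‖μ‖ ^ 2) * JJ μ.re (nd Q (j + 1)) =
          (1 - ‖μ‖ ^ 2) * (K * JJ μ.re (nd Q (j + 1))) := by ring
      rw [e]
      have hJ := JJ_nonneg H.m1 (nd_nonneg Q (j + 1)) (nd_lt H.q0 C.lt)
      exact mul_le_mul H.c C.J (mul_nonneg H.k0 hJ) (by positivity)
    refine h2.trans ?_
    unfold Pn
    refine le_trans (le_of_eq ?_) (div_le_div_of_nonneg_right h1
      (show (0 : ℝ) ≤ 1099511627776 by norm_num))
    push_cast
    ring
  · have h1 := shr_le (s0 * tl) 40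
    rw [c40] at h1
    unfold uLn
    push_cast at h1
    exact h1
  · have h1 := le_shr (s1 * tu) 40
    rw [c40] at h1
    unfold uUn
    push_cast at h1 ⊢
    exact h1

theorem P_cell (H : LCtx K μ q Q s0 s1 c1) {j tla tua Pa uLa uUa Ea tl tu Pb uLb uUb Eb : ℕ}
    (hj : j + 1 < Q) (A : Node K μ Q s0 s1 j tla tua Pa uLa uUa Ea)
    (B : Node K μ Q s0 s1 (j + 1) tl tu Pb uLb uUb Eb) :
    ∀ x ∈ Set.Icc (nd Q j) (nd Q (j + 1)), K * (1 - ‖μ‖ ^ 2) * JJ μ.re x ≤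
      ch (nd Q j) (nd Q (j + 1)) ((Pa : ℝ) / 1099511627776) ((Pb : ℝ) / 1099511627776) x := by
  intro x hx
  have hc : 0 ≤ K * (1 - ‖μ‖ ^ 2) := mul_nonneg H.k0 H.rr
  have hconv : ConvexOn ℝ (Set.Ico 0 1)
      (fun x => K * (1 - ‖μ‖ ^ 2) * JJ μ.re x) := (JJ_convex H.m1).smul hc
  exact ch_le_convex hconv ⟨nd_nonneg Q j, nd_lt H.q0 (by omega)⟩
    ⟨nd_nonneg Q (j + 1), nd_lt H.q0 hj⟩ (nd_lt_succ H.q0) hx.1 hx.2 A.P B.P

theorem psn_ge {pu pl uL uU tl tu : ℕ} {Φ : ℝ} (hL : (uL : ℝ) ≤ s0 * tl / 1099511627776)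
    (hU : (s1 : ℝ) * tu / 1099511627776 ≤ uU) (h1 : Φ ≤ (pu : ℝ) / 1099511627776)
    (h2 : (pl : ℝ) / 1099511627776 ≤ Φ) :
    Φ - (s0 : ℝ) / 1099511627776 * ((tl : ℝ) / 1099511627776) ≤
      (psn pu pl uL uU : ℝ) / 1099511627776 ∧
    (s1 : ℝ) / 1099511627776 * ((tu : ℝ) / 1099511627776) - Φ ≤
      (psn pu pl uL uU : ℝ) / 1099511627776 := by
  unfold psn
  set A := pu - uL with hA
  set B := uU - pl with hB
  have hAB1 : A ≤ A - B + B := by omega
  have hAB2 : B ≤ A - B + B := by omega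
  have hA' : (A : ℝ) ≤ ((A - B + B : ℕ) : ℝ) := by exact_mod_cast hAB1
  have hB' : (B : ℝ) ≤ ((A - B + B : ℕ) : ℝ) := by exact_mod_cast hAB2
  have f1 := sub_le_cast pu uL
  have f2 := sub_le_cast uU pl
  rw [← hA] at f1
  rw [← hB] at f2
  rw [div_le_iff₀ (by norm_num)] at h2
  rw [le_div_iff₀ (by norm_num)] at h1
  constructor
  · rw [le_div_iff₀ (by norm_num)]
    refine le_trans ?_ (f1.trans hA')
    have g : (Φ - (s0 : ℝ) / 1099511627776 * ((tl : ℝ) / 1099511627776)) * 1099511627776 =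
        Φ * 1099511627776 - s0 * tl / 1099511627776 := by
      field_simp
    rw [g]
    linarith
  · rw [le_div_iff₀ (by norm_num)]
    refine le_trans ?_ (f2.trans hB')
    have g : ((s1 : ℝ) / 1099511627776 * ((tu : ℝ) / 1099511627776) - Φ) * 1099511627776 =
        s1 * tu / 1099511627776 - Φ * 1099511627776 := by
      field_simp
    rw [g]
    linarith

/-- **the phase in a cell** -/
theorem phase (H : LCtx K μ q Q s0 s1 c1) {j tla tua Pa uLa uUa Ea pj tl tu dp dn pm ee Pb uLb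
    uUb Eb pu pl : ℕ} (C : CellOK K μ.re Q j tla tua pj tl tu dp dn pm ee)
    (A : Node K μ Q s0 s1 j tla tua Pa uLa uUa Ea)
    (B : Node K μ Q s0 s1 (j + 1) tl tu Pb uLb uUb Eb) {Φ : ℝ}
    (h1 : Φ ≤ (pu : ℝ) / 1099511627776) (h2 : (pl : ℝ) / 1099511627776 ≤ Φ) :
    ∀ x ∈ Set.Icc (nd Q j) (nd Q (j + 1)), |Φ - K * μ.im * Th μ.re x| ≤
      ch (nd Q j) (nd Q (j + 1)) ((psn pu pl uLa uUa : ℝ) / 1099511627776)
        ((psn pu pl uLb uUb : ℝ) / 1099511627776) x +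
      (ddn s0 s1 dp dn : ℝ) / 1099511627776 := by
  intro x hx
  have h0 := nd_nonneg Q j
  have hlt := nd_lt_succ (j := j) H.q0
  have hb := nd_lt H.q0 C.lt
  have hx0 : 0 ≤ x := h0.trans hx.1
  have hx1 : x < 1 := hx.2.trans_lt hb
  have hm := H.m1
  have hTh0 : 0 ≤ Th μ.re x := by
    have := Th_mono_x hm le_rfl hx0 hx1
    rwa [Th_zero] at this
  have hKT : 0 ≤ K * Th μ.re x := mul_nonneg H.k0 hTh0
  have hlo := C.lo x hx
  have hhi := C.hi x hx
  have hs0 : (0 : ℝ) ≤ (s0 : ℝ) / 1099511627776 := by positivity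
  have hs1 : (0 : ℝ) ≤ (s1 : ℝ) / 1099511627776 := by positivity
  obtain ⟨a1, a2⟩ := psn_ge A.L A.U h1 h2
  obtain ⟨b1, b2⟩ := psn_ge B.L B.U h1 h2
  have hdd : (s1 : ℝ) / 1099511627776 * ((dp : ℝ) / 1099511627776) +
      (s0 : ℝ) / 1099511627776 * ((dn : ℝ) / 1099511627776) ≤
      (ddn s0 s1 dp dn : ℝ) / 1099511627776 := by
    have e1 := le_shr (s1 * dp) 40
    have e2 := le_shr (s0 * dn) 40
    rw [c40] at e1 e2
    unfold ddn
    rw [le_div_iff₀ (by norm_num)]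
    push_cast at e1 e2 ⊢
    have g : ((s1 : ℝ) / 1099511627776 * ((dp : ℝ) / 1099511627776) +
      (s0 : ℝ) / 1099511627776 * ((dn : ℝ) / 1099511627776)) * 1099511627776 =
      s1 * dp / 1099511627776 + s0 * dn / 1099511627776 := by
      field_simp
    rw [g]
    linarith
  have hd1 : 0 ≤ (s1 : ℝ) / 1099511627776 * ((dp : ℝ) / 1099511627776) := by positivity
  have hd0 : 0 ≤ (s0 : ℝ) / 1099511627776 * ((dn : ℝ) / 1099511627776) := by positivity
  have hK : K * μ.im * Th μ.re x = μ.im * (K * Th μ.re x) := by ring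
  rw [hK, abs_le]
  constructor
  · have g1 : μ.im * (K * Th μ.re x) ≤ (s1 : ℝ) / 1099511627776 * (K * Th μ.re x) :=
      mul_le_mul_of_nonneg_right H.i2 hKT
    have g2 := mul_le_mul_of_nonneg_left hhi hs1
    have g3 := ch_mono (x := x) hlt hx.1 hx.2 a2 b2
    have g4 : ch (nd Q j) (nd Q (j + 1))
        ((s1 : ℝ) / 1099511627776 * ((tua : ℝ) / 1099511627776) - Φ)
        ((s1 : ℝ) / 1099511627776 * ((tu : ℝ) / 1099511627776) - Φ) x =
        (s1 : ℝ) / 1099511627776 * ch (nd Q j) (nd Q (j + 1)) ((tua : ℝ) / 1099511627776)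
          ((tu : ℝ) / 1099511627776) x - Φ := by
      rw [sub_eq_add_neg, sub_eq_add_neg, ch_add_const hlt, ch_mul]
      ring
    rw [g4] at g3
    linarith
  · have g1 : (s0 : ℝ) / 1099511627776 * (K * Th μ.re x) ≤ μ.im * (K * Th μ.re x) :=
      mul_le_mul_of_nonneg_right H.i1 hKT
    have g2 := mul_le_mul_of_nonneg_left hlo hs0
    have g3 := ch_mono (x := x) hlt hx.1 hx.2 a1 b1
    have g4 : ch (nd Q j) (nd Q (j + 1))
        (Φ - (s0 : ℝ) / 1099511627776 * ((tla : ℝ) / 1099511627776))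
        (Φ - (s0 : ℝ) / 1099511627776 * ((tl : ℝ) / 1099511627776)) x =
        Φ - (s0 : ℝ) / 1099511627776 * ch (nd Q j) (nd Q (j + 1)) ((tla : ℝ) / 1099511627776)
          ((tl : ℝ) / 1099511627776) x := by
      have hba : nd Q (j + 1) - nd Q j ≠ 0 := by linarith
      unfold ch
      field_simp
      ring
    rw [g4] at g3
    linarith

theorem ddn_pos (s0 s1 dp dn : ℕ) : 0 < ddn s0 s1 dp dn := by
  unfold ddn
  omega

/-- **a positive cell** -/
theorem cell_pos (H : LCtx K μ q Q s0 s1 c1) {j tla tua Pa uLa uUa Ea pj tl tu dp dn pm ee Pb uLb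
    uUb Eb ta t phi v : ℕ} (C : CellOK K μ.re Q j tla tua pj tl tu dp dn pm ee)
    (A : Node K μ Q s0 s1 j tla tua Pa uLa uUa Ea)
    (B : Node K μ Q s0 s1 (j + 1) tl tu Pb uLb uUb Eb)
    (hta : ta ≤ 100) (ht : t ≤ 100)
    (hca : Pa * (cN ta + 1) ≤ 1099511627776 * 1099511627776)
    (hcb : Pb * (cN t + 1) ≤ 1099511627776 * 1099511627776)
    (hWa : psn phi phi uLa uUa + ddn s0 s1 dp dn ≤ WN Pa ta)
    (hWb : psn phi phi uLb uUb + ddn s0 s1 dp dn ≤ WN Pb t)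
    (hv : v = (pm * emL ((XN Pa ta + XN Pb t) / 2 + 1)) >>> 40) :
    PosCell q ((phi : ℝ) / 1099511627776) (nd Q j) (nd Q (j + 1))
      ((v : ℝ) / (Q * 1099511627776)) := by
  have hQ' : (0 : ℝ) < Q := Nat.cast_pos.2 H.q0
  have hdel := ddn_pos s0 s1 dp dn
  set dl := ddn s0 s1 dp dn with hdl
  have hlt := nd_lt_succ (j := j) H.q0
  have hb1 := nd_lt H.q0 C.lt
  have h0 := nd_nonneg Q j
  have hcos : ∀ {P t : ℕ}, t ≤ 100 → P * (cN t + 1) ≤ 1099511627776 * 1099511627776 →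
      (P : ℝ) / 1099511627776 * Real.cos (t / 64) ≤ 1 := by
    intro P t ht hc
    have hc' : ((P * (cN t + 1) : ℕ) : ℝ) ≤ ((1099511627776 * 1099511627776 : ℕ) : ℝ) := by
      exact_mod_cast hc
    calc (P : ℝ) / 1099511627776 * Real.cos (t / 64) ≤
        (P : ℝ) / 1099511627776 * (((cN t + 1 : ℕ) : ℝ) / 1099511627776) :=
          mul_le_mul_of_nonneg_left (cos_bd ht).2 (by positivity)
      _ = ((P * (cN t + 1) : ℕ) : ℝ) / (1099511627776 * 1099511627776) := by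
          push_cast
          ring
      _ ≤ 1 := by
          rw [div_le_one (by norm_num)]
          push_cast at hc' ⊢
          linarith
  have hW : ∀ {P ps t : ℕ}, t ≤ 100 → ps + dl ≤ WN P t →
      ((ps : ℝ) / 1099511627776 + (dl : ℝ) / 1099511627776) ≤
        (t : ℝ) / 64 - (P : ℝ) / 1099511627776 * Real.sin (t / 64) := by
    intro P ps t ht hw
    refine le_trans ?_ (WN_le ht (by omega))
    rw [← add_div]
    apply div_le_div_of_nonneg_right _ (by norm_num)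
    exact_mod_cast hw
  have hψ : ∀ x ∈ Set.Icc (nd Q j) (nd Q (j + 1)),
      |(phi : ℝ) / 1099511627776 - K * μ.im * Th μ.re x| ≤
      ch (nd Q j) (nd Q (j + 1))
        ((psn phi phi uLa uUa : ℝ) / 1099511627776 + (dl : ℝ) / 1099511627776)
        ((psn phi phi uLb uUb : ℝ) / 1099511627776 + (dl : ℝ) / 1099511627776) x := by
    intro x hx
    rw [ch_add_const hlt]
    exact phase H C A B le_rfl le_rfl x hx
  refine posCell H.rep h0 hlt hb1
    (by positivity : (0 : ℝ) ≤ (ta : ℝ) / 64) (th_lt hta)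
    (by positivity : (0 : ℝ) ≤ (t : ℝ) / 64) (th_lt ht)
    (by positivity : (0 : ℝ) ≤ (Pa : ℝ) / 1099511627776)
    (by positivity : (0 : ℝ) ≤ (Pb : ℝ) / 1099511627776)
    (hcos hta hca) (hcos ht hcb) (by positivity) (by positivity) (hW hta hWa) (hW ht hWb)
    (P_cell H C.lt A B) hψ (XN_ge hta) (XN_ge ht) ?_
  set XX := XN Pa ta + XN Pb t with hXX
  have e1 := emL_spec (XX / 2 + 1)
  rw [c40] at e1
  have e2 : Real.exp (-(((XX / 2 + 1 : ℕ) : ℝ) / 1099511627776)) ≤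
      Real.exp (-(((XN Pa ta : ℝ) / 1099511627776 + (XN Pb t : ℝ) / 1099511627776) / 2)) := by
    apply Real.exp_le_exp.2
    rw [neg_le_neg_iff]
    have f1 := real_le_div XX 2 (by norm_num)
    refine le_trans (le_of_eq ?_) (div_le_div_of_nonneg_right f1
      (show (0 : ℝ) ≤ 1099511627776 by norm_num))
    rw [hXX]
    push_cast
    ring
  have e3 := shr_le (pm * emL (XX / 2 + 1)) 40
  rw [← hv, c40] at e3
  have e4 : (v : ℝ) / 1099511627776 ≤ Real.exp (K / 2 *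
      ((∫ x in nd Q j..nd Q (j + 1), Real.log (gg μ.re x)) / (nd Q (j + 1) - nd Q j)) -
      ((XN Pa ta : ℝ) / 1099511627776 + (XN Pb t : ℝ) / 1099511627776) / 2) := by
    rw [sub_eq_add_neg, Real.exp_add]
    calc (v : ℝ) / 1099511627776 ≤
        ((pm * emL (XX / 2 + 1) : ℕ) : ℝ) / 1099511627776 / 1099511627776 :=
          div_le_div_of_nonneg_right e3 (by norm_num)
      _ = (pm : ℝ) / 1099511627776 * ((emL (XX / 2 + 1) : ℝ) / 1099511627776) := by
          push_cast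
          ring
      _ ≤ _ := mul_le_mul C.pm (e1.trans e2) (by positivity) (by positivity)
  have e5 := mul_le_mul_of_nonneg_left e4 (show (0 : ℝ) ≤ 1 / Q by positivity)
  have e6 : (v : ℝ) / (Q * 1099511627776) = 1 / Q * ((v : ℝ) / 1099511627776) := by
    field_simp
  rw [e6]
  refine e5.trans (le_of_eq ?_)
  rw [nd_succ H.q0]

theorem nn_ge {Ea Eb La Lb td t : ℕ} (ht : t ≤ 100) (htd : td < 1099511627776) :
    Real.cos (t / 64) * (3 * ((Ea : ℝ) / 1099511627776 * (La / 1099511627776)) +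
      Ea / 1099511627776 * (Lb / 1099511627776) + Eb / 1099511627776 * (La / 1099511627776) +
      Eb / 1099511627776 * (Lb / 1099511627776)) / 12 *
      (1099511627776 / ((1099511627776 - td : ℕ) : ℝ)) ≤
      (n1n Ea La Eb Lb td t : ℝ) / 1099511627776 ∧
    Real.cos (t / 64) * ((Ea : ℝ) / 1099511627776 * (La / 1099511627776) +
      Ea / 1099511627776 * (Lb / 1099511627776) + Eb / 1099511627776 * (La / 1099511627776) +
      3 * (Eb / 1099511627776 * (Lb / 1099511627776))) / 12 *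
      (1099511627776 / ((1099511627776 - td : ℕ) : ℝ)) ≤
      (n2n Ea La Eb Lb td t : ℝ) / 1099511627776 := by
  have hd : 0 < 1099511627776 - td := by omega
  have hdr : (0 : ℝ) < ((1099511627776 - td : ℕ) : ℝ) := by exact_mod_cast hd
  have key : ∀ (M : ℕ), Real.cos (t / 64) * ((M : ℝ) / (1099511627776 * 1099511627776)) / 12 *
      (1099511627776 / ((1099511627776 - td : ℕ) : ℝ)) ≤
      (((cN t + 1) * M / (13194139533312 * (1099511627776 - td)) + 1 : ℕ) : ℝ) /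
        1099511627776 := by
    intro M
    have h1 := real_le_div ((cN t + 1) * M) (13194139533312 * (1099511627776 - td))
      (by positivity)
    refine le_trans ?_ (div_le_div_of_nonneg_right h1
      (show (0 : ℝ) ≤ 1099511627776 by norm_num))
    have h2 : Real.cos (t / 64) * ((M : ℝ) / (1099511627776 * 1099511627776)) / 12 *
        (1099511627776 / ((1099511627776 - td : ℕ) : ℝ)) ≤
        ((cN t + 1 : ℕ) : ℝ) / 1099511627776 *
        ((M : ℝ) / (1099511627776 * 1099511627776)) / 12 *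
        (1099511627776 / ((1099511627776 - td : ℕ) : ℝ)) := by
      apply mul_le_mul_of_nonneg_right _ (by positivity)
      apply div_le_div_of_nonneg_right _ (by norm_num)
      exact mul_le_mul_of_nonneg_right (cos_bd ht).2 (by positivity)
    refine h2.trans (le_of_eq ?_)
    rw [Nat.cast_mul, Nat.cast_mul]
    push_cast
    field_simp
    ring
  constructor
  · have h := key (((Ea * Lb) + (Eb * La)) + ((Ea * La) + (Eb * Lb)) + 2 * (Ea * La))
    refine le_trans (le_of_eq ?_) h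
    push_cast
    ring
  · have h := key (((Ea * Lb) + (Eb * La)) + ((Ea * La) + (Eb * Lb)) + 2 * (Eb * Lb))
    refine le_trans (le_of_eq ?_) h
    push_cast
    ring

/-- **a negative cell** -/
theorem cell_neg (H : LCtx K μ q Q s0 s1 c1) {j tla tua Pa uLa uUa Ea pj tl tu dp dn pm ee Pb uLb
    uUb Eb al k phi v₁ v₂ : ℕ} (C : CellOK K μ.re Q j tla tua pj tl tu dp dn pm ee)
    (A : Node K μ Q s0 s1 j tla tua Pa uLa uUa Ea)
    (B : Node K μ Q s0 s1 (j + 1) tl tu Pb uLb uUb Eb)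
    (hal : al ≤ 100) (htd : tdN (ddn s0 s1 dp dn) al < 1099511627776)
    (hv₁ : v₁ = n1n Ea (LN Pa (psn (phi + 6908435304716 * k) (phi + 6908435304715 * k) uLa uUa)
      al) Eb (LN Pb (psn (phi + 6908435304716 * k) (phi + 6908435304715 * k) uLb uUb) al)
      (tdN (ddn s0 s1 dp dn) al) al)
    (hv₂ : v₂ = n2n Ea (LN Pa (psn (phi + 6908435304716 * k) (phi + 6908435304715 * k) uLa uUa)
      al) Eb (LN Pb (psn (phi + 6908435304716 * k) (phi + 6908435304715 * k) uLb uUb) al)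
      (tdN (ddn s0 s1 dp dn) al) al) :
    NegCell q ((phi : ℝ) / 1099511627776) (nd Q j) (nd Q (j + 1))
      ((v₁ : ℝ) / (Q * 1099511627776)) ((v₂ : ℝ) / (Q * 1099511627776)) := by
  have hQ' : (0 : ℝ) < Q := Nat.cast_pos.2 H.q0
  have hΦ1 : (phi : ℝ) / 1099511627776 + 2 * Real.pi * k ≤
      ((phi + 6908435304716 * k : ℕ) : ℝ) / 1099511627776 := by
    have := mul_le_mul_of_nonneg_right pi2_upp (Nat.cast_nonneg (α := ℝ) k)
    push_cast
    rw [add_div]
    linarith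
  have hΦ2 : ((phi + 6908435304715 * k : ℕ) : ℝ) / 1099511627776 ≤
      (phi : ℝ) / 1099511627776 + 2 * Real.pi * k := by
    have := mul_le_mul_of_nonneg_right pi2_low (Nat.cast_nonneg (α := ℝ) k)
    push_cast
    rw [add_div]
    linarith
  obtain ⟨g1, g2⟩ := nn_ge (Ea := Ea) (Eb := Eb)
    (La := LN Pa (psn (phi + 6908435304716 * k) (phi + 6908435304715 * k) uLa uUa) al)
    (Lb := LN Pb (psn (phi + 6908435304716 * k) (phi + 6908435304715 * k) uLb uUb) al) hal htd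
  rw [← hv₁] at g1
  rw [← hv₂] at g2
  refine negCell H.rep H.k1 k (nd_nonneg Q j) (nd_lt_succ (j := j) H.q0) (nd_lt H.q0 C.lt)
    (by positivity : (0 : ℝ) ≤ (al : ℝ) / 64) (th_lt hal) (P_cell H C.lt A B)
    (phase H C A B hΦ1 hΦ2) (LN_ge hal) (LN_ge hal) A.E B.E (K_ge hal htd) ?_ ?_
  · rw [nd_succ H.q0]
    have e := mul_le_mul_of_nonneg_left g1 (show (0 : ℝ) ≤ 1 / Q by positivity)
    refine e.trans (le_of_eq ?_)
    field_simp
  · rw [nd_succ H.q0]
    have e := mul_le_mul_of_nonneg_left g2 (show (0 : ℝ) ≤ 1 / Q by positivity)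
    refine e.trans (le_of_eq ?_)
    field_simp

/-- a cell with the bound of the modulus -/
theorem cell_am (H : LCtx K μ q Q s0 s1 c1) {j tla tua Pa uLa uUa Ea tl tu Pb uLb uUb Eb phi
    v₁ v₂ : ℕ} (hj : j + 1 < Q) (A : Node K μ Q s0 s1 j tla tua Pa uLa uUa Ea)
    (B : Node K μ Q s0 s1 (j + 1) tl tu Pb uLb uUb Eb)
    (hv₁ : v₁ = (2 * Ea + Eb) / 6 + 1) (hv₂ : v₂ = (Ea + 2 * Eb) / 6 + 1) :
    NegCell q ((phi : ℝ) / 1099511627776) (nd Q j) (nd Q (j + 1))
      ((v₁ : ℝ) / (Q * 1099511627776)) ((v₂ : ℝ) / (Q * 1099511627776)) := by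
  have hQ' : (0 : ℝ) < Q := Nat.cast_pos.2 H.q0
  refine negCell_am H.rep H.k1 (nd_nonneg Q j) (nd_lt_succ (j := j) H.q0) (nd_lt H.q0 hj)
    A.E B.E ?_ ?_
  · rw [nd_succ H.q0, hv₁]
    have h1 := real_le_div (2 * Ea + Eb) 6 (by norm_num)
    have e := mul_le_mul_of_nonneg_left h1
      (show (0 : ℝ) ≤ 1 / (Q * 1099511627776) by positivity)
    refine le_trans (le_of_eq ?_) (e.trans (le_of_eq ?_))
    · push_cast
      field_simp
    · field_simp
  · rw [nd_succ H.q0, hv₂]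
    have h1 := real_le_div (Ea + 2 * Eb) 6 (by norm_num)
    have e := mul_le_mul_of_nonneg_left h1
      (show (0 : ℝ) ≤ 1 / (Q * 1099511627776) by positivity)
    refine le_trans (le_of_eq ?_) (e.trans (le_of_eq ?_))
    · push_cast
      field_simp
    · field_simp

/-! ### the loops -/

/-- the first digit in front -/
def consN (v : ℕ) (p : ℕ → ℕ) : ℕ → ℕ
  | 0 => v
  | i + 1 => p i

theorem hp_cons (v : ℕ) (p : ℕ → ℕ) (J : ℕ) :
    hp (consN v p) (J + 1) = v * (2 ^ 128) ^ J + hp p J := by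
  induction J with
  | zero => simp [hp, consN]
  | succ J ih =>
    rw [hp, ih, hp, pow_succ]
    show (v * (2 ^ 128) ^ J + hp p J) * 2 ^ 128 + p J = _
    ring

theorem nloop_sound (H : LCtx K μ q Q s0 s1 c1) {phi : ℕ} {fin : ℕ → ℕ → Bool} :
    ∀ (J1 : ℕ) (col : Col) (j tla tua Pa uL uU Ea acc1 acc2 st : ℕ),
    ColOK K μ.re Q col j tla tua → Node K μ Q s0 s1 j tla tua Pa uL uU Ea →
    nloop s0 s1 c1 phi J1 fin col Pa uL uU Ea acc1 acc2 st = true →
    ∃ n₁ n₂ : ℕ → ℕ, (∀ i < J1, n₁ i < 2 ^ 80 ∧ n₂ i < 2 ^ 80 ∧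
      NegCell q ((phi : ℝ) / 1099511627776) (nd Q (j + i)) (nd Q (j + i + 1))
        ((n₁ i : ℝ) / (Q * 1099511627776)) ((n₂ i : ℝ) / (Q * 1099511627776))) ∧
      fin (acc1 * (2 ^ 128) ^ J1 + hp n₁ J1) (acc2 * (2 ^ 128) ^ J1 + hp n₂ J1) = true := by
  intro J1
  induction J1 with
  | zero =>
    intro col j tla tua Pa uL uU Ea acc1 acc2 st _ _ h
    rw [nloop_zero] at h
    refine ⟨fun _ => 0, fun _ => 0, fun i hi => absurd hi (Nat.not_lt_zero _), ?_⟩
    simpa [hp] using h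
  | succ J1 ih =>
    intro col j tla tua Pa uL uU Ea acc1 acc2 st hcol A h
    rw [nloop_succ] at h
    cases col with
    | nil => exact absurd h (by rw [nst_nil]; exact Bool.false_ne_true)
    | cell pj tl tu dp dn pm ee rest =>
      obtain ⟨C, hrest⟩ := hcol
      obtain ⟨v₁, v₂, hv₁, hv₂, hcase, st', hr⟩ := nst_elim h
      have B := Node_succ H C
      obtain ⟨n₁, n₂, hn, hf⟩ := ih rest (j + 1) tl tu _ _ _ _ _ _ _ hrest B hr
      have hcell : NegCell q ((phi : ℝ) / 1099511627776) (nd Q j) (nd Q (j + 1))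
          ((v₁ : ℝ) / (Q * 1099511627776)) ((v₂ : ℝ) / (Q * 1099511627776)) := by
        rcases hcase with ⟨al, k, hal, htd, e1, e2⟩ | ⟨e1, e2⟩
        · exact cell_neg H C A B hal htd e1 e2
        · exact cell_am H C.lt A B e1 e2
      refine ⟨consN v₁ n₁, consN v₂ n₂, ?_, ?_⟩
      · intro i hi
        rcases i with _ | i
        · exact ⟨hv₁, hv₂, hcell⟩
        · have h3 := hn i (by omega)
          rw [show j + (i + 1) = j + 1 + i by omega]
          exact h3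
      · rw [hp_cons, hp_cons]
        have e1 : acc1 * (2 ^ 128) ^ (J1 + 1) + (v₁ * (2 ^ 128) ^ J1 + hp n₁ J1) =
            (acc1 * 2 ^ 128 + v₁) * (2 ^ 128) ^ J1 + hp n₁ J1 := by
          rw [pow_succ]
          ring
        have e2 : acc2 * (2 ^ 128) ^ (J1 + 1) + (v₂ * (2 ^ 128) ^ J1 + hp n₂ J1) =
            (acc2 * 2 ^ 128 + v₂) * (2 ^ 128) ^ J1 + hp n₂ J1 := by
          rw [pow_succ]
          ring
        rw [e1, e2]
        exact hf

theorem ploop_sound (H : LCtx K μ q Q s0 s1 c1) {phi : ℕ}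
    {fin : Col → ℕ → ℕ → ℕ → ℕ → ℕ → Bool} :
    ∀ (J0 : ℕ) (col : Col) (j tla tua Pa uL uU Ea psa Wa Xa acc st : ℕ),
    ColOK K μ.re Q col j tla tua → Node K μ Q s0 s1 j tla tua Pa uL uU Ea →
    psa = psn phi phi uL uU →
    (∃ t, t ≤ 100 ∧ Pa * (cN t + 1) ≤ 1099511627776 * 1099511627776 ∧ Wa = WN Pa t ∧
      Xa = XN Pa t) →
    ploop s0 s1 c1 phi J0 fin col Pa uL uU Ea psa Wa Xa acc st = true →
    ∃ p : ℕ → ℕ, (∀ i < J0, p i < 2 ^ 80 ∧
      PosCell q ((phi : ℝ) / 1099511627776) (nd Q (j + i)) (nd Q (j + i + 1))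
        ((p i : ℝ) / (Q * 1099511627776))) ∧
      ∃ (col' : Col) (tl tu Pb uLb uUb Eb : ℕ), ColOK K μ.re Q col' (j + J0) tl tu ∧
        Node K μ Q s0 s1 (j + J0) tl tu Pb uLb uUb Eb ∧
        fin col' Pb uLb uUb Eb (acc * (2 ^ 128) ^ J0 + hp p J0) = true := by
  intro J0
  induction J0 with
  | zero =>
    intro col j tla tua Pa uL uU Ea psa Wa Xa acc st hcol A _ _ h
    rw [ploop_zero] at h
    refine ⟨fun _ => 0, fun i hi => absurd hi (Nat.not_lt_zero _), col, tla, tua, Pa, uL, uU, Ea,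
      hcol, A, ?_⟩
    simpa [hp] using h
  | succ J0 ih =>
    intro col j tla tua Pa uL uU Ea psa Wa Xa acc st hcol A hps ht h
    rw [ploop_succ] at h
    cases col with
    | nil => exact absurd h (by rw [pst_nil]; exact Bool.false_ne_true)
    | cell pj tl tu dp dn pm ee rest =>
      obtain ⟨C, hrest⟩ := hcol
      obtain ⟨ht1, hc, hWa, hWb, v, hv, hv80, hr⟩ := pst_elim h
      obtain ⟨ta, hta, hca, eW, eX⟩ := ht
      have B := Node_succ H C
      rw [hps, eW] at hWa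
      rw [eX] at hv
      have hcell := cell_pos H C A B hta ht1 hca hc hWa hWb hv
      obtain ⟨p, hp1, col', tl', tu', Pb, uLb, uUb, Eb, k1, k2, k3⟩ :=
        ih rest (j + 1) tl tu _ _ _ _ _ _ _ _ _ hrest B rfl ⟨_, ht1, hc, rfl, rfl⟩ hr
      refine ⟨consN v p, ?_, col', tl', tu', Pb, uLb, uUb, Eb, ?_, ?_, ?_⟩
      · intro i hi
        rcases i with _ | i
        · exact ⟨hv80, hcell⟩
        · have h3 := hp1 i (by omega)
          rw [show j + (i + 1) = j + 1 + i by omega]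
          exact h3
      · rw [show j + (J0 + 1) = j + 1 + J0 by omega]
        exact k1
      · rw [show j + (J0 + 1) = j + 1 + J0 by omega]
        exact k2
      · rw [hp_cons]
        have e1 : acc * (2 ^ 128) ^ (J0 + 1) + (v * (2 ^ 128) ^ J0 + hp p J0) =
            (acc * 2 ^ 128 + v) * (2 ^ 128) ^ J0 + hp p J0 := by
          rw [pow_succ]
          ring
        rw [e1]
        exact k3

end leaf

/-- **soundness of the leaf** -/
theorem leafK_sound {K : ℝ} {μ : ℂ} {q : ℝ → ℂ} {Q s0 s1 c1 phi J0 J1 t0 st1 st2 : ℕ} {col : Col}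
    {k : ℕ → ℕ → ℕ → Bool} (hQ : 0 < Q) (hK : 1 ≤ K) (hrep : RepR K μ q)
    (i1 : (s0 : ℝ) / 1099511627776 ≤ μ.im) (i2 : μ.im ≤ (s1 : ℝ) / 1099511627776)
    (hc : 1 - ‖μ‖ ^ 2 ≤ (c1 : ℝ) / 1099511627776) (hcol : ColOK K μ.re Q col 0 0 0)
    (h : leafK s0 s1 c1 phi J0 J1 t0 st1 st2 col k = true) :
    ∃ p n₁ n₂ : ℕ → ℕ, (∀ i < J0, p i < 2 ^ 80 ∧
      PosCell q ((phi : ℝ) / 1099511627776) ((i : ℝ) / Q) (((i + 1 : ℕ) : ℝ) / Q)
        ((p i : ℝ) / (Q * 1099511627776))) ∧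
      (∀ i < J1, n₁ i < 2 ^ 80 ∧ n₂ i < 2 ^ 80 ∧
      NegCell q ((phi : ℝ) / 1099511627776) (((J0 + i : ℕ) : ℝ) / Q) (((J0 + i + 1 : ℕ) : ℝ) / Q)
        ((n₁ i : ℝ) / (Q * 1099511627776)) ((n₂ i : ℝ) / (Q * 1099511627776))) ∧
      k (hp p J0) (hp n₁ J1) (hp n₂ J1) = true := by
  have H : LCtx K μ q Q s0 s1 c1 := ⟨hQ, hK, hrep, i1, i2, hc⟩
  unfold leafK at h
  rw [bi_and] at h
  obtain ⟨ht0, h⟩ := h
  rw [Nat.ble_eq] at ht0
  simp only [ev_eq] at h
  obtain ⟨t1, t2, t3, -⟩ := tabs_spec (t := t0) ht0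
  have hW : Nat.sub (Nat.mul 17179869184 t0) (Nat.add (Nat.shiftRight (Nat.mod
      (Nat.shiftRight tabP (Nat.mul 144 t0)) 281474976710656) 40) 1) = WN 1 t0 := by
    have e : Nat.mod (Nat.shiftRight tabP (Nat.mul 144 t0)) 281474976710656 = sN t0 + 1 := t1
    rw [e, WN_def, Nat.mul_comm t0, Nat.one_mul]
    rfl
  have hX : Nat.add (Nat.add 1 (Nat.shiftRight
        (Nat.mod (Nat.shiftRight tabP (Nat.add 48 (Nat.mul 144 t0))) 281474976710656) 40))
        (Nat.mod (Nat.shiftRight tabP (Nat.add 96 (Nat.mul 144 t0))) 281474976710656) =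
      XN 1 t0 := by
    have e2 : Nat.mod (Nat.shiftRight tabP (Nat.add 48 (Nat.mul 144 t0))) 281474976710656 =
        cN t0 + 1 := by
      rw [← t2, ← Nat.shiftRight_add, Nat.add_comm]
      rfl
    have e3 : Nat.mod (Nat.shiftRight tabP (Nat.add 96 (Nat.mul 144 t0))) 281474976710656 =
        lN t0 + 1 := by
      rw [← t3, ← Nat.shiftRight_add, Nat.add_comm]
      rfl
    rw [e2, e3, XN_def, Nat.one_mul]
    show 1 + (cN t0 + 1) >>> 40 + (lN t0 + 1) = _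
    rw [Nat.add_comm 1099511627776 (cN t0 + 1), Nat.shiftRight_eq_div_pow,
      Nat.shiftRight_eq_div_pow, show (2 : ℕ) ^ 40 = 1099511627776 by norm_num,
      Nat.add_div_right _ (by norm_num)]
    omega
  rw [hW, hX] at h
  have hc0 : 1 * (cN t0 + 1) ≤ 1099511627776 * 1099511627776 := by
    have := cN_lt t0
    omega
  obtain ⟨p, hp1, col', tl, tu, Pb, uLb, uUb, Eb, k1, k2, k3⟩ :=
    ploop_sound H J0 col 0 0 0 1 0 1 1099511627776 _ _ _ 0 st1 hcol (Node_zero K μ Q s0 s1) rfl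
      ⟨t0, ht0, hc0, rfl, rfl⟩ h
  obtain ⟨n₁, n₂, hn, hf⟩ := nloop_sound H J1 col' (0 + J0) tl tu Pb uLb uUb Eb 0 0 st2 k1 k2 k3
  refine ⟨p, n₁, n₂, fun i hi => ?_, fun i hi => ?_, ?_⟩
  · have h3 := hp1 i hi
    rw [zero_add] at h3
    exact h3
  · have h3 := hn i hi
    rw [zero_add] at h3
    exact h3
  · simpa using hf

/-- the packed vector as a sum -/
theorem hp_eq_sum (p : ℕ → ℕ) (J : ℕ) :
    hp p J = ∑ j ∈ Finset.range J, p j * (2 ^ 128) ^ (J - 1 - j) := by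
  induction J with
  | zero => rfl
  | succ J ih =>
    rw [Finset.sum_range_succ, hp, ih, Finset.sum_mul]
    have e : J + 1 - 1 - J = 0 := by omega
    rw [e, pow_zero, mul_one]
    congr 1
    apply Finset.sum_congr rfl
    intro j hj
    rw [Finset.mem_range] at hj
    rw [mul_assoc, ← pow_succ]
    congr 2
    omega

end Pool.Agent.Lib.MP_af3a4a_an.P1.CHK.CurveK
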