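import Pool.Agent.Lib.MP_af3a4a_an.P1.CHK.CurveK.Real
import Pool.Agent.Lib.MP_af3a4a_an.P1.CHK.CurveK.Defs

/-!
# The curve with a real exponent: powers `g^(K/32)` (council 2, helper62)
-/

set_option autoImplicit false

namespace Pool.Agent.Lib.MP_af3a4a_an.P1.CHK.CurveK

open Pool.Agent.Lib.MP_af3a4a_an.P1.CHK.Arith
open Pool.Agent.Lib.MP_af3a4a_an.P1.CHK.H80 (gg JJ Th gg_pos gg_cont)
open Pool.Agent.Lib.MP_af3a4a_an.P1.CHK.Curve (mr c40 gg_anti)

theorem nr_pos (a y : ℕ) : 0 < nr a y := Nat.succ_pos _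

theorem nr_ge {a y : ℕ} (hy : 0 < y) : (a : ℝ) ≤ (nr a y : ℝ) ^ 32 := by
  have hy' : (0 : ℝ) < y := Nat.cast_pos.2 hy
  have hdef : nr a y = (31 * y + a / y ^ 31) / 32 + 1 := rfl
  rw [hdef]
  rcases Nat.eq_zero_or_pos a with ha | ha
  · subst ha
    rw [Nat.cast_zero]
    positivity
  -- `r = a^(1/32)`
  set r : ℝ := (a : ℝ) ^ ((1 : ℝ) / 32) with hr
  have ha' : (0 : ℝ) < a := Nat.cast_pos.2 ha
  have hr0 : 0 < r := Real.rpow_pos_of_pos ha' _
  have hr32 : r ^ 32 = a := by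
    rw [hr, ← Real.rpow_natCast, ← Real.rpow_mul ha'.le]
    norm_num
  have hb : 1 + (32 : ℕ) * (r / y - 1) ≤ (1 + (r / y - 1)) ^ 32 :=
    one_add_mul_le_pow (by
      have : 0 < r / y := by positivity
      linarith) 32
  have hb' : 32 * (r / y) ≤ 31 + (r / y) ^ 32 := by
    have e : 1 + (r / y - 1) = r / y := by ring
    rw [e] at hb
    push_cast at hb
    linarith
  have h1 : 32 * r ≤ 31 * y + a / (y : ℝ) ^ 31 := by
    have e1 : (r / y) ^ 32 = a / (y : ℝ) ^ 31 / y := by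
      rw [div_pow, hr32, div_div, ← pow_succ]
    rw [e1] at hb'
    have h2 := mul_le_mul_of_nonneg_right hb' hy'.le
    calc 32 * r = 32 * (r / y) * y := by field_simp
      _ ≤ (31 + a / (y : ℝ) ^ 31 / y) * y := h2
      _ = _ := by field_simp
  have h2 : 32 * r ≤ (31 * y + a / y ^ 31 : ℕ) + 1 := by
    refine h1.trans ?_
    have h3 := real_le_div a (y ^ 31) (by positivity)
    push_cast at h3 ⊢
    linarith
  have h3 : r ≤ (((31 * y + a / y ^ 31) / 32 + 1 : ℕ) : ℝ) := by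
    set z := 31 * y + a / y ^ 31 with hz
    have h4 : z + 1 ≤ 32 * (z / 32 + 1) := by omega
    have h5 : ((z + 1 : ℕ) : ℝ) ≤ ((32 * (z / 32 + 1) : ℕ) : ℝ) := by exact_mod_cast h4
    push_cast at h5 ⊢
    linarith
  rw [← hr32]
  exact pow_le_pow_left₀ hr0.le h3 32

theorem y0R_pos (g : ℕ) : 0 < y0R g := Nat.succ_pos _

/-- the factor of the radicand -/
theorem two_fac : ∃ T : ℕ, T = 2 ^ 1560 ∧ (T : ℝ) * 2 ^ 40 = 2 ^ (50 * 32) := by
  refine ⟨2 ^ 1560, rfl, ?_⟩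
  rw [Nat.cast_pow, Nat.cast_ofNat, ← pow_add]

theorem rtU_eq (g : ℕ) : ∃ y, 0 < y ∧ rtU g = nr (g * 2 ^ 1560) y := by
  unfold rtU
  simp only [ev_eq]
  exact ⟨_, nr_pos _ _, rfl⟩

theorem rtU_pos (g : ℕ) : 0 < rtU g := by
  obtain ⟨y, _, h⟩ := rtU_eq g
  rw [h]
  exact nr_pos _ _

attribute [local irreducible] rtU

/-- the 32nd root -/
theorem rtU_ge (g : ℕ) : (g : ℝ) / 1099511627776 ≤ ((rtU g : ℝ) / 2 ^ 50) ^ 32 := by
  obtain ⟨y, hy, h⟩ := rtU_eq g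
  obtain ⟨T, hT, hT'⟩ := two_fac
  rw [← hT] at h
  rw [h]
  have h1 := nr_ge (a := g * T) hy
  rw [div_pow, ← pow_mul, ← c40, div_le_div_iff₀ (pow_pos two_pos _) (pow_pos two_pos _)]
  calc (g : ℝ) * 2 ^ (50 * 32) = ((g * T : ℕ) : ℝ) * 2 ^ 40 := by
        rw [Nat.cast_mul, mul_assoc, hT']
    _ ≤ _ := mul_le_mul_of_nonneg_right h1 (pow_pos two_pos _).le

/-- `(γ^(1/32))^K` against `γ^(K/32)` -/
theorem rp_le {γ y : ℝ} (hγ : 0 ≤ γ) (hy : 0 ≤ y) (h : γ ≤ y ^ 32) (K : ℕ) :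
    Real.sqrt γ ^ ((K : ℝ) / 16) ≤ y ^ K := by
  have e : Real.sqrt γ ^ ((K : ℝ) / 16) = γ ^ ((K : ℝ) / 32) := by
    rw [Real.sqrt_eq_rpow, ← Real.rpow_mul hγ]
    congr 1
    ring
  rw [e]
  calc γ ^ ((K : ℝ) / 32) ≤ (y ^ 32) ^ ((K : ℝ) / 32) :=
        Real.rpow_le_rpow hγ h (by positivity)
    _ = y ^ K := by
        rw [← Real.rpow_natCast y 32, ← Real.rpow_mul hy, ← Real.rpow_natCast y K]
        congr 1
        push_cast
        ring

theorem le_rp {γ y : ℝ} (hγ : 0 ≤ γ) (hy : 0 ≤ y) (h : y ^ 32 ≤ γ) (K : ℕ) :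
    y ^ K ≤ Real.sqrt γ ^ ((K : ℝ) / 16) := by
  have e : Real.sqrt γ ^ ((K : ℝ) / 16) = γ ^ ((K : ℝ) / 32) := by
    rw [Real.sqrt_eq_rpow, ← Real.rpow_mul hγ]
    congr 1
    ring
  rw [e]
  calc y ^ K = (y ^ 32) ^ ((K : ℝ) / 32) := by
        rw [← Real.rpow_natCast y 32, ← Real.rpow_mul hy, ← Real.rpow_natCast y K]
        congr 1
        push_cast
        ring
    _ ≤ γ ^ ((K : ℝ) / 32) := Real.rpow_le_rpow (by positivity) h (by positivity)

/-- upper bound of the power -/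
theorem pwU_ge (K g : ℕ) (hK : 1 ≤ K) :
    Real.sqrt ((g : ℝ) / 1099511627776) ^ ((K : ℝ) / 16) ≤
      (pwU K (rtU g) : ℝ) / 1099511627776 := by
  refine (rp_le (by positivity) (by positivity) (rtU_ge g) K).trans ?_
  have hdef : pwU K (rtU g) = (rtU g ^ K) >>> (50 * K - 40) + 1 := rfl
  rw [hdef]
  have h1 := le_shr (rtU g ^ K) (50 * K - 40)
  rw [← c40, le_div_iff₀ (by positivity)]
  refine le_trans (le_of_eq ?_) h1
  rw [div_pow, ← pow_mul, Nat.cast_pow, div_mul_eq_mul_div, div_eq_div_iff (by positivity)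
    (by positivity), mul_assoc, ← pow_add]
  congr 2
  omega

/-- lower bound of the power -/
theorem pwL_le (K g : ℕ) (hK : 1 ≤ K) :
    (pwL K g (rtU g) : ℝ) / 1099511627776 ≤
      Real.sqrt ((g : ℝ) / 1099511627776) ^ ((K : ℝ) / 16) := by
  have hy0 := rtU_pos g
  obtain ⟨y', hy'', h⟩ := rtU_eq g
  generalize rtU g = y at hy0 h
  have hy' : (0 : ℝ) < y := Nat.cast_pos.2 hy0
  have hdef : pwL K g y = (((g * 2 ^ 1560) / (y ^ 31)) ^ K) >>> (50 * K - 40) := rfl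
  obtain ⟨T, hT, hT'⟩ := two_fac
  rw [← hT] at hdef h
  rw [hdef]
  clear hT hdef
  set r := (g * T) / (y ^ 31) with hr
  have h1 := shr_le (r ^ K) (50 * K - 40)
  have h2 : ((r : ℝ) / 2 ^ 50) ^ 32 ≤ (g : ℝ) / 1099511627776 := by
    have h3 := nr_ge (a := g * T) hy''
    rw [← h] at h3
    have h4 := div_le_real (g * T) (y ^ 31)
    rw [← hr] at h4
    set A : ℝ := ((g * T : ℕ) : ℝ) with hA
    have hA0 : 0 ≤ A := by rw [hA]; positivity
    have h5 : (r : ℝ) ^ 32 ≤ A := by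
      calc (r : ℝ) ^ 32 ≤ (A / ((y ^ 31 : ℕ) : ℝ)) ^ 32 :=
            pow_le_pow_left₀ (Nat.cast_nonneg _) h4 32
        _ = A * (A / (y : ℝ) ^ 32) ^ 31 := by
            push_cast
            rw [div_pow, div_pow, ← pow_mul, ← pow_mul]
            field_simp
        _ ≤ A * 1 := by
            apply mul_le_mul_of_nonneg_left _ hA0
            apply pow_le_one₀ (by positivity)
            rw [div_le_one (by positivity)]
            exact h3
        _ = A := mul_one _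
    rw [div_pow, ← pow_mul, ← c40, div_le_div_iff₀ (pow_pos two_pos _) (pow_pos two_pos _)]
    calc (r : ℝ) ^ 32 * 2 ^ 40 ≤ A * 2 ^ 40 :=
          mul_le_mul_of_nonneg_right h5 (pow_pos two_pos _).le
      _ = (g : ℝ) * 2 ^ (50 * 32) := by
          rw [hA, Nat.cast_mul, mul_assoc, hT']
  refine le_trans ?_ (le_rp (by positivity) (by positivity) h2 K)
  rw [← c40, div_le_iff₀ (by positivity)]
  refine h1.trans (le_of_eq ?_)
  rw [div_pow, ← pow_mul, Nat.cast_pow, div_mul_eq_mul_div, div_eq_div_iff (by positivity)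
    (by positivity), mul_assoc, ← pow_add]
  congr 2
  omega

theorem gg_nonneg' {m : ℝ} (hm : |m| ≤ 1) (x : ℝ) : 0 ≤ gg m x := by
  unfold gg
  have := sq_abs m
  have h3 : |m| ^ 2 ≤ 1 := pow_le_one₀ (abs_nonneg _) hm
  nlinarith [sq_nonneg (x - m)]

/-- the value of `gg` at a node -/
theorem gU_ge {lp ln a b : ℕ} (hb : 0 < b) (hm : |mr lp ln| ≤ 1) :
    gg (mr lp ln) ((a : ℝ) / b) ≤ (gU lp ln a b : ℝ) / 1099511627776 := by
  have hb' : (0 : ℝ) < b := Nat.cast_pos.2 hb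
  have hdef : gU lp ln a b = ((1099511627776 * (b * b + a * a) + 2 * ((a * b) * ln)) -
    2 * ((a * b) * lp)) / (b * b) + 1 := rfl
  rw [hdef, le_div_iff₀ (by norm_num)]
  refine le_trans ?_ (real_le_div _ _ (by positivity))
  rw [le_div_iff₀ (by positivity)]
  refine le_trans (le_of_eq ?_) (sub_le_cast _ _)
  unfold gg mr
  push_cast
  field_simp
  ring

/-- **upper bound of `gg^(K/2)` at a node** -/
theorem nodeE_ge {K lp ln a b : ℕ} {m : ℝ} (hK : 1 ≤ K) (hb : 0 < b) (hl : |mr lp ln| ≤ 1)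
    (hm : mr lp ln ≤ m) :
    EK ((K : ℝ) / 16) m ((a : ℝ) / b) ≤ (nodeE K lp ln a b : ℝ) / 1099511627776 := by
  refine (EK_anti (by positivity) hm (by positivity)).trans ?_
  refine le_trans ?_ (pwU_ge K (gU lp ln a b) hK)
  unfold EK
  exact Real.rpow_le_rpow (Real.sqrt_nonneg _) (Real.sqrt_le_sqrt (gU_ge hb hl)) (by positivity)

end Pool.Agent.Lib.MP_af3a4a_an.P1.CHK.CurveK
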