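import Pool.Agent.Lib.MP_af3a4a_an.P1.CHK.CurveK.Cell
import Pool.Agent.Lib.MP_af3a4a_an.P1.CHK.Curve.Loops
import Pool.Agent.Lib.MP_af3a4a_an.P1.H32.SweepR

/-!
# The curve with a real exponent: the cells, real analysis (council 2, helper62)
-/

set_option autoImplicit false

namespace Pool.Agent.Lib.MP_af3a4a_an.P1.CHK.CurveK

open MeasureTheory intervalIntegral
open Pool.Agent.Lib.MP_af3a4a_an.P1.CHK.H80 (gg JJ Th gg_pos gg_cont)
open Pool.Agent.Lib.MP_af3a4a_an.P1.CHK.Curve (ch ch_eq ch_cont ch_mono ch_nonneg ch_add_const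
  ch_mul ch_int ch_ch_int ch_le_convex sqrt_gg_convex gg_anti ruleP ruleQ)
open Pool.Agent.Lib.MP_af3a4a_an.P1.H32 (RepR)

/-! ### `gg^(K/2)` -/

/-- `gg^(K/2)` with a real exponent -/
noncomputable def EK (K m x : ℝ) : ℝ := Real.sqrt (gg m x) ^ K

theorem EK_nonneg (K m x : ℝ) : 0 ≤ EK K m x := Real.rpow_nonneg (Real.sqrt_nonneg _) _

theorem EK_exp {m x : ℝ} (hg : 0 < gg m x) (K : ℝ) :
    Real.exp (K * (Real.log (gg m x) / 2)) = EK K m x := by
  unfold EK
  rw [Real.rpow_def_of_pos (Real.sqrt_pos.2 hg), Real.log_sqrt hg.le]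
  congr 1
  ring

theorem EK_rpow {m x : ℝ} (hg : 0 ≤ gg m x) (K : ℝ) : EK K m x = gg m x ^ (K / 2) := by
  unfold EK
  rw [Real.sqrt_eq_rpow, ← Real.rpow_mul hg]
  congr 1
  ring

theorem EK_convex {K m : ℝ} (hK : 1 ≤ K) (hm : |m| ≤ 1) : ConvexOn ℝ Set.univ (EK K m) := by
  refine ⟨convex_univ, fun x _ y _ s t hs ht hst => ?_⟩
  have h1 := (sqrt_gg_convex hm).2 (Set.mem_univ x) (Set.mem_univ y) hs ht hst
  have h2 := (convexOn_rpow hK).2 (Set.mem_Ici.2 (Real.sqrt_nonneg (gg m x)))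
    (Set.mem_Ici.2 (Real.sqrt_nonneg (gg m y))) hs ht hst
  exact (Real.rpow_le_rpow (Real.sqrt_nonneg _) h1 (by linarith)).trans h2

theorem EK_cont {K : ℝ} (hK : 0 ≤ K) (m : ℝ) : Continuous (EK K m) := by
  unfold EK
  exact (Real.continuous_sqrt.comp (gg_cont m)).rpow_const fun _ => Or.inr hK

theorem EK_anti {K m m' x : ℝ} (hK : 0 ≤ K) (h : m ≤ m') (h0 : 0 ≤ x) :
    EK K m' x ≤ EK K m x :=
  Real.rpow_le_rpow (Real.sqrt_nonneg _) (Real.sqrt_le_sqrt (gg_anti h h0)) hK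

/-! ### integrals of products of chords -/

/-- integral of a product of three chords -/
theorem ch3_int {a b A B C D E F : ℝ} (hab : a < b) :
    ∫ x in a..b, ch a b A B x * ch a b C D x * ch a b E F x =
      (b - a) * (3 * (A * C * E) + (A * C * F + A * D * E + B * C * E) +
        (A * D * F + B * C * F + B * D * E) + 3 * (B * D * F)) / 12 := by
  have hba : b - a ≠ 0 := by linarith
  have hd : ∀ t ∈ Set.uIcc a b, HasDerivAt
      (fun t : ℝ => (-(A * C * E * ((b - t) ^ 4 / 4)) +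
        (A * C * F + A * D * E + B * C * E) * ((b - t) ^ 4 / 4 - (b - a) * (b - t) ^ 3 / 3) +
        (A * D * F + B * C * F + B * D * E) * (-((t - a) ^ 4 / 4) + (b - a) * (t - a) ^ 3 / 3) +
        B * D * F * ((t - a) ^ 4 / 4)) / (b - a) ^ 3)
      (ch a b A B t * ch a b C D t * ch a b E F t) t := by
    intro t _
    have f1 : HasDerivAt (fun t => b - t) (-1) t := (hasDerivAt_id t).const_sub b
    have f2 : HasDerivAt (fun t => t - a) 1 t := (hasDerivAt_id t).sub_const a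
    have e1 := (((f1.pow 4).div_const 4).const_mul (A * C * E)).neg
    have e2 := (((f1.pow 4).div_const 4).sub
      (((f1.pow 3).const_mul (b - a)).div_const 3)).const_mul
        (A * C * F + A * D * E + B * C * E)
    have e3 := ((((f2.pow 4).div_const 4)).neg.add
      (((f2.pow 3).const_mul (b - a)).div_const 3)).const_mul
        (A * D * F + B * C * F + B * D * E)
    have e4 := ((f2.pow 4).div_const 4).const_mul (B * D * F)
    refine ((((e1.add e2).add e3).add e4).div_const ((b - a) ^ 3)).congr_deriv ?_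
    unfold ch
    field_simp
    simp
    ring
  rw [intervalIntegral.integral_eq_sub_of_hasDerivAt hd]
  · field_simp
    ring
  · exact (((ch_cont _ _ _ _).mul (ch_cont _ _ _ _)).mul (ch_cont _ _ _ _)).intervalIntegrable _ _

theorem ch10 {a b x : ℝ} : ch a b 1 0 x = (b - x) / (b - a) := by
  unfold ch
  ring

theorem ch01 {a b x : ℝ} : ch a b 0 1 x = (x - a) / (b - a) := by
  unfold ch
  ring

/-! ### the representation -/

/-- `Re (e^{iφ} q)` through the representation of `q` -/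
theorem re_reprK {K : ℝ} {q : ℝ → ℂ} {μ : ℂ} (H : RepR K μ q) {x P : ℝ} (φ : ℝ)
    (h0 : 0 ≤ x) (h1 : x < 1) (hρ : K * (1 - ‖μ‖ ^ 2) * JJ μ.re x ≤ P) :
    ∃ Z : ℂ, ‖Z‖ ≤ P ∧ (Complex.exp ((φ : ℂ) * Complex.I) * q x).re =
      Real.exp (K * (Real.log (gg μ.re x) / 2) - P) *
        (Complex.exp (Z + ((φ - K * μ.im * Th μ.re x : ℝ) : ℂ) * Complex.I)).re := by
  obtain ⟨Z, hZ, hq⟩ := H.repr x h0 h1
  set ρ := K * (1 - ‖μ‖ ^ 2) * JJ μ.re x with hρdef
  refine ⟨Z + ((P - ρ : ℝ) : ℂ), ?_, ?_⟩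
  · refine (norm_add_le _ _).trans ?_
    rw [Complex.norm_real, Real.norm_of_nonneg (by linarith)]
    linarith
  · rw [← Complex.re_ofReal_mul, hq]
    congr 1
    rw [Complex.ofReal_exp, ← Complex.exp_add, ← Complex.exp_add]
    congr 1
    push_cast
    ring

section cells

variable {K : ℝ} {q : ℝ → ℂ} {μ : ℂ}

/-- **cell of rule P** -/
theorem posCell (H : RepR K μ q) {φ a b θa θb Pa Pb Ψa Ψb Xa Xb v : ℝ}
    (h0 : 0 ≤ a) (hab : a < b) (h1 : b < 1)
    (ha0 : 0 ≤ θa) (ha1 : θa < Real.pi / 2) (hb0 : 0 ≤ θb) (hb1 : θb < Real.pi / 2)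
    (hPa : 0 ≤ Pa) (hPb : 0 ≤ Pb) (hca : Pa * Real.cos θa ≤ 1) (hcb : Pb * Real.cos θb ≤ 1)
    (hΨa0 : 0 ≤ Ψa) (hΨb0 : 0 ≤ Ψb)
    (hΨa : Ψa ≤ θa - Pa * Real.sin θa) (hΨb : Ψb ≤ θb - Pb * Real.sin θb)
    (hρ : ∀ x ∈ Set.Icc a b, K * (1 - ‖μ‖ ^ 2) * JJ μ.re x ≤ ch a b Pa Pb x)
    (hψ : ∀ x ∈ Set.Icc a b, |φ - K * μ.im * Th μ.re x| ≤ ch a b Ψa Ψb x)
    (hXa : Pa * (1 + Real.cos θa) - Real.log (Real.cos θa) ≤ Xa)
    (hXb : Pb * (1 + Real.cos θb) - Real.log (Real.cos θb) ≤ Xb)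
    (hv : v ≤ (b - a) * Real.exp (K / 2 * ((∫ x in a..b, Real.log (gg μ.re x)) / (b - a)) -
      (Xa + Xb) / 2)) : PosCell q φ a b v := by
  have hm : |μ.re| ≤ 1 := (Complex.abs_re_le_norm _).trans H.m_le
  have hba : 0 < b - a := by linarith
  set m := μ.re with hmdef
  have hggc : ContinuousOn (fun x => Real.log (gg m x)) (Set.Icc a b) := by
    apply ContinuousOn.log (gg_cont m).continuousOn
    intro x hx
    exact (gg_pos hm (by linarith [hx.1]) (hx.2.trans_lt h1)).ne'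
  refine ⟨fun x => K * (Real.log (gg m x) / 2) - ch a b Xa Xb x,
    (continuousOn_const.mul (hggc.div_const 2)).sub (ch_cont _ _ _ _).continuousOn,
    fun x hx => ?_, ?_⟩
  · have hx0 : 0 ≤ x := h0.trans hx.1
    have hx1 : x < 1 := hx.2.trans_lt h1
    obtain ⟨Z, hZ, hre⟩ := re_reprK H φ hx0 hx1 (hρ x hx)
    rw [hre]
    have hs : 0 ≤ (b - x) / (b - a) := div_nonneg (by linarith [hx.2]) hba.le
    have ht : 0 ≤ (x - a) / (b - a) := div_nonneg (by linarith [hx.1]) hba.le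
    have hst : (b - x) / (b - a) + (x - a) / (b - a) = 1 := by
      rw [← add_div]
      have : b - x + (x - a) = b - a := by ring
      rw [this, div_self hba.ne']
    have hψx := hψ x hx
    rw [ch_eq] at hψx hZ
    have hP := ruleP hs ht hst ha0 ha1 hb0 hb1 hPa hPb hca hcb hΨa0 hΨb0 hΨa hΨb hψx hZ
    refine le_trans ?_ (mul_le_mul_of_nonneg_left hP (Real.exp_pos _).le)
    rw [← Real.exp_add]
    apply Real.exp_le_exp.2
    have e1 := mul_le_mul_of_nonneg_left hXa hs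
    have e2 := mul_le_mul_of_nonneg_left hXb ht
    show K * (Real.log (gg m x) / 2) - ch a b Xa Xb x ≤
      K * (Real.log (gg m x) / 2) - ch a b Pa Pb x + _
    rw [ch_eq, ch_eq]
    linarith [e1, e2]
  · refine hv.trans (le_of_eq ?_)
    have i1 : IntervalIntegrable (fun x => K * (Real.log (gg m x) / 2)) volume a b := by
      apply ContinuousOn.intervalIntegrable
      rw [Set.uIcc_of_le hab.le]
      exact continuousOn_const.mul (hggc.div_const 2)
    rw [intervalIntegral.integral_sub i1 ((ch_cont _ _ _ _).intervalIntegrable _ _),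
      ch_int hab, intervalIntegral.integral_const_mul, intervalIntegral.integral_div]
    congr 2
    field_simp

/-- **cell of rule Q** -/
theorem negCell (H : RepR K μ q) (hK1 : 1 ≤ K) {φ a b α Pa Pb Ψa Ψb δ Ea Eb La Lb C v₁ v₂ : ℝ}
    (k : ℕ) (h0 : 0 ≤ a) (hab : a < b) (h1 : b < 1)
    (ha0 : 0 ≤ α) (ha1 : α < Real.pi / 2)
    (hρ : ∀ x ∈ Set.Icc a b, K * (1 - ‖μ‖ ^ 2) * JJ μ.re x ≤ ch a b Pa Pb x)
    (hψ : ∀ x ∈ Set.Icc a b,
      |φ + 2 * Real.pi * k - K * μ.im * Th μ.re x| ≤ ch a b Ψa Ψb x + δ)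
    (hLa : Real.exp (Pa * (1 / Real.cos α - 1) + Real.tan α * (Ψa + α - Real.pi)) ≤ La)
    (hLb : Real.exp (Pb * (1 / Real.cos α - 1) + Real.tan α * (Ψb + α - Real.pi)) ≤ Lb)
    (hEa : EK K μ.re a ≤ Ea) (hEb : EK K μ.re b ≤ Eb)
    (hC : Real.exp (Real.tan α * δ) ≤ C)
    (hv₁ : (b - a) * (Real.cos α * (3 * (Ea * La) + Ea * Lb + Eb * La + Eb * Lb) / 12 * C) ≤ v₁)
    (hv₂ : (b - a) * (Real.cos α * (Ea * La + Ea * Lb + Eb * La + 3 * (Eb * Lb)) / 12 * C) ≤ v₂) :
    NegCell q φ a b v₁ v₂ := by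
  have hm : |μ.re| ≤ 1 := (Complex.abs_re_le_norm _).trans H.m_le
  have hba : 0 < b - a := by linarith
  have hpi := Real.pi_pos
  have hcos : 0 < Real.cos α := Real.cos_pos_of_mem_Ioo ⟨by linarith, ha1⟩
  have hsin : 0 ≤ Real.sin α := Real.sin_nonneg_of_nonneg_of_le_pi ha0 (by linarith)
  have htan : 0 ≤ Real.tan α := by
    rw [Real.tan_eq_sin_div_cos]
    positivity
  have hC0 : 0 < C := lt_of_lt_of_le (Real.exp_pos _) hC
  have hLa0 : 0 < La := lt_of_lt_of_le (Real.exp_pos _) hLa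
  have hLb0 : 0 < Lb := lt_of_lt_of_le (Real.exp_pos _) hLb
  have hEa0 : 0 ≤ Ea := (EK_nonneg _ _ _).trans hEa
  have hEb0 : 0 ≤ Eb := (EK_nonneg _ _ _).trans hEb
  set m := μ.re with hmdef
  refine ⟨fun x => Real.cos α * C * (ch a b Ea Eb x * ch a b La Lb x),
    (continuous_const.mul ((ch_cont _ _ _ _).mul (ch_cont _ _ _ _))).continuousOn,
    fun x hx => ⟨?_, ?_⟩, ?_, ?_⟩
  · have e1 := ch_nonneg hab hx.1 hx.2 hEa0 hEb0
    have e2 := ch_nonneg hab hx.1 hx.2 hLa0.le hLb0.le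
    positivity
  · have hx0 : 0 ≤ x := h0.trans hx.1
    have hx1 : x < 1 := hx.2.trans_lt h1
    obtain ⟨Z, hZ, hre⟩ := re_reprK H (φ + 2 * Real.pi * k) hx0 hx1 (hρ x hx)
    have hper : Complex.exp (((φ + 2 * Real.pi * k : ℝ) : ℂ) * Complex.I) =
        Complex.exp ((φ : ℂ) * Complex.I) := by
      have e : ((φ + 2 * Real.pi * k : ℝ) : ℂ) * Complex.I =
          (φ : ℂ) * Complex.I + ((k : ℤ) : ℂ) * (2 * Real.pi * Complex.I) := by
        push_cast
        ring
      rw [e, Complex.exp_add, Complex.exp_int_mul_two_pi_mul_I, mul_one]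
    rw [hper] at hre
    rw [hre]
    have hQ := ruleQ (ψ := φ + 2 * Real.pi * k - K * μ.im * Th m x) ha0 ha1 hZ
    set R := (Complex.exp (Z + ((φ + 2 * Real.pi * k - K * μ.im * Th m x : ℝ) : ℂ) *
      Complex.I)).re with hR
    have hg := gg_pos hm (by linarith : -1 < x) hx1
    have hE : EK K m x ≤ ch a b Ea Eb x :=
      ch_le_convex (EK_convex hK1 hm) (Set.mem_univ _) (Set.mem_univ _) hab hx.1 hx.2 hEa hEb
    set la := Pa * (1 / Real.cos α - 1) + Real.tan α * (Ψa + α - Real.pi) with hla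
    set lb := Pb * (1 / Real.cos α - 1) + Real.tan α * (Ψb + α - Real.pi) with hlb
    have hL : Real.exp (ch a b la lb x) ≤ ch a b La Lb x := by
      have hs : 0 ≤ (b - x) / (b - a) := div_nonneg (by linarith [hx.2]) hba.le
      have ht : 0 ≤ (x - a) / (b - a) := div_nonneg (by linarith [hx.1]) hba.le
      have hst : (b - x) / (b - a) + (x - a) / (b - a) = 1 := by
        rw [← add_div]
        have : b - x + (x - a) = b - a := by ring
        rw [this, div_self hba.ne']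
      have h3 := convexOn_exp.2 (Set.mem_univ la) (Set.mem_univ lb) hs ht hst
      simp only [smul_eq_mul] at h3
      rw [ch_eq, ch_eq]
      refine h3.trans ?_
      exact add_le_add (mul_le_mul_of_nonneg_left hLa hs) (mul_le_mul_of_nonneg_left hLb ht)
    -- the exponent
    have hexp : (K * (Real.log (gg m x) / 2) - ch a b Pa Pb x) + (ch a b Pa Pb x / Real.cos α +
        Real.tan α * (|φ + 2 * Real.pi * k - K * μ.im * Th m x| + α - Real.pi)) ≤
        K * (Real.log (gg m x) / 2) + ch a b la lb x + Real.tan α * δ := by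
      have h4 := mul_le_mul_of_nonneg_left (hψ x hx) htan
      have h5 : ch a b la lb x = ch a b Pa Pb x * (1 / Real.cos α - 1) +
          Real.tan α * (ch a b Ψa Ψb x + α - Real.pi) := by
        rw [hla, hlb]
        unfold ch
        field_simp
        ring
      rw [h5]
      have h6 : ch a b Pa Pb x / Real.cos α = ch a b Pa Pb x * (1 / Real.cos α) := by ring
      rw [h6]
      nlinarith [h4]
    calc -(Real.exp (K * (Real.log (gg m x) / 2) - ch a b Pa Pb x) * R) =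
        Real.exp (K * (Real.log (gg m x) / 2) - ch a b Pa Pb x) * -R := by ring
      _ ≤ Real.exp (K * (Real.log (gg m x) / 2) - ch a b Pa Pb x) * (Real.cos α * Real.exp
          (ch a b Pa Pb x / Real.cos α +
      Real.tan α * (|φ + 2 * Real.pi * k - K * μ.im * Th m x| + α - Real.pi))) :=
          mul_le_mul_of_nonneg_left hQ (Real.exp_pos _).le
      _ = Real.cos α * Real.exp ((K * (Real.log (gg m x) / 2) - ch a b Pa Pb x) +
          (ch a b Pa Pb x / Real.cos α +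
      Real.tan α * (|φ + 2 * Real.pi * k - K * μ.im * Th m x| + α - Real.pi))) := by
          rw [Real.exp_add (K * (Real.log (gg m x) / 2) - ch a b Pa Pb x)]
          ring
      _ ≤ Real.cos α * Real.exp (K * (Real.log (gg m x) / 2) + ch a b la lb x +
          Real.tan α * δ) := by
          apply mul_le_mul_of_nonneg_left _ hcos.le
          exact Real.exp_le_exp.2 hexp
      _ = Real.cos α * (EK K m x * Real.exp (ch a b la lb x) * Real.exp (Real.tan α * δ)) := by
          rw [Real.exp_add, Real.exp_add, EK_exp hg]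
      _ ≤ Real.cos α * (ch a b Ea Eb x * ch a b La Lb x * C) := by
          apply mul_le_mul_of_nonneg_left _ hcos.le
          apply mul_le_mul _ hC (Real.exp_pos _).le
          · exact mul_nonneg (ch_nonneg hab hx.1 hx.2 hEa0 hEb0)
              (ch_nonneg hab hx.1 hx.2 hLa0.le hLb0.le)
          · exact mul_le_mul hE hL (Real.exp_pos _).le (ch_nonneg hab hx.1 hx.2 hEa0 hEb0)
      _ = _ := by ring
  · refine le_trans (le_of_eq ?_) hv₁
    have e : ∀ x, Real.cos α * C * (ch a b Ea Eb x * ch a b La Lb x) * ((b - x) / (b - a)) =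
        Real.cos α * C * (ch a b Ea Eb x * ch a b La Lb x * ch a b 1 0 x) := by
      intro x
      rw [ch10]
      ring
    simp only [e]
    rw [intervalIntegral.integral_const_mul, ch3_int hab]
    ring
  · refine le_trans (le_of_eq ?_) hv₂
    have e : ∀ x, Real.cos α * C * (ch a b Ea Eb x * ch a b La Lb x) * ((x - a) / (b - a)) =
        Real.cos α * C * (ch a b Ea Eb x * ch a b La Lb x * ch a b 0 1 x) := by
      intro x
      rw [ch01]
      ring
    simp only [e]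
    rw [intervalIntegral.integral_const_mul, ch3_int hab]
    ring

/-- **cell with the bound of the modulus** -/
theorem negCell_am (H : RepR K μ q) (hK1 : 1 ≤ K) {φ a b Ea Eb v₁ v₂ : ℝ} (h0 : 0 ≤ a)
    (hab : a < b) (h1 : b < 1) (hEa : EK K μ.re a ≤ Ea) (hEb : EK K μ.re b ≤ Eb)
    (hv₁ : (b - a) * (2 * Ea + Eb) / 6 ≤ v₁) (hv₂ : (b - a) * (Ea + 2 * Eb) / 6 ≤ v₂) :
    NegCell q φ a b v₁ v₂ := by
  have hm : |μ.re| ≤ 1 := (Complex.abs_re_le_norm _).trans H.m_le
  have hEa0 : 0 ≤ Ea := (EK_nonneg _ _ _).trans hEa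
  have hEb0 : 0 ≤ Eb := (EK_nonneg _ _ _).trans hEb
  refine ⟨fun x => ch a b Ea Eb x, (ch_cont _ _ _ _).continuousOn,
    fun x hx => ⟨ch_nonneg hab hx.1 hx.2 hEa0 hEb0, ?_⟩, ?_, ?_⟩
  · have hx0 : 0 ≤ x := h0.trans hx.1
    have hx1 : x < 1 := hx.2.trans_lt h1
    have hg := gg_pos hm (by linarith : -1 < x) hx1
    have h2 := H.norm_le hx0 hx1
    rw [EK_exp hg] at h2
    have h3 : |(Complex.exp ((φ : ℂ) * Complex.I) * q x).re| ≤ ‖q x‖ := by
      refine (Complex.abs_re_le_norm _).trans (le_of_eq ?_)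
      rw [norm_mul, Complex.norm_exp_ofReal_mul_I, one_mul]
    have h4 := (abs_le.1 h3).1
    have hE : EK K μ.re x ≤ ch a b Ea Eb x :=
      ch_le_convex (EK_convex hK1 hm) (Set.mem_univ _) (Set.mem_univ _) hab hx.1 hx.2 hEa hEb
    linarith
  · refine le_trans (le_of_eq ?_) hv₁
    have e : ∀ x, ch a b Ea Eb x * ((b - x) / (b - a)) = ch a b Ea Eb x * ch a b 1 0 x := by
      intro x
      rw [ch10]
    simp only [e]
    rw [ch_ch_int hab]
    ring
  · refine le_trans (le_of_eq ?_) hv₂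
    have e : ∀ x, ch a b Ea Eb x * ((x - a) / (b - a)) = ch a b Ea Eb x * ch a b 0 1 x := by
      intro x
      rw [ch01]
    simp only [e]
    rw [ch_ch_int hab]
    ring

end cells

end Pool.Agent.Lib.MP_af3a4a_an.P1.CHK.CurveK
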