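import Pool.Agent.Lib.MP_af3a4a_an.P1.CHK.CurveK.Defs

/-!
# The curve with a real exponent: the packed tables (council 2, helper62)
-/

set_option autoImplicit false

namespace Pool.Agent.Lib.MP_af3a4a_an.P1.CHK.CurveK

open Pool.Agent.Lib.MP_af3a4a_an.P1.CHK.Curve (sN cN lN)

/-- the check of one index -/
def tabsOK (t : ℕ) : Bool :=
  Nat.beq (Nat.mod (Nat.shiftRight tabP (Nat.mul 144 t)) 281474976710656) (Nat.add (sN t) 1) &&
  (Nat.beq (Nat.mod (Nat.shiftRight (Nat.shiftRight tabP (Nat.mul 144 t)) 48) 281474976710656)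
    (Nat.add (cN t) 1) &&
  (Nat.beq (Nat.mod (Nat.shiftRight (Nat.shiftRight tabP (Nat.mul 144 t)) 96) 281474976710656)
    (Nat.add (lN t) 1) &&
  (Nat.beq (Nat.mod (Nat.shiftRight tabN (Nat.mul 192 t)) 281474976710656)
    (Nat.sub (Nat.add (Nat.div (Nat.mul 1099511627776 1099511627776) (cN t)) 1) 1099511627776) &&
  (Nat.beq (Nat.mod (Nat.shiftRight (Nat.shiftRight tabN (Nat.mul 192 t)) 48) 281474976710656)
    (Nat.add (Nat.div (Nat.mul (Nat.add (sN t) 1) 1099511627776) (cN t)) 1) &&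
  (Nat.beq (Nat.mod (Nat.shiftRight (Nat.shiftRight tabN (Nat.mul 192 t)) 96) 281474976710656)
    (Nat.div (Nat.mul (sN t) 1099511627776) (Nat.add (cN t) 1)) &&
  Nat.beq (Nat.mod (Nat.shiftRight (Nat.shiftRight tabN (Nat.mul 192 t)) 144) 281474976710656)
    (Nat.add (cN t) 1))))))

/-- the check of `f` indices from `k` on -/
def tgo : ℕ → ℕ → Bool
  | 0, _ => true
  | f + 1, k => tabsOK k && tgo f (k + 1)

theorem tgo_ok : tgo 101 0 = true := by decide +kernel

theorem tgo_spec : ∀ (f k : ℕ), tgo f k = true → ∀ i, i < f → tabsOK (k + i) = true := by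
  intro f
  induction f with
  | zero => intro k _ i hi; omega
  | succ f ih =>
    intro k h i hi
    rw [tgo, Bool.and_eq_true] at h
    rcases i with _ | i
    · exact h.1
    · have := ih (k + 1) h.2 i (by omega)
      rwa [show k + (i + 1) = k + 1 + i by omega]

/-- the meaning of the tables -/
theorem tabs_spec {t : ℕ} (ht : t ≤ 100) :
    (tabP >>> (144 * t)) % 281474976710656 = sN t + 1 ∧
    ((tabP >>> (144 * t)) >>> 48) % 281474976710656 = cN t + 1 ∧
    ((tabP >>> (144 * t)) >>> 96) % 281474976710656 = lN t + 1 ∧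
    (tabN >>> (192 * t)) % 281474976710656 =
      1099511627776 * 1099511627776 / cN t + 1 - 1099511627776 ∧
    ((tabN >>> (192 * t)) >>> 48) % 281474976710656 = (sN t + 1) * 1099511627776 / cN t + 1 ∧
    ((tabN >>> (192 * t)) >>> 96) % 281474976710656 = sN t * 1099511627776 / (cN t + 1) ∧
    ((tabN >>> (192 * t)) >>> 144) % 281474976710656 = cN t + 1 := by
  have h := tgo_spec 101 0 tgo_ok t (by omega)
  rw [zero_add] at h
  unfold tabsOK at h
  simp only [Bool.and_eq_true] at h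
  obtain ⟨h1, h2, h3, h4, h5, h6, h7⟩ := h
  exact ⟨Nat.eq_of_beq_eq_true h1, Nat.eq_of_beq_eq_true h2, Nat.eq_of_beq_eq_true h3,
    Nat.eq_of_beq_eq_true h4, Nat.eq_of_beq_eq_true h5, Nat.eq_of_beq_eq_true h6,
    Nat.eq_of_beq_eq_true h7⟩

end Pool.Agent.Lib.MP_af3a4a_an.P1.CHK.CurveK
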